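import Mathlib

/-!
Gadgets: finite multigraphs with `2h` labelled dangling edges, split into two halves of `h`.
-/

set_option autoImplicit false

namespace Pool.Agent.Helper243Arrow

open Classical

/-- A finite multigraph with dangling edges indexed by `Fin h ⊕ Fin h`. -/
structure Gad (h : ℕ) : Type 1 where
  V : Type
  E : Type
  fV : Fintype V
  fE : Fintype E
  ends : E → V × V
  att : Fin h ⊕ Fin h → V

attribute [instance] Gad.fV Gad.fE

variable {h : ℕ}

/-- Weighted size of the boundary of a vertex set, dangling edges included. -/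
noncomputable def Gad.cut (G : Gad h) (w : G.E → ℕ) (s : Fin h ⊕ Fin h → ℕ) (X : G.V → Prop) : ℕ :=
  (∑ e, if (X (G.ends e).1 ↔ X (G.ends e).2) then 0 else w e) +
    ∑ d, if X (G.att d) then s d else 0

/-- Every nonempty vertex set has at least `2h` boundary edges. -/
def Gad.Conn (G : Gad h) : Prop :=
  ∀ X : G.V → Prop, (∃ v, X v) → 2 * h ≤ G.cut (fun _ => 1) (fun _ => 1) X

/-- `0/1` weight of a Boolean colouring. -/
def bw {α : Type} (c : α → Bool) (a : α) : ℕ := if c a then 1 else 0

/-- `c`, `s` colour the edges and the dangling edges so that every nonempty set has at least `a`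
boundary edges of colour `true` and at least `b` of colour `false`. -/
def Gad.Good (G : Gad h) (a b : ℕ) (c : G.E → Bool) (s : Fin h ⊕ Fin h → Bool) : Prop :=
  ∀ X : G.V → Prop, (∃ v, X v) →
    a ≤ G.cut (bw c) (bw s) X ∧ b ≤ G.cut (bw fun e => !c e) (bw fun d => !s d) X

/-- Colouring of the dangling edges given by two finite sets. -/
def st (x y : Finset (Fin h)) : Fin h ⊕ Fin h → Bool :=
  Sum.elim (fun i => decide (i ∈ x)) (fun i => decide (i ∈ y))

/-- The states of a gadget. -/
def Gad.Rel (G : Gad h) (a b : ℕ) (x y : Finset (Fin h)) : Prop :=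
  ∃ c, G.Good a b c (st x y)

/-- Single vertex. -/
def vert (h : ℕ) : Gad h where
  V := Unit
  E := Empty
  fV := inferInstance
  fE := inferInstance
  ends := fun e => e.elim
  att := fun _ => ()

/-- Join the right dangling edges of `X` to the left dangling edges of `Y`. -/
def comp (X Y : Gad h) : Gad h where
  V := X.V ⊕ Y.V
  E := X.E ⊕ (Y.E ⊕ Fin h)
  fV := inferInstance
  fE := inferInstance
  ends := fun e => match e with
    | .inl e => (.inl (X.ends e).1, .inl (X.ends e).2)
    | .inr (.inl e) => (.inr (Y.ends e).1, .inr (Y.ends e).2)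
    | .inr (.inr i) => (.inl (X.att (.inr i)), .inr (Y.att (.inl i)))
  att := fun d => match d with
    | .inl i => .inl (X.att (.inl i))
    | .inr i => .inr (Y.att (.inr i))

/-- Relabel the dangling edges by exchanging left `i` and right `j`. -/
def Gad.swap (G : Gad h) (i j : Fin h) : Gad h where
  V := G.V
  E := G.E
  fV := G.fV
  fE := G.fE
  ends := G.ends
  att := fun d => G.att (Equiv.swap (Sum.inl i) (Sum.inr j) d)

theorem cut_comp (X Y : Gad h) (w : (comp X Y).E → ℕ) (s : Fin h ⊕ Fin h → ℕ)
    (P : X.V → Prop) (Q : Y.V → Prop) :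
    (comp X Y).cut w s (Sum.elim P Q) =
      (∑ e, if (P (X.ends e).1 ↔ P (X.ends e).2) then 0 else w (.inl e)) +
      (∑ e, if (Q (Y.ends e).1 ↔ Q (Y.ends e).2) then 0 else w (.inr (.inl e))) +
      (∑ i, if (P (X.att (.inr i)) ↔ Q (Y.att (.inl i))) then 0 else w (.inr (.inr i))) +
      (∑ i, if P (X.att (.inl i)) then s (.inl i) else 0) +
      (∑ i, if Q (Y.att (.inr i)) then s (.inr i) else 0) := by
  unfold Gad.cut
  have h1 : (∑ e : (comp X Y).E, if (Sum.elim P Q ((comp X Y).ends e).1 ↔
        Sum.elim P Q ((comp X Y).ends e).2) then 0 else w e) =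
      (∑ e, if (P (X.ends e).1 ↔ P (X.ends e).2) then 0 else w (.inl e)) +
      ((∑ e, if (Q (Y.ends e).1 ↔ Q (Y.ends e).2) then 0 else w (.inr (.inl e))) +
      (∑ i, if (P (X.att (.inr i)) ↔ Q (Y.att (.inl i))) then 0 else w (.inr (.inr i)))) := by
    show (∑ e : X.E ⊕ (Y.E ⊕ Fin h), if (Sum.elim P Q ((comp X Y).ends e).1 ↔
        Sum.elim P Q ((comp X Y).ends e).2) then 0 else w e) = _
    rw [Fintype.sum_sum_type, Fintype.sum_sum_type]
    rfl
  have h2 : (∑ d, if Sum.elim P Q ((comp X Y).att d) then s d else 0) =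
      (∑ i, if P (X.att (.inl i)) then s (.inl i) else 0) +
      (∑ i, if Q (Y.att (.inr i)) then s (.inr i) else 0) := by
    rw [Fintype.sum_sum_type]
    rfl
  rw [h1, h2]
  ring

theorem cut_split (G : Gad h) (w : G.E → ℕ) (s : Fin h ⊕ Fin h → ℕ) (X : G.V → Prop) :
    G.cut w s X = (∑ e, if (X (G.ends e).1 ↔ X (G.ends e).2) then 0 else w e) +
      (∑ i, if X (G.att (.inl i)) then s (.inl i) else 0) +
      (∑ i, if X (G.att (.inr i)) then s (.inr i) else 0) := by
  unfold Gad.cut
  rw [Fintype.sum_sum_type]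
  ring

theorem cut_comp_left (X Y : Gad h) (w : (comp X Y).E → ℕ) (s : Fin h ⊕ Fin h → ℕ)
    (P : X.V → Prop) :
    (comp X Y).cut w s (Sum.elim P (fun _ => False)) =
      X.cut (fun e => w (.inl e)) (Sum.elim (fun i => s (.inl i)) (fun i => w (.inr (.inr i)))) P := by
  rw [cut_comp, cut_split]
  simp only [iff_false, ite_not, if_false, Finset.sum_const_zero, add_zero, Sum.elim_inl,
    Sum.elim_inr, iff_self, if_true]
  ring

theorem cut_comp_right (X Y : Gad h) (w : (comp X Y).E → ℕ) (s : Fin h ⊕ Fin h → ℕ)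
    (Q : Y.V → Prop) :
    (comp X Y).cut w s (Sum.elim (fun _ => False) Q) =
      Y.cut (fun e => w (.inr (.inl e)))
        (Sum.elim (fun i => w (.inr (.inr i))) (fun i => s (.inr i))) Q := by
  rw [cut_comp, cut_split]
  simp only [false_iff, ite_not, if_false, Finset.sum_const_zero, add_zero, zero_add, Sum.elim_inl,
    Sum.elim_inr, iff_self, if_true]

theorem cut_swap (G : Gad h) (i j : Fin h) (w : G.E → ℕ) (s : Fin h ⊕ Fin h → ℕ)
    (X : G.V → Prop) :
    (G.swap i j).cut w s X = G.cut w (fun d => s (Equiv.swap (Sum.inl i) (Sum.inr j) d)) X := by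
  unfold Gad.cut
  congr 1
  apply Fintype.sum_equiv (Equiv.swap (Sum.inl i) (Sum.inr j))
  intro d
  have : Equiv.swap (Sum.inl i) (Sum.inr j) (Equiv.swap (Sum.inl i) (Sum.inr j) d) = d := by simp
  show (if X (G.att (Equiv.swap (Sum.inl i) (Sum.inr j) d)) then s d else 0) =
    if X (G.att (Equiv.swap (Sum.inl i) (Sum.inr j) d)) then
      s (Equiv.swap (Sum.inl i) (Sum.inr j) (Equiv.swap (Sum.inl i) (Sum.inr j) d)) else 0
  rw [show s (Equiv.swap (Sum.inl i) (Sum.inr j) (Equiv.swap (Sum.inl i) (Sum.inr j) d)) = s d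
    from congrArg s this]

theorem conn_vert (h : ℕ) : (vert h).Conn := by
  intro X hX
  obtain ⟨v, hv⟩ := hX
  unfold Gad.cut
  have : ∀ d, X ((vert h).att d) := fun d => hv
  simp [this]
  omega

theorem conn_swap (G : Gad h) (i j : Fin h) (hG : G.Conn) : (G.swap i j).Conn := by
  intro X hX
  have := hG X hX
  exact le_of_le_of_eq this (cut_swap G i j (fun _ => 1) (fun _ => 1) X).symm

theorem conn_comp (X Y : Gad h) (hX : X.Conn) (hY : Y.Conn) : (comp X Y).Conn := by
  intro Z hZ
  set P : X.V → Prop := fun v => Z (.inl v) with hP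
  set Q : Y.V → Prop := fun v => Z (.inr v) with hQ
  have hZe : Z = Sum.elim P Q := by
    funext v
    cases v <;> rfl
  by_cases h1 : ∃ v, P v
  · by_cases h2 : ∃ v, Q v
    · have a1 := hX P h1
      have a2 := hY Q h2
      rw [hZe, cut_comp]
      rw [cut_split] at a1 a2
      have key : (∑ i, if P (X.att (.inr i)) then 1 else 0) +
          (∑ i, if Q (Y.att (.inl i)) then 1 else 0) ≤
          (∑ i : Fin h, if (P (X.att (.inr i)) ↔ Q (Y.att (.inl i))) then 0 else 1) + 2 * h := by
        have : (2 * h) = ∑ i : Fin h, 2 := by simp; ring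
        rw [this, ← Finset.sum_add_distrib, ← Finset.sum_add_distrib]
        apply Finset.sum_le_sum
        intro i _
        by_cases u1 : P (X.att (.inr i)) <;> by_cases u2 : Q (Y.att (.inl i)) <;> simp [u1, u2]
      omega
    · have hQf : Q = fun _ => False := by
        funext v
        simp only [eq_iff_iff, iff_false]
        exact fun hv => h2 ⟨v, hv⟩
      rw [hZe, hQf, cut_comp_left]
      have := hX P h1
      convert this using 2
      funext d
      cases d <;> rfl
  · have hPf : P = fun _ => False := by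
      funext v
      simp only [eq_iff_iff, iff_false]
      exact fun hv => h1 ⟨v, hv⟩
    have h2 : ∃ v, Q v := by
      obtain ⟨v, hv⟩ := hZ
      cases v with
      | inl v => exact absurd ⟨v, hv⟩ h1
      | inr v => exact ⟨v, hv⟩
    rw [hZe, hPf, cut_comp_right]
    have := hY Q h2
    convert this using 2
    funext d
    cases d <;> rfl

end Pool.Agent.Helper243Arrow
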