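import Pool.Agent.Helper243_Arrow.Tri

/-!
Closing a gadget with one extra vertex, for gadgets with an arbitrary index type.
-/

set_option autoImplicit false

namespace Pool.Agent.Helper243Arrow

open Classical

variable {ι : Type} [Fintype ι]

/-- The edges of the graph closing a gadget. -/
def netEnds (G : Net ι) : G.E ⊕ ι → Option G.V × Option G.V
  | .inl e => (some (G.ends e).1, some (G.ends e).2)
  | .inr d => (some (G.att d), none)

theorem ecut_net (G : Net ι) (c : G.E ⊕ ι → Bool) (X : Option G.V → Prop)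
    (hX : ¬ X none) :
    ecut (netEnds G) {e | c e = true} X =
      G.cut (bw fun e => c (.inl e)) (bw fun d => c (.inr d)) (fun v => X (some v)) := by
  unfold ecut Net.cut
  rw [Finset.card_filter, Fintype.sum_sum_type]
  congr 1
  · apply Finset.sum_congr rfl
    intro e _
    by_cases h1 : (X (some (G.ends e).1) ↔ X (some (G.ends e).2))
    · simp [netEnds, h1]
    · cases h2 : c (.inl e) <;> simp [netEnds, h1, h2, bw]
  · apply Finset.sum_congr rfl
    intro d _
    by_cases h1 : X (some (G.att d))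
    · cases h2 : c (.inr d) <;> simp [netEnds, hX, h1, h2, bw]
    · simp [netEnds, hX, h1]

theorem ecut_net_univ (G : Net ι) (X : Option G.V → Prop) (hX : ¬ X none) :
    ecut (netEnds G) Set.univ X = G.cut (fun _ => 1) (fun _ => 1) (fun v => X (some v)) := by
  have h1 := ecut_net G (fun _ => true) X hX
  have h2 : {e : G.E ⊕ ι | (true : Bool) = true} = Set.univ := by
    ext e
    simp
  rw [h2] at h1
  rw [h1]
  rfl

theorem ec_net (G : Net ι) (hG : G.Conn) : EC (netEnds G) Set.univ (Fintype.card ι) := by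
  apply cut_ec
  intro X h1 h2
  by_cases hX : X none
  · rw [← ecut_compl, ecut_net_univ G _ (by simpa using hX)]
    apply hG
    obtain ⟨v, hv⟩ := h2
    cases v with
    | none => exact absurd hX hv
    | some v => exact ⟨v, hv⟩
  · rw [ecut_net_univ G _ hX]
    apply hG
    obtain ⟨v, hv⟩ := h1
    cases v with
    | none => exact absurd hv hX
    | some v => exact ⟨v, hv⟩

theorem no_arrow_of_dead_net {a b : ℕ} (G : Net ι) (hC : G.Conn)
    (hdead : ∀ σ, ¬ G.State a b σ) {r : ℕ} (ks : Fin r → ℕ) (I : Finset (Fin r))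
    (hI : a ≤ ∑ i ∈ I, ks i) (hI' : b ≤ ∑ i ∈ Iᶜ, ks i) : ¬ Arrow (Fintype.card ι) ks := by
  intro hA
  obtain ⟨f, hf⟩ := hA (Option G.V) (G.E ⊕ ι) (netEnds G) (ec_net G hC)
  set c : G.E ⊕ ι → Bool := fun e => decide (f e ∈ I) with hc
  have e1 : {e | c e = true} = {e | f e ∈ I} := by
    ext e
    simp [hc]
  have e2 : {e | (!c e) = true} = {e | f e ∈ Iᶜ} := by
    ext e
    simp [hc]
  apply hdead (fun d => c (.inr d))
  refine ⟨fun e => c (.inl e), ?_⟩
  intro P hP
  obtain ⟨Z, hZ⟩ : ∃ Z : Option G.V → Prop, Z = fun v => ∃ u, v = some u ∧ P u := ⟨_, rfl⟩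
  have hX1 : ∃ v, Z v := by
    obtain ⟨v, hv⟩ := hP
    rw [hZ]
    exact ⟨some v, v, rfl, hv⟩
  have hX2 : ¬ Z none := by
    rw [hZ]
    rintro ⟨u, hu, _⟩
    exact absurd hu (by simp)
  have hPe : (fun v => Z (some v)) = P := by
    rw [hZ]
    funext v
    simp
  have k1 := ecut_net G c Z hX2
  have k2 := ecut_net G (fun e => !c e) Z hX2
  rw [e1, hPe, ecut_merge] at k1
  rw [e2, hPe, ecut_merge] at k2
  constructor
  · rw [← k1]
    exact le_trans hI (Finset.sum_le_sum fun i _ => ec_cut _ _ _ (hf i) _ hX1 ⟨none, hX2⟩)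
  · have k3 : G.cut (bw fun e => !c (.inl e)) (bw fun d => !c (.inr d)) P =
        ∑ i ∈ Iᶜ, ecut (netEnds G) {e | f e = i} Z := k2.symm
    rw [k3]
    exact le_trans hI' (Finset.sum_le_sum fun i _ => ec_cut _ _ _ (hf i) _ hX1 ⟨none, hX2⟩)

end Pool.Agent.Helper243Arrow
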