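import Pool.Agent.Helper243_Arrow.ExactNet

/-!
Gadgets with `2h+1` dangling edges, the pair `(1, 2h-1)`: a gadget without states.
-/

set_option autoImplicit false

namespace Pool.Agent.Helper243Arrow

open Classical

variable {h : ℕ}

theorem card_dg (h : ℕ) : Fintype.card (Dg h) = 2 * h + 1 := by
  simp
  ring

theorem mk3_one : (fun _ : Dg h => 1) = mk3 (fun _ : Fin h => 1) (fun _ : Fin h => 1) 1 := by
  funext d
  rcases d with (i | i) | i <;> rfl

theorem elim_a {α β γ : Type} (v : α) :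
    (Sum.elim (fun u => u = v) (Sum.elim (fun _ => False) (fun _ => False)) :
      α ⊕ (β ⊕ γ) → Prop) = fun u => u = Sum.inl v := by
  funext u
  rcases u with u | u | u <;> simp

theorem elim_b {α β γ : Type} (v : β) :
    (Sum.elim (fun _ => False) (Sum.elim (fun u => u = v) (fun _ => False)) :
      α ⊕ (β ⊕ γ) → Prop) = fun u => u = Sum.inr (Sum.inl v) := by
  funext u
  rcases u with u | u | u <;> simp

theorem elim_c {α β γ : Type} (v : γ) :
    (Sum.elim (fun _ => False) (Sum.elim (fun _ => False) (fun u => u = v)) :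
      α ⊕ (β ⊕ γ) → Prop) = fun u => u = Sum.inr (Sum.inr v) := by
  funext u
  rcases u with u | u | u <;> simp

theorem deg_trio_a (A B C : Net (Dg h)) (w : (trio A B C).E → ℕ) (x y : Fin h → ℕ) (s : ℕ)
    (v : A.V) : (trio A B C).deg w (mk3 x y s) (.inl v) =
      A.deg (fun e => w (.inl (.inl e)))
        (mk3 x (fun i => w (.inr (.inl (.inl i)))) (w (.inr (.inr ())))) v := by
  unfold Net.deg
  rw [← cut_trio_a A B C w x y s, elim_a]
  rfl

theorem deg_trio_b (A B C : Net (Dg h)) (w : (trio A B C).E → ℕ) (x y : Fin h → ℕ) (s : ℕ)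
    (v : B.V) : (trio A B C).deg w (mk3 x y s) (.inr (.inl v)) =
      B.deg (fun e => w (.inl (.inr (.inl e))))
        (mk3 (fun i => w (.inr (.inl (.inl i)))) (fun i => w (.inr (.inl (.inr i)))) s) v := by
  unfold Net.deg
  rw [← cut_trio_b A B C w x y s, elim_b]
  rfl

theorem deg_trio_c (A B C : Net (Dg h)) (w : (trio A B C).E → ℕ) (x y : Fin h → ℕ) (s : ℕ)
    (v : C.V) : (trio A B C).deg w (mk3 x y s) (.inr (.inr v)) =
      C.deg (fun e => w (.inl (.inr (.inr e))))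
        (mk3 (fun i => w (.inr (.inl (.inr i)))) y (w (.inr (.inr ())))) v := by
  unfold Net.deg
  rw [← cut_trio_c A B C w x y s, elim_c]
  rfl

theorem sum_deg_trio (A B C : Net (Dg h)) (w : (trio A B C).E → ℕ) (x y : Fin h → ℕ) (s : ℕ) :
    ∑ v, (trio A B C).deg w (mk3 x y s) v =
      (∑ v, A.deg (fun e => w (.inl (.inl e)))
        (mk3 x (fun i => w (.inr (.inl (.inl i)))) (w (.inr (.inr ())))) v) +
      ((∑ v, B.deg (fun e => w (.inl (.inr (.inl e))))
        (mk3 (fun i => w (.inr (.inl (.inl i)))) (fun i => w (.inr (.inl (.inr i)))) s) v) +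
      ∑ v, C.deg (fun e => w (.inl (.inr (.inr e))))
        (mk3 (fun i => w (.inr (.inl (.inr i)))) y (w (.inr (.inr ())))) v) := by
  show ∑ v : A.V ⊕ (B.V ⊕ C.V), (trio A B C).deg w (mk3 x y s) v = _
  rw [Fintype.sum_sum_type, Fintype.sum_sum_type]
  congr 1
  · exact Finset.sum_congr rfl fun v _ => deg_trio_a A B C w x y s v
  · congr 1
    · exact Finset.sum_congr rfl fun v _ => deg_trio_b A B C w x y s v
    · exact Finset.sum_congr rfl fun v _ => deg_trio_c A B C w x y s v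

theorem reg_pt (h : ℕ) : (pt h).Reg := by
  intro v
  unfold Net.deg Net.cut
  have h1 : ∀ d, ((pt h).att d = v) := fun d => rfl
  have h2 : (∑ e, if (((pt h).ends e).1 = v ↔ ((pt h).ends e).2 = v) then 0 else 1) = 0 :=
    Finset.sum_eq_zero fun e _ => Empty.elim e
  rw [h2]
  simp [h1]

theorem reg_trio (A B C : Net (Dg h)) (hA : A.Reg) (hB : B.Reg) (hC : C.Reg) :
    (trio A B C).Reg := by
  intro v
  rcases v with v | v | v
  · rw [mk3_one, deg_trio_a, ← mk3_one]
    exact hA v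
  · rw [mk3_one, deg_trio_b, ← mk3_one]
    exact hB v
  · rw [mk3_one, deg_trio_c, ← mk3_one]
    exact hC v

theorem Net.deg_relab (G : Net (Dg h)) (f : Dg h ≃ Dg h) (w : G.E → ℕ) (s : Dg h → ℕ) (v : G.V) :
    (G.relab f).deg w (fun d => s (f d)) v = G.deg w s v :=
  G.cut_relab f w s _

theorem reg_relab (G : Net (Dg h)) (f : Dg h ≃ Dg h) (hG : G.Reg) : (G.relab f).Reg := by
  intro v
  exact (G.deg_relab f (fun _ => 1) (fun _ => 1) v).trans (hG v)

/-- Exact colourings: every vertex has degree `2` in the colour `true`. -/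
def Net.Exc (G : Net (Dg h)) (b : ℕ) (c : G.E → Bool) (s : Dg h → Bool) : Prop :=
  G.Good 1 b c s ∧ ∀ v, G.deg (bw c) (bw s) v = 2

theorem good_trio {a b : ℕ} (A B C : Net (Dg h)) (c : (trio A B C).E → Bool)
    (x y : Fin h → Bool) (s : Bool) (hc : (trio A B C).Good a b c (mk3 x y s)) :
    A.Good a b (fun e => c (.inl (.inl e)))
      (mk3 x (fun i => c (.inr (.inl (.inl i)))) (c (.inr (.inr ())))) ∧
    B.Good a b (fun e => c (.inl (.inr (.inl e))))
      (mk3 (fun i => c (.inr (.inl (.inl i)))) (fun i => c (.inr (.inl (.inr i)))) s) ∧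
    C.Good a b (fun e => c (.inl (.inr (.inr e))))
      (mk3 (fun i => c (.inr (.inl (.inr i)))) y (c (.inr (.inr ())))) := by
  refine ⟨?_, ?_, ?_⟩
  · intro P hP
    obtain ⟨v, hv⟩ := hP
    obtain ⟨h1, h2⟩ := hc (Sum.elim P (Sum.elim (fun _ => False) (fun _ => False))) ⟨.inl v, hv⟩
    rw [bw_mk3, cut_trio_a] at h1
    rw [bw_not_mk3, cut_trio_a] at h2
    rw [bw_mk3, bw_not_mk3]
    exact ⟨h1, h2⟩
  · intro P hP
    obtain ⟨v, hv⟩ := hP
    obtain ⟨h1, h2⟩ := hc (Sum.elim (fun _ => False) (Sum.elim P (fun _ => False)))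
      ⟨.inr (.inl v), hv⟩
    rw [bw_mk3, cut_trio_b] at h1
    rw [bw_not_mk3, cut_trio_b] at h2
    rw [bw_mk3, bw_not_mk3]
    exact ⟨h1, h2⟩
  · intro P hP
    obtain ⟨v, hv⟩ := hP
    obtain ⟨h1, h2⟩ := hc (Sum.elim (fun _ => False) (Sum.elim (fun _ => False) P))
      ⟨.inr (.inr v), hv⟩
    rw [bw_mk3, cut_trio_c] at h1
    rw [bw_not_mk3, cut_trio_c] at h2
    rw [bw_mk3, bw_not_mk3]
    exact ⟨h1, h2⟩

theorem exc_trio {b : ℕ} (A B C : Net (Dg h)) (c : (trio A B C).E → Bool)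
    (x y : Fin h → Bool) (s : Bool) (hc : (trio A B C).Exc b c (mk3 x y s)) :
    A.Exc b (fun e => c (.inl (.inl e)))
      (mk3 x (fun i => c (.inr (.inl (.inl i)))) (c (.inr (.inr ())))) ∧
    B.Exc b (fun e => c (.inl (.inr (.inl e))))
      (mk3 (fun i => c (.inr (.inl (.inl i)))) (fun i => c (.inr (.inl (.inr i)))) s) ∧
    C.Exc b (fun e => c (.inl (.inr (.inr e))))
      (mk3 (fun i => c (.inr (.inl (.inr i)))) y (c (.inr (.inr ())))) := by
  obtain ⟨h1, h2⟩ := hc
  obtain ⟨k1, k2, k3⟩ := good_trio A B C c x y s h1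
  rw [bw_mk3] at h2
  refine ⟨⟨k1, ?_⟩, ⟨k2, ?_⟩, ⟨k3, ?_⟩⟩
  · intro v
    have := h2 (.inl v)
    rw [deg_trio_a] at this
    rw [bw_mk3]
    exact this
  · intro v
    have := h2 (.inr (.inl v))
    rw [deg_trio_b] at this
    rw [bw_mk3]
    exact this
  · intro v
    have := h2 (.inr (.inr v))
    rw [deg_trio_c] at this
    rw [bw_mk3]
    exact this

theorem sum_mk3 (x y : Fin h → ℕ) (s : ℕ) : ∑ d, mk3 x y s d = ∑ i, x i + ∑ i, y i + s := by
  rw [Fintype.sum_sum_type, Fintype.sum_sum_type]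
  simp [mk3]

/-- The number of dangling edges of colour `true` in an exact state is `2`. -/
theorem exc_total {b : ℕ} (hb : b + 1 = 2 * h) (G : Net (Dg h)) (c : G.E → Bool)
    (x y : Fin h → Bool) (s : Bool) (hc : G.Exc b c (mk3 x y s)) : nb x + nb y + bn s = 2 := by
  obtain ⟨h1, h2⟩ := hc
  have h3 := state_total (a := 1) (b := b) (by omega) G x y s ⟨c, h1⟩
  have h4 := G.sum_deg (bw c) (bw (mk3 x y s))
  rw [Finset.sum_congr rfl (fun v _ => h2 v), bw_mk3, sum_mk3] at h4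
  rw [Finset.sum_const, smul_eq_mul] at h4
  unfold nb at *
  omega

/-- Structure of the exact states of a composition. -/
theorem exc_trio_total {b : ℕ} (hb : b + 1 = 2 * h) (A B C : Net (Dg h))
    (c : (trio A B C).E → Bool) (x y : Fin h → Bool) (s : Bool)
    (hc : (trio A B C).Exc b c (mk3 x y s)) : nb x = 1 ∧ s = false := by
  obtain ⟨k2, k1, k3⟩ := exc_trio A B C c x y s hc
  have t0 := exc_total hb _ _ _ _ _ hc
  have t2 := exc_total hb _ _ _ _ _ k2
  have t1 := exc_total hb _ _ _ _ _ k1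
  have t3 := exc_total hb _ _ _ _ _ k3
  obtain ⟨h1, h2⟩ := hc.1 (Sum.elim (fun _ => True) (Sum.elim (fun _ => True) (fun _ => False)))
    ⟨.inl (A.att (.inr ())), trivial⟩
  obtain ⟨h3, h4⟩ := hc.1 (Sum.elim (fun _ => False) (Sum.elim (fun _ => True) (fun _ => True)))
    ⟨.inr (.inl (B.att (.inr ()))), trivial⟩
  rw [bw_mk3, cut_trio_ab] at h1
  rw [bw_not_mk3, cut_trio_ab] at h2
  rw [bw_mk3, cut_trio_bc] at h3
  rw [bw_not_mk3, cut_trio_bc] at h4
  have e1 := nb_not x
  have e2 := nb_not (fun i => c (.inr (.inl (.inr i))))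
  have e3 := bn_not s
  have e4 := bn_not (c (.inr (.inr ())))
  have e5 := nb_not y
  have e6 := nb_not (fun i => c (.inr (.inl (.inl i))))
  unfold nb at *
  have f1 : bw c (.inr (.inr ())) = bn (c (.inr (.inr ()))) := rfl
  have f2 : bw (fun e => !c e) (.inr (.inr ())) = bn (!c (.inr (.inr ()))) := rfl
  have f3 : ∀ i, bw c (.inr (.inl (.inr i))) = bw (fun i => c (.inr (.inl (.inr i)))) i :=
    fun i => rfl
  have f4 : ∀ i, bw (fun e => !c e) (.inr (.inl (.inr i))) =
    bw (fun i => !c (.inr (.inl (.inr i)))) i := fun i => rfl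
  have f5 : ∀ i, bw c (.inr (.inl (.inl i))) = bw (fun i => c (.inr (.inl (.inl i)))) i :=
    fun i => rfl
  have f6 : ∀ i, bw (fun e => !c e) (.inr (.inl (.inl i))) =
    bw (fun i => !c (.inr (.inl (.inl i)))) i := fun i => rfl
  simp only [f1, f3] at h1
  simp only [f2, f4] at h2
  simp only [f1, f5] at h3
  simp only [f2, f6] at h4
  have g1 : bn s = 0 := by omega
  have g2 : s = false := by
    cases s
    · rfl
    · simp [bn] at g1
  exact ⟨by omega, g2⟩

theorem exc_relab {b : ℕ} (G : Net (Dg h)) (f : Dg h ≃ Dg h) (c : G.E → Bool) (s : Dg h → Bool)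
    (hs : (G.relab f).Exc b c s) : G.Exc b c (fun d => s (f.symm d)) := by
  obtain ⟨h1, h2⟩ := hs
  have e1 : (bw s) = fun d => bw (fun d => s (f.symm d)) (f d) := by
    funext d
    simp [bw]
  have e2 : (bw fun d => !s d) = fun d => bw (fun d => !s (f.symm d)) (f d) := by
    funext d
    simp [bw]
  constructor
  · intro X hX
    obtain ⟨h3, h4⟩ := h1 X hX
    rw [e1] at h3
    rw [e2] at h4
    exact ⟨le_of_le_of_eq h3 (G.cut_relab f _ _ X), le_of_le_of_eq h4 (G.cut_relab f _ _ X)⟩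
  · intro v
    have h3 := h2 v
    rw [e1] at h3
    exact (G.deg_relab f _ _ v).symm.trans h3

theorem exists_zero {b : ℕ} (hh : 1 ≤ h) (hb : b + 1 = 2 * h) :
    ∀ z, z ≤ h → ∃ G : Net (Dg h), G.Conn ∧ G.Reg ∧
      ∀ c s, G.Exc b c s → ∀ i : Fin h, i.val < z → s (.inl (.inl i)) = false := by
  intro z
  induction z with
  | zero => exact fun _ => ⟨pt h, conn_pt h, reg_pt h, fun _ _ _ i hi => by omega⟩
  | succ z ih =>
    intro hz
    obtain ⟨G, hC, hR, hG⟩ := ih (by omega)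
    obtain ⟨j, hj⟩ : ∃ j : Fin h, j.val = z := ⟨⟨z, by omega⟩, rfl⟩
    obtain ⟨f, hf⟩ : ∃ f : Dg h ≃ Dg h, f = Equiv.swap (.inr ()) (.inl (.inl j)) := ⟨_, rfl⟩
    refine ⟨(trio G (pt h) (pt h)).relab f,
      Net.conn_relab _ _ (conn_trio hh _ _ _ hC (conn_pt h) (conn_pt h)),
      reg_relab _ _ (reg_trio _ _ _ hR (reg_pt h) (reg_pt h)), ?_⟩
    intro c s hs i hi
    have h1 := exc_relab (trio G (pt h) (pt h)) f c s hs
    rw [← mk3_eta (fun d => s (f.symm d))] at h1
    obtain ⟨_, h2⟩ := exc_trio_total hb _ _ _ _ _ _ _ h1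
    obtain ⟨h3, _, _⟩ := exc_trio _ _ _ _ _ _ _ h1
    by_cases hij : i = j
    · rw [hf] at h2
      simp only [Equiv.symm_swap, Equiv.swap_apply_left] at h2
      rw [hij]
      exact h2
    · have h4 := hG _ _ h3 i (by
        have : i.val ≠ j.val := fun h5 => hij (Fin.ext h5)
        omega)
      rw [hf] at h4
      simp only [mk3, Sum.elim_inl, Equiv.symm_swap] at h4
      rw [Equiv.swap_apply_of_ne_of_ne (by simp) (by simpa using hij)] at h4
      exact h4

theorem exists_noexc {b : ℕ} (hh : 1 ≤ h) (hb : b + 1 = 2 * h) :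
    ∃ G : Net (Dg h), G.Conn ∧ G.Reg ∧ ∀ c s, ¬ G.Exc b c s := by
  obtain ⟨G, hC, hR, hG⟩ := exists_zero hh hb h le_rfl
  refine ⟨trio G (pt h) (pt h), conn_trio hh _ _ _ hC (conn_pt h) (conn_pt h),
    reg_trio _ _ _ hR (reg_pt h) (reg_pt h), ?_⟩
  intro c s hs
  rw [← mk3_eta s] at hs
  obtain ⟨h1, _⟩ := exc_trio_total hb _ _ _ _ _ _ _ hs
  obtain ⟨h3, _, _⟩ := exc_trio _ _ _ _ _ _ _ hs
  have h4 : ∀ i : Fin h, s (.inl (.inl i)) = false := by
    intro i
    exact hG _ _ h3 i i.isLt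
  unfold nb at h1
  have h5 : ∑ i, bw (fun i => s (.inl (.inl i))) i = 0 := by
    apply Finset.sum_eq_zero
    intro i _
    simp [bw, h4 i]
  omega

/-- In every good colouring the colour `true` falls short of `2` per vertex by at least `i`. -/
def Net.Short (G : Net (Dg h)) (b i : ℕ) : Prop :=
  ∀ c s, G.Good 1 b c s → (∑ v, G.deg (bw c) (bw s) v) + i ≤ 2 * Fintype.card G.V

theorem short_trio {b i j k : ℕ} (A B C : Net (Dg h)) (hA : A.Short b i) (hB : B.Short b j)
    (hC : C.Short b k) : (trio A B C).Short b (i + (j + k)) := by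
  intro c s hG
  rw [← mk3_eta s] at hG ⊢
  obtain ⟨h1, h2, h3⟩ := good_trio A B C c _ _ _ hG
  have e1 := hA _ _ h1
  have e2 := hB _ _ h2
  have e3 := hC _ _ h3
  have e4 : Fintype.card (trio A B C).V =
      Fintype.card A.V + (Fintype.card B.V + Fintype.card C.V) := by
    show Fintype.card (A.V ⊕ (B.V ⊕ C.V)) = _
    rw [Fintype.card_sum, Fintype.card_sum]
  rw [bw_mk3] at e1 e2 e3 ⊢
  rw [sum_deg_trio, e4]
  have f1 : (∑ v, A.deg (fun e => bw c (.inl (.inl e)))
        (mk3 (bw fun i => s (.inl (.inl i))) (fun i => bw c (.inr (.inl (.inl i))))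
          (bw c (.inr (.inr ())))) v) =
      ∑ v, A.deg (bw fun e => c (.inl (.inl e)))
        (mk3 (bw fun i => s (.inl (.inl i))) (bw fun i => c (.inr (.inl (.inl i))))
          (bn (c (.inr (.inr ()))))) v := rfl
  have f2 : (∑ v, B.deg (fun e => bw c (.inl (.inr (.inl e))))
        (mk3 (fun i => bw c (.inr (.inl (.inl i)))) (fun i => bw c (.inr (.inl (.inr i))))
          (bn (s (.inr ())))) v) =
      ∑ v, B.deg (bw fun e => c (.inl (.inr (.inl e))))
        (mk3 (bw fun i => c (.inr (.inl (.inl i)))) (bw fun i => c (.inr (.inl (.inr i))))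
          (bn (s (.inr ())))) v := rfl
  have f3 : (∑ v, C.deg (fun e => bw c (.inl (.inr (.inr e))))
        (mk3 (fun i => bw c (.inr (.inl (.inr i)))) (bw fun i => s (.inl (.inr i)))
          (bw c (.inr (.inr ())))) v) =
      ∑ v, C.deg (bw fun e => c (.inl (.inr (.inr e))))
        (mk3 (bw fun i => c (.inr (.inl (.inr i)))) (bw fun i => s (.inl (.inr i)))
          (bn (c (.inr (.inr ()))))) v := rfl
  rw [f1, f2, f3]
  omega

theorem short_of_noexc {b : ℕ} (hb : b + 1 = 2 * h) (G : Net (Dg h)) (hR : G.Reg)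
    (hno : ∀ c s, ¬ G.Exc b c s) : G.Short b 1 := by
  intro c s hG
  have h1 : ¬ ∀ v, G.deg (bw c) (bw s) v = 2 := fun h2 => hno c s ⟨hG, h2⟩
  push Not at h1
  obtain ⟨v0, hv0⟩ := h1
  have hle : ∀ v, G.deg (bw c) (bw s) v ≤ 2 := by
    intro v
    have h2 : b ≤ G.deg (bw fun e => !c e) (bw fun d => !s d) v := (hG (fun u => u = v) ⟨v, rfl⟩).2
    have e := G.deg_add c s v
    rw [hR v, card_dg] at e
    omega
  have : ∑ v, G.deg (bw c) (bw s) v < ∑ v : G.V, 2 :=
    Finset.sum_lt_sum (fun v _ => hle v) ⟨v0, Finset.mem_univ _, lt_of_le_of_ne (hle v0) hv0⟩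
  rw [Finset.sum_const, smul_eq_mul, Finset.card_univ] at this
  omega

/-- A gadget with `2h+1` dangling edges without state for the pair `(1, 2h-1)`. -/
theorem exists_dead_one_odd {b : ℕ} (hh : 1 ≤ h) (hb : b + 1 = 2 * h) :
    ∃ G : Net (Dg h), G.Conn ∧ ∀ s, ¬ G.State 1 b s := by
  obtain ⟨G, hC, hR, hno⟩ := exists_noexc hh hb
  have hs := short_of_noexc hb G hR hno
  have hs3 : (trio G G G).Short b (1 + (1 + 1)) := short_trio _ _ _ hs hs hs
  refine ⟨trio G G G, conn_trio hh _ _ _ hC hC hC, ?_⟩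
  intro s hst
  obtain ⟨c, hc⟩ := hst
  have h1 := hs3 c s hc
  have h2 := (trio G G G).tree_bound c s (fun X hX => (hc X hX).1)
  have h3 := (trio G G G).sum_deg (bw c) (bw s)
  rw [← mk3_eta s] at hc h1 h2 h3
  have h4 := state_total (a := 1) (b := b) (by omega) _ _ _ _ ⟨c, hc⟩
  rw [bw_mk3] at h1 h2 h3
  rw [sum_mk3] at h2 h3
  unfold nb at h4
  omega

end Pool.Agent.Helper243Arrow
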