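import Pool.Agent.Helper243_Arrow.EvenFirst
import Pool.Agent.Helper243_Arrow.ExactTrio
import Pool.Agent.Helper243_Arrow.CloseNet

/-!
Lower bounds for odd connectivity.
-/

set_option autoImplicit false

namespace Pool.Agent.Helper243Arrow

open Classical

variable {r : ℕ}

theorem odd_split (ks : Fin r → ℕ) (I : Finset (Fin r)) (p q : ℕ) (hp : 1 ≤ p) (hq : 1 ≤ q)
    (h1 : 2 * p ≤ ∑ i ∈ I, ks i) (h2 : 2 * q ≤ ∑ i ∈ Iᶜ, ks i) :
    ¬ Arrow (2 * (p + q) + 1) ks := by
  obtain ⟨G, hC, hdead⟩ := exists_dead_odd hp hq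
  have h3 := no_arrow_of_dead_net G hC hdead ks I h1 h2
  rw [card_dg] at h3
  exact h3

theorem one_split (ks : Fin r → ℕ) (I : Finset (Fin r)) (h : ℕ) (hh : 1 ≤ h)
    (h1 : 1 ≤ ∑ i ∈ I, ks i) (h2 : 2 * h - 1 ≤ ∑ i ∈ Iᶜ, ks i) :
    ¬ Arrow (2 * h + 1) ks := by
  obtain ⟨G, hC, hdead⟩ := exists_dead_one_odd (h := h) (b := 2 * h - 1) hh (by omega)
  have h3 := no_arrow_of_dead_net G hC hdead ks I h1 h2
  rw [card_dg] at h3
  exact h3

/-- `Σ + 1` is not enough for even `Σ` if some class can be split off with an even sum. -/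
theorem even_bound (ks : Fin r → ℕ) (hpos : ∀ i, 1 ≤ ks i) (I : Finset (Fin r)) (hI : I.Nonempty)
    (hI' : Iᶜ.Nonempty) (he : Even (∑ i ∈ I, ks i)) (he' : Even (∑ i ∈ Iᶜ, ks i)) :
    ¬ Arrow (∑ i, ks i + 1) ks := by
  obtain ⟨i, hi⟩ := hI
  obtain ⟨j, hj⟩ := hI'
  have k1 : 1 ≤ ∑ i ∈ I, ks i :=
    le_trans (hpos i) (Finset.single_le_sum (f := ks) (fun _ _ => Nat.zero_le _) hi)
  have k2 : 1 ≤ ∑ i ∈ Iᶜ, ks i :=
    le_trans (hpos j) (Finset.single_le_sum (f := ks) (fun _ _ => Nat.zero_le _) hj)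
  obtain ⟨p, hp⟩ := he
  obtain ⟨q, hq⟩ := he'
  have h3 := odd_split ks I p q (by omega) (by omega) (by omega) (by omega)
  have h4 : ∑ i, ks i + 1 = 2 * (p + q) + 1 := by
    rw [← Finset.sum_add_sum_compl I]
    omega
  rw [h4]
  exact h3

/-- `Σ + 1` is not enough for even `Σ`, except possibly for two odd parts which are at least `3`. -/
theorem even_bound_all (ks : Fin r → ℕ) (hr : 2 ≤ r) (hpos : ∀ i, 1 ≤ ks i)
    (heven : Even (∑ i, ks i)) (hexc : ¬ (r = 2 ∧ ∀ i, Odd (ks i) ∧ 3 ≤ ks i)) :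
    ¬ Arrow (∑ i, ks i + 1) ks := by
  have hsplit : ∀ I : Finset (Fin r), ∑ i ∈ I, ks i + ∑ i ∈ Iᶜ, ks i = ∑ i, ks i :=
    fun I => Finset.sum_add_sum_compl I ks
  by_cases hall : ∀ i, Odd (ks i)
  · rcases Nat.lt_or_ge r 3 with h3 | h3
    · have hr2 : r = 2 := by omega
      have hex : ∃ i, ks i < 3 := by
        by_contra hcon
        push Not at hcon
        exact hexc ⟨hr2, fun i => ⟨hall i, hcon i⟩⟩
      obtain ⟨i, hi⟩ := hex
      have hi1 : ks i = 1 := by
        obtain ⟨t, ht⟩ := hall i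
        omega
      obtain ⟨m, hm⟩ := heven
      have h1 := hsplit {i}
      rw [Finset.sum_singleton, hi1] at h1
      have h2 : 1 ≤ ∑ j ∈ ({i} : Finset (Fin r))ᶜ, ks j := by
        have hne : (({i} : Finset (Fin r))ᶜ).Nonempty := by
          rw [← Finset.card_pos, Finset.card_compl, Finset.card_singleton, Fintype.card_fin]
          omega
        obtain ⟨j, hj⟩ := hne
        exact le_trans (hpos j) (Finset.single_le_sum (f := ks) (fun _ _ => Nat.zero_le _) hj)
      have h4 := one_split ks {i} m (by omega) (by rw [Finset.sum_singleton, hi1]) (by omega)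
      have h5 : ∑ i, ks i + 1 = 2 * m + 1 := by omega
      rw [h5]
      exact h4
    · set i0 : Fin r := ⟨0, by omega⟩ with hi0
      set i1 : Fin r := ⟨1, by omega⟩ with hi1
      set i2 : Fin r := ⟨2, by omega⟩ with hi2
      have h01 : i0 ≠ i1 := by
        intro hh
        have := congrArg Fin.val hh
        simp [hi0, hi1] at this
      have hpair : ∑ i ∈ ({i0, i1} : Finset (Fin r)), ks i = ks i0 + ks i1 :=
        Finset.sum_pair h01
      have h1 := hsplit {i0, i1}
      refine even_bound ks hpos {i0, i1} ⟨i0, by simp⟩ ⟨i2, by simp [hi0, hi1, hi2]⟩ ?_ ?_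
      · rw [hpair]
        exact (hall i0).add_odd (hall i1)
      · obtain ⟨m, hm⟩ := heven
        obtain ⟨t, ht⟩ := (hall i0).add_odd (hall i1)
        rw [hpair] at h1
        exact ⟨m - t, by omega⟩
  · push Not at hall
    obtain ⟨i, hi⟩ := hall
    rw [Nat.not_odd_iff_even] at hi
    have h1 := hsplit {i}
    have hne : (({i} : Finset (Fin r))ᶜ).Nonempty := by
      rw [← Finset.card_pos, Finset.card_compl, Finset.card_singleton, Fintype.card_fin]
      omega
    refine even_bound ks hpos {i} ⟨i, by simp⟩ hne ?_ ?_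
    · rw [Finset.sum_singleton]
      exact hi
    · rw [Finset.sum_singleton] at h1
      obtain ⟨m, hm⟩ := heven
      obtain ⟨t, ht⟩ := hi
      exact ⟨m - t, by omega⟩

end Pool.Agent.Helper243Arrow
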