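import Pool.Agent.Helper243_Arrow.Tri

/-!
States of compositions, and the bookkeeping of roles of dangling edges.
-/

set_option autoImplicit false

namespace Pool.Agent.Helper243Arrow

open Classical

variable {h : ℕ}

/-- `0/1` value of a Boolean. -/
def bn (s : Bool) : ℕ := if s then 1 else 0

theorem bn_le (s : Bool) : bn s ≤ 1 := by
  cases s <;> simp [bn]

theorem bn_not (s : Bool) : bn s + bn (!s) = 1 := by
  cases s <;> simp [bn]

/-- Number of `true` values. -/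
def nb (f : Fin h → Bool) : ℕ := ∑ i, bw f i

theorem nb_not (f : Fin h → Bool) : nb f + nb (fun i => !f i) = h := by
  unfold nb
  rw [← Finset.sum_add_distrib]
  have : ∀ i, bw f i + bw (fun i => !f i) i = 1 := by
    intro i
    unfold bw
    cases hf : f i <;> simp [hf]
  simp [this]

theorem bw_mk3 (x y : Fin h → Bool) (s : Bool) : bw (mk3 x y s) = mk3 (bw x) (bw y) (bn s) := by
  funext d
  rcases d with (i | i) | i <;> rfl

theorem bw_not_mk3 (x y : Fin h → Bool) (s : Bool) : (bw fun d => !(mk3 x y s d)) =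
    mk3 (bw fun i => !x i) (bw fun i => !y i) (bn (!s)) := by
  funext d
  rcases d with (i | i) | i <;> rfl

theorem state_total {a b : ℕ} (hab : a + b = 2 * h) (G : Net (Dg h)) (x y : Fin h → Bool) (s : Bool)
    (hs : G.State a b (mk3 x y s)) :
    a ≤ nb x + nb y + bn s ∧ nb x + nb y + bn s ≤ a + 1 := by
  obtain ⟨c, hc⟩ := hs
  obtain ⟨h1, h2⟩ := hc (fun _ => True) ⟨G.att (.inr ()), trivial⟩
  rw [bw_mk3, Net.cut_dg] at h1
  rw [bw_not_mk3, Net.cut_dg] at h2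
  simp only [iff_self, if_true, Finset.sum_const_zero, zero_add] at h1 h2
  have e1 := nb_not x
  have e2 := nb_not y
  have e3 := bn_not s
  unfold nb at *
  omega

theorem trio_state {a b : ℕ} (hab : a + b = 2 * h) (A B C : Net (Dg h)) (x y : Fin h → Bool)
    (s : Bool) (hs : (trio A B C).State a b (mk3 x y s)) :
    ∃ (u v : Fin h → Bool) (t : Bool), A.State a b (mk3 x u t) ∧ B.State a b (mk3 u v s) ∧
      C.State a b (mk3 v y t) ∧
      (a ≤ nb x + nb v + bn t + bn s ∧ nb x + nb v + bn t + bn s ≤ a + 2) ∧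
      (a ≤ nb u + nb y + bn t + bn s ∧ nb u + nb y + bn t + bn s ≤ a + 2) := by
  obtain ⟨c, hc⟩ := hs
  refine ⟨fun i => c (.inr (.inl (.inl i))), fun i => c (.inr (.inl (.inr i))),
    c (.inr (.inr ())), ⟨fun e => c (.inl (.inl e)), ?_⟩, ⟨fun e => c (.inl (.inr (.inl e))), ?_⟩,
    ⟨fun e => c (.inl (.inr (.inr e))), ?_⟩, ?_, ?_⟩
  · intro P hP
    obtain ⟨v, hv⟩ := hP
    obtain ⟨h1, h2⟩ := hc (Sum.elim P (Sum.elim (fun _ => False) (fun _ => False))) ⟨.inl v, hv⟩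
    rw [bw_mk3, cut_trio_a] at h1
    rw [bw_not_mk3, cut_trio_a] at h2
    rw [bw_mk3, bw_not_mk3]
    exact ⟨h1, h2⟩
  · intro P hP
    obtain ⟨v, hv⟩ := hP
    obtain ⟨h1, h2⟩ := hc (Sum.elim (fun _ => False) (Sum.elim P (fun _ => False)))
      ⟨.inr (.inl v), hv⟩
    rw [bw_mk3, cut_trio_b] at h1
    rw [bw_not_mk3, cut_trio_b] at h2
    rw [bw_mk3, bw_not_mk3]
    exact ⟨h1, h2⟩
  · intro P hP
    obtain ⟨v, hv⟩ := hP
    obtain ⟨h1, h2⟩ := hc (Sum.elim (fun _ => False) (Sum.elim (fun _ => False) P))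
      ⟨.inr (.inr v), hv⟩
    rw [bw_mk3, cut_trio_c] at h1
    rw [bw_not_mk3, cut_trio_c] at h2
    rw [bw_mk3, bw_not_mk3]
    exact ⟨h1, h2⟩
  · obtain ⟨h1, h2⟩ := hc (Sum.elim (fun _ => True) (Sum.elim (fun _ => True) (fun _ => False)))
      ⟨.inl (A.att (.inr ())), trivial⟩
    rw [bw_mk3, cut_trio_ab] at h1
    rw [bw_not_mk3, cut_trio_ab] at h2
    have e1 := nb_not x
    have e2 := nb_not (fun i => c (.inr (.inl (.inr i))))
    have e3 := bn_not s
    have e4 := bn_not (c (.inr (.inr ())))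
    unfold nb at *
    have f1 : bw c (.inr (.inr ())) = bn (c (.inr (.inr ()))) := rfl
    have f2 : bw (fun e => !c e) (.inr (.inr ())) = bn (!c (.inr (.inr ()))) := rfl
    have f3 : ∀ i, bw c (.inr (.inl (.inr i))) = bw (fun i => c (.inr (.inl (.inr i)))) i :=
      fun i => rfl
    have f4 : ∀ i, bw (fun e => !c e) (.inr (.inl (.inr i))) =
      bw (fun i => !c (.inr (.inl (.inr i)))) i := fun i => rfl
    simp only [f1, f3] at h1
    simp only [f2, f4] at h2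
    omega
  · obtain ⟨h1, h2⟩ := hc (Sum.elim (fun _ => False) (Sum.elim (fun _ => True) (fun _ => True)))
      ⟨.inr (.inl (B.att (.inr ()))), trivial⟩
    rw [bw_mk3, cut_trio_bc] at h1
    rw [bw_not_mk3, cut_trio_bc] at h2
    have e1 := nb_not y
    have e2 := nb_not (fun i => c (.inr (.inl (.inl i))))
    have e3 := bn_not s
    have e4 := bn_not (c (.inr (.inr ())))
    unfold nb at *
    have f1 : bw c (.inr (.inr ())) = bn (c (.inr (.inr ()))) := rfl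
    have f2 : bw (fun e => !c e) (.inr (.inr ())) = bn (!c (.inr (.inr ()))) := rfl
    have f3 : ∀ i, bw c (.inr (.inl (.inl i))) = bw (fun i => c (.inr (.inl (.inl i)))) i :=
      fun i => rfl
    have f4 : ∀ i, bw (fun e => !c e) (.inr (.inl (.inl i))) =
      bw (fun i => !c (.inr (.inl (.inl i)))) i := fun i => rfl
    simp only [f1, f3] at h1
    simp only [f2, f4] at h2
    omega

/-- Weight of the role `j` when the dangling edges have the roles `ρ` and the weights `w`. -/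
def rc (ρ : Dg h → Fin 6) (w : Dg h → ℕ) (j : Fin 6) : ℕ := ∑ d, if ρ d = j then w d else 0

/-- For every arrangement of roles with the prescribed sizes there is a gadget all states of which
satisfy `info`. -/
def Has (h a b : ℕ) (size : Fin 6 → ℕ) (info : (Fin 6 → ℕ) → Prop) : Prop :=
  ∀ ρ : Dg h → Fin 6, (∀ j, rc ρ (fun _ => 1) j = size j) →
    ∃ G : Net (Dg h), G.Conn ∧ ∀ σ : Dg h → Bool, G.State a b σ → info (rc ρ (bw σ))

theorem has_pt (h a b : ℕ) (size : Fin 6 → ℕ) : Has h a b size (fun _ => True) :=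
  fun _ _ => ⟨pt h, conn_pt h, fun _ _ => trivial⟩

theorem has_of_one {a b : ℕ} {size : Fin 6 → ℕ} {info : (Fin 6 → ℕ) → Prop} (ρ0 : Dg h → Fin 6)
    (h0 : ∀ j, rc ρ0 (fun _ => 1) j = size j) (G : Net (Dg h)) (hG : G.Conn)
    (hi : ∀ σ : Dg h → Bool, G.State a b σ → info (rc ρ0 (bw σ))) : Has h a b size info := by
  intro ρ hρ
  have hcard : ∀ j, Nonempty ({d // ρ d = j} ≃ {d // ρ0 d = j}) := by
    intro j
    apply Fintype.card_eq.mp
    rw [Fintype.card_subtype, Fintype.card_subtype, Finset.card_filter, Finset.card_filter]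
    exact (hρ j).trans (h0 j).symm
  set e : Dg h ≃ Dg h := Equiv.ofFiberEquiv (fun j => (hcard j).some) with he
  have hem : ∀ d, ρ0 (e d) = ρ d := fun d => Equiv.ofFiberEquiv_map _ d
  refine ⟨G.relab e, G.conn_relab e hG, ?_⟩
  intro σ hσ
  have h1 := hi _ (G.state_relab e a b σ hσ)
  have h2 : rc ρ0 (bw fun d => σ (e.symm d)) = rc ρ (bw σ) := by
    funext j
    unfold rc
    rw [← Equiv.sum_comp e]
    apply Finset.sum_congr rfl
    intro d _
    rw [hem]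
    simp [bw]
  rw [h2] at h1
  exact h1

/-- Sum of `w` over the cell `c`. -/
def ce (cl : Fin h → Fin 4) (w : Fin h → ℕ) (c : Fin 4) : ℕ := ∑ i, if cl i = c then w i else 0

theorem sum_ce (cl : Fin h → Fin 4) (w : Fin h → ℕ) :
    ∑ i, w i = ce cl w 0 + ce cl w 1 + ce cl w 2 + ce cl w 3 := by
  rw [← Fin.sum_univ_four]
  unfold ce
  rw [Finset.sum_comm]
  apply Finset.sum_congr rfl
  intro i _
  simp

theorem sum_role (cl : Fin h → Fin 4) (r : Fin 4 → Fin 6) (w : Fin h → ℕ) (j : Fin 6) :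
    (∑ i, if r (cl i) = j then w i else 0) = ∑ c, if r c = j then ce cl w c else 0 := by
  have h1 : ∀ c, (if r c = j then ce cl w c else 0) =
      ∑ i, if cl i = c then (if r c = j then w i else 0) else 0 := by
    intro c
    unfold ce
    split_ifs with h1
    · apply Finset.sum_congr rfl
      intro i _
      simp
    · simp
  simp only [h1]
  rw [Finset.sum_comm]
  apply Finset.sum_congr rfl
  intro i _
  simp

theorem ce_le (cl : Fin h → Fin 4) (x : Fin h → Bool) (c : Fin 4) :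
    ce cl (bw x) c ≤ ce cl (fun _ => 1) c := by
  unfold ce
  apply Finset.sum_le_sum
  intro i _
  by_cases h1 : cl i = c
  · rw [if_pos h1, if_pos h1]
    unfold bw
    split_ifs
    · exact le_refl _
    · exact Nat.zero_le _
  · rw [if_neg h1, if_neg h1]

/-- An arrangement of roles on cells. -/
structure Arr where
  l : Fin 4 → Fin 6
  r : Fin 4 → Fin 6
  s : Fin 6

/-- Weights of roles for an arrangement. -/
def Arr.ac (A : Arr) (x y : Fin 4 → ℕ) (s : ℕ) : Fin 6 → ℕ := fun j =>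
  (∑ c, if A.l c = j then x c else 0) + (∑ c, if A.r c = j then y c else 0) +
    if A.s = j then s else 0

/-- The roles given by an arrangement. -/
def Arr.rho (A : Arr) (cl : Fin h → Fin 4) : Dg h → Fin 6 :=
  mk3 (fun i => A.l (cl i)) (fun i => A.r (cl i)) A.s

theorem rc_rho (A : Arr) (cl : Fin h → Fin 4) (x y : Fin h → ℕ) (s : ℕ) :
    rc (A.rho cl) (mk3 x y s) = A.ac (ce cl x) (ce cl y) s := by
  funext j
  unfold rc Arr.rho Arr.ac
  rw [Fintype.sum_sum_type, Fintype.sum_sum_type]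
  simp only [mk3, Sum.elim_inl, Sum.elim_inr, Finset.univ_unique, Finset.sum_singleton]
  rw [sum_role cl A.l x, sum_role cl A.r y]

/-- Composition of three gadgets, at the level of roles. -/
theorem step {a b : ℕ} (hh : 1 ≤ h) (hab : a + b = 2 * h) (cl : Fin h → Fin 4) (cz : Fin 4 → ℕ)
    (hcz : ce cl (fun _ => 1) = cz) {z2 z1 z3 z : Fin 6 → ℕ} {i2 i1 i3 i : (Fin 6 → ℕ) → Prop}
    (H2 : Has h a b z2 i2) (H1 : Has h a b z1 i1) (H3 : Has h a b z3 i3) (A2 A1 A3 A : Arr)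
    (e2 : A2.ac cz cz 1 = z2) (e1 : A1.ac cz cz 1 = z1) (e3 : A3.ac cz cz 1 = z3)
    (e : A.ac cz cz 1 = z)
    (key : ∀ (x u v y : Fin 4 → ℕ) (s t : ℕ), (∀ c, x c ≤ cz c) → (∀ c, u c ≤ cz c) →
      (∀ c, v c ≤ cz c) → (∀ c, y c ≤ cz c) → s ≤ 1 → t ≤ 1 →
      (a ≤ (x 0 + x 1 + x 2 + x 3) + (u 0 + u 1 + u 2 + u 3) + t ∧
        (x 0 + x 1 + x 2 + x 3) + (u 0 + u 1 + u 2 + u 3) + t ≤ a + 1) →
      (a ≤ (u 0 + u 1 + u 2 + u 3) + (v 0 + v 1 + v 2 + v 3) + s ∧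
        (u 0 + u 1 + u 2 + u 3) + (v 0 + v 1 + v 2 + v 3) + s ≤ a + 1) →
      (a ≤ (v 0 + v 1 + v 2 + v 3) + (y 0 + y 1 + y 2 + y 3) + t ∧
        (v 0 + v 1 + v 2 + v 3) + (y 0 + y 1 + y 2 + y 3) + t ≤ a + 1) →
      (a ≤ (x 0 + x 1 + x 2 + x 3) + (y 0 + y 1 + y 2 + y 3) + s ∧
        (x 0 + x 1 + x 2 + x 3) + (y 0 + y 1 + y 2 + y 3) + s ≤ a + 1) →
      (a ≤ (x 0 + x 1 + x 2 + x 3) + (v 0 + v 1 + v 2 + v 3) + t + s ∧
        (x 0 + x 1 + x 2 + x 3) + (v 0 + v 1 + v 2 + v 3) + t + s ≤ a + 2) →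
      (a ≤ (u 0 + u 1 + u 2 + u 3) + (y 0 + y 1 + y 2 + y 3) + t + s ∧
        (u 0 + u 1 + u 2 + u 3) + (y 0 + y 1 + y 2 + y 3) + t + s ≤ a + 2) →
      i2 (A2.ac x u t) → i1 (A1.ac u v s) → i3 (A3.ac v y t) → i (A.ac x y s)) :
    Has h a b z i := by
  have hone : (fun _ : Dg h => 1) = mk3 (fun _ : Fin h => 1) (fun _ : Fin h => 1) 1 := by
    funext d
    rcases d with (i | i) | i <;> rfl
  obtain ⟨G2, c2, s2⟩ := H2 (A2.rho cl) (by rw [hone, rc_rho, hcz, e2]; exact fun _ => rfl)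
  obtain ⟨G1, c1, s1⟩ := H1 (A1.rho cl) (by rw [hone, rc_rho, hcz, e1]; exact fun _ => rfl)
  obtain ⟨G3, c3, s3⟩ := H3 (A3.rho cl) (by rw [hone, rc_rho, hcz, e3]; exact fun _ => rfl)
  refine has_of_one (A.rho cl) (by rw [hone, rc_rho, hcz, e]; exact fun _ => rfl)
    (trio G2 G1 G3) (conn_trio hh _ _ _ c2 c1 c3) ?_
  intro σ hσ
  rw [← mk3_eta σ] at hσ ⊢
  obtain ⟨x, hx⟩ : ∃ x : Fin h → Bool, x = fun i => σ (.inl (.inl i)) := ⟨_, rfl⟩
  obtain ⟨y, hy⟩ : ∃ x : Fin h → Bool, x = fun i => σ (.inl (.inr i)) := ⟨_, rfl⟩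
  obtain ⟨s, hs⟩ : ∃ s : Bool, s = σ (.inr ()) := ⟨_, rfl⟩
  rw [← hx, ← hy, ← hs] at hσ ⊢
  obtain ⟨u, v, t, k2, k1, k3, n1, n2⟩ := trio_state hab _ _ _ x y s hσ
  have j2 := s2 _ k2
  have j1 := s1 _ k1
  have j3 := s3 _ k3
  rw [bw_mk3, rc_rho] at j2 j1 j3 ⊢
  have t0 := state_total hab _ x y s hσ
  have t2 := state_total hab _ _ _ _ k2
  have t1 := state_total hab _ _ _ _ k1
  have t3 := state_total hab _ _ _ _ k3
  unfold nb at t0 t1 t2 t3 n1 n2
  rw [sum_ce cl (bw x), sum_ce cl (bw y)] at t0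
  rw [sum_ce cl (bw x), sum_ce cl (bw u)] at t2
  rw [sum_ce cl (bw u), sum_ce cl (bw v)] at t1
  rw [sum_ce cl (bw v), sum_ce cl (bw y)] at t3
  rw [sum_ce cl (bw x), sum_ce cl (bw v)] at n1
  rw [sum_ce cl (bw u), sum_ce cl (bw y)] at n2
  exact key (ce cl (bw x)) (ce cl (bw u)) (ce cl (bw v)) (ce cl (bw y)) (bn s) (bn t)
    (fun c => hcz ▸ ce_le cl x c) (fun c => hcz ▸ ce_le cl u c) (fun c => hcz ▸ ce_le cl v c)
    (fun c => hcz ▸ ce_le cl y c) (bn_le s) (bn_le t) t2 t1 t3 t0 n1 n2 j2 j1 j3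

theorem exists_cl (cz : Fin 4 → ℕ) (hsum : cz 0 + cz 1 + cz 2 + cz 3 = h) :
    ∃ cl : Fin h → Fin 4, ce cl (fun _ => 1) = cz := by
  have hc : Fintype.card (Fin h) = Fintype.card (Σ c : Fin 4, Fin (cz c)) := by
    simp [Fin.sum_univ_four, hsum]
  obtain ⟨e⟩ := Fintype.card_eq.mp hc
  refine ⟨fun i => (e i).1, ?_⟩
  funext c
  unfold ce
  rw [Equiv.sum_comp e (fun s : (Σ c : Fin 4, Fin (cz c)) => if s.1 = c then 1 else 0)]
  rw [Fintype.sum_sigma]
  have h1 : ∀ c' : Fin 4, (∑ _y : Fin (cz c'), if c' = c then 1 else 0) =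
      if c' = c then cz c' else 0 := by
    intro c'
    by_cases h2 : c' = c
    · simp [h2]
    · simp [h2]
  have h2 : ∀ c' : Fin 4, (∑ y : Fin (cz c'), if (⟨c', y⟩ : Σ c : Fin 4, Fin (cz c)).1 = c then 1
      else 0) = if c' = c then cz c' else 0 := h1
  rw [Finset.sum_congr rfl (fun c' _ => h2 c')]
  simp

end Pool.Agent.Helper243Arrow
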