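import Mathlib

/-!
A nondeterministic automaton on subsets, and words killing all its tokens.
-/

set_option autoImplicit false

namespace Pool.Agent.Helper243Arrow

open Classical

/-- Tokens: a subset with one of three marks. -/
inductive Tok (h : ℕ) : Type
  | e (S : Finset (Fin h))
  | l (S : Finset (Fin h))
  | r (S : Finset (Fin h))

variable {h : ℕ}

/-- One step of the automaton, reading the letter `b`. -/
def Step (b : Fin h) : Tok h → Tok h → Prop
  | .e S, .e S' => b ∉ S ∧ S' = S
  | .e S, .l S' => b ∉ S ∧ S' = S
  | .l S, .e S' => S' = S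
  | .l S, .r S' => b ∉ S ∧ S' = insert b S
  | .r S, .r S' => b ∉ S ∧ S' = S
  | .r S, .e S' => b ∈ S ∧ S' = S.erase b
  | _, _ => False

/-- Reading a word. -/
def Run : List (Fin h) → Tok h → Tok h → Prop
  | [], t, t' => t = t'
  | b :: w, t, t' => ∃ s, Step b t s ∧ Run w s t'

theorem run_append (w w' : List (Fin h)) (t t' : Tok h) :
    Run (w ++ w') t t' ↔ ∃ s, Run w t s ∧ Run w' s t' := by
  induction w generalizing t with
  | nil => simp [Run]
  | cons b w ih =>
    simp only [List.cons_append, Run, ih]
    constructor
    · rintro ⟨s, hs, u, hu, hu'⟩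
      exact ⟨u, ⟨s, hs, hu⟩, hu'⟩
    · rintro ⟨u, ⟨s, hs, hu⟩, hu'⟩
      exact ⟨s, hs, u, hu, hu'⟩

/-- The subset of a token. -/
def Tok.supp : Tok h → Finset (Fin h)
  | .e S => S
  | .l S => S
  | .r S => S

/-- Number of zeros in `L`, corrected for the mark. -/
noncomputable def zeta (L : Finset (Fin h)) : Tok h → ℕ
  | .e S => (L \ S).card
  | .l S => (L \ S).card
  | .r S => (L \ S).card + 1

theorem zeta_step (L : Finset (Fin h)) (b : Fin h) (hb : b ∈ L) (t s : Tok h) (hs : Step b t s) :
    zeta L s = zeta L t := by
  have key : ∀ S : Finset (Fin h), b ∉ S → (L \ insert b S).card + 1 = (L \ S).card := by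
    intro S hS
    have h1 : L \ insert b S = (L \ S).erase b := by
      ext x
      simp only [Finset.mem_sdiff, Finset.mem_insert, Finset.mem_erase]
      tauto
    rw [h1]
    exact Finset.card_erase_add_one (by simp [hb, hS])
  cases t with
  | e S =>
    cases s with
    | e S' => obtain ⟨_, rfl⟩ := hs; rfl
    | l S' => obtain ⟨_, rfl⟩ := hs; rfl
    | r S' => exact hs.elim
  | l S =>
    cases s with
    | e S' => have : S' = S := hs; subst this; rfl
    | l S' => exact hs.elim
    | r S' =>
      obtain ⟨h1, rfl⟩ := hs
      exact key S h1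
  | r S =>
    cases s with
    | e S' =>
      obtain ⟨h1, rfl⟩ := hs
      have := key (S.erase b) (by simp)
      rw [Finset.insert_erase h1] at this
      exact this.symm
    | l S' => exact hs.elim
    | r S' => obtain ⟨_, rfl⟩ := hs; rfl

theorem mem_step (c b : Fin h) (hc : c ≠ b) (t s : Tok h) (hs : Step b t s) :
    c ∈ s.supp ↔ c ∈ t.supp := by
  cases t with
  | e S =>
    cases s with
    | e S' => obtain ⟨_, rfl⟩ := hs; exact Iff.rfl
    | l S' => obtain ⟨_, rfl⟩ := hs; exact Iff.rfl
    | r S' => exact hs.elim
  | l S =>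
    cases s with
    | e S' => have : S' = S := hs; subst this; exact Iff.rfl
    | l S' => exact hs.elim
    | r S' =>
      obtain ⟨h1, rfl⟩ := hs
      simp [Tok.supp, hc]
  | r S =>
    cases s with
    | e S' =>
      obtain ⟨h1, rfl⟩ := hs
      simp [Tok.supp, hc]
    | l S' => exact hs.elim
    | r S' => obtain ⟨_, rfl⟩ := hs; exact Iff.rfl

theorem zeta_run (L : Finset (Fin h)) (w : List (Fin h)) (hw : ∀ b ∈ w, b ∈ L) (t s : Tok h)
    (hs : Run w t s) : zeta L s = zeta L t := by
  induction w generalizing t with
  | nil => have : t = s := hs; rw [this]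
  | cons b w ih =>
    obtain ⟨u, hu, hus⟩ := hs
    rw [ih (fun b hb => hw b (List.mem_cons_of_mem _ hb)) u hus]
    exact zeta_step L b (hw b List.mem_cons_self) t u hu

theorem mem_run (c : Fin h) (w : List (Fin h)) (hw : c ∉ w) (t s : Tok h)
    (hs : Run w t s) : c ∈ s.supp ↔ c ∈ t.supp := by
  induction w generalizing t with
  | nil => have : t = s := hs; rw [this]
  | cons b w ih =>
    obtain ⟨u, hu, hus⟩ := hs
    rw [ih (fun hb => hw (List.mem_cons_of_mem _ hb)) u hus]
    exact mem_step c b (fun hcb => hw (by rw [hcb]; exact List.mem_cons_self)) t u hu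

theorem zeta_erase (L : Finset (Fin h)) (c : Fin h) (hc : c ∈ L) (t : Tok h) :
    zeta L t = zeta (L.erase c) t + (if c ∈ t.supp then 0 else 1) := by
  have key : ∀ S : Finset (Fin h),
      (L \ S).card = (L.erase c \ S).card + (if c ∈ S then 0 else 1) := by
    intro S
    have h1 : L.erase c \ S = (L \ S).erase c := by
      ext x
      simp only [Finset.mem_sdiff, Finset.mem_erase]
      tauto
    rw [h1]
    by_cases hcS : c ∈ S
    · simp only [hcS, if_true, add_zero]
      rw [Finset.erase_eq_of_notMem (by simp [hcS])]
    · simp only [hcS, if_false]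
      exact (Finset.card_erase_add_one (by simp [hc, hcS])).symm
  cases t with
  | e S => exact key S
  | l S => exact key S
  | r S =>
    show (L \ S).card + 1 = (L.erase c \ S).card + 1 + (if c ∈ S then 0 else 1)
    rw [key S]
    ring

/-- Reading a letter of the subset twice either kills a token or removes the letter. -/
theorem run_twice (c : Fin h) (t s : Tok h) (ht : c ∈ t.supp) (hs : Run [c, c] t s) :
    c ∉ s.supp := by
  obtain ⟨u, hu, v, hv, hvs⟩ := hs
  have hvs' : v = s := hvs
  subst hvs'
  cases t with
  | e S =>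
    cases u with
    | e S' => exact absurd ht hu.1
    | l S' => exact absurd ht hu.1
    | r S' => exact hu.elim
  | l S =>
    cases u with
    | e S' =>
      have h1 : S' = S := hu
      subst h1
      cases v with
      | e S'' => exact absurd ht hv.1
      | l S'' => exact absurd ht hv.1
      | r S'' => exact hv.elim
    | l S' => exact hu.elim
    | r S' => exact absurd ht hu.1
  | r S =>
    cases u with
    | e S' =>
      obtain ⟨_, rfl⟩ := hu
      cases v with
      | e S'' => obtain ⟨_, rfl⟩ := hv; simp [Tok.supp]
      | l S'' => obtain ⟨_, rfl⟩ := hv; simp [Tok.supp]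
      | r S'' => exact hv.elim
    | l S' => exact hu.elim
    | r S' => exact absurd ht hu.1

theorem exists_kill (m : ℕ) : ∀ L : Finset (Fin h), L.card = m + 1 →
    ∃ w : List (Fin h), (∀ b ∈ w, b ∈ L) ∧ ∀ t t', zeta L t ≤ m → ¬ Run w t t' := by
  induction m with
  | zero =>
    intro L hL
    obtain ⟨c, rfl⟩ := Finset.card_eq_one.mp hL
    refine ⟨[c, c], by simp, ?_⟩
    intro t t' ht hrun
    have hz := zeta_run {c} [c, c] (by simp) t t' hrun
    have e1 := zeta_erase {c} c (by simp) t
    have e2 := zeta_erase {c} c (by simp) t'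
    have hct : c ∈ t.supp := by
      by_contra hc
      simp only [hc, if_false] at e1
      omega
    have := run_twice c t t' hct hrun
    simp only [this, if_false] at e2
    omega
  | succ m ih =>
    intro L hL
    have hne : L.Nonempty := by
      rw [← Finset.card_pos]
      omega
    obtain ⟨c, hc⟩ := hne
    have hL' : (L.erase c).card = m + 1 := by
      rw [Finset.card_erase_of_mem hc]
      omega
    obtain ⟨w, hw, hkill⟩ := ih (L.erase c) hL'
    have hcw : c ∉ w := fun h1 => by simpa using hw c h1
    have hwL : ∀ b ∈ w, b ∈ L := fun b hb => Finset.mem_of_mem_erase (hw b hb)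
    refine ⟨w ++ ([c, c] ++ w), ?_, ?_⟩
    · intro b hb
      simp only [List.mem_append, List.mem_cons, List.not_mem_nil, or_false] at hb
      rcases hb with hb | (hb | hb) | hb
      · exact hwL b hb
      · rw [hb]; exact hc
      · rw [hb]; exact hc
      · exact hwL b hb
    · intro t t' ht hrun
      rw [run_append] at hrun
      obtain ⟨s1, h1, h2⟩ := hrun
      rw [run_append] at h2
      obtain ⟨s2, h2, h3⟩ := h2
      have e1 := zeta_erase L c hc t
      by_cases hct : c ∈ t.supp
      · have hc1 : c ∈ s1.supp := (mem_run c w hcw t s1 h1).mpr hct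
        have hc2 : c ∉ s2.supp := run_twice c s1 s2 hc1 h2
        have z1 := zeta_run L w hwL t s1 h1
        have z2 := zeta_run L [c, c] (by simp [hc]) s1 s2 h2
        have e2 := zeta_erase L c hc s2
        simp only [hc2, if_false] at e2
        exact hkill s2 t' (by omega) h3
      · simp only [hct, if_false] at e1
        exact hkill t s1 (by omega) h1

end Pool.Agent.Helper243Arrow
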