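import Pool.Agent.Helper243_Arrow.Rel
import Pool.Agent.Helper243_Arrow.Tok

/-!
A gadget without any state, for `a = 2 p`, `a + b + 1 = 2 (n + 1)` and `p + 1 ≤ n`.
-/

set_option autoImplicit false

namespace Pool.Agent.Helper243Arrow

open Classical

variable {n : ℕ}

/-- All states are balanced up to one extra element. -/
def Aligned (p a b : ℕ) (G : Gad (n + 1)) : Prop :=
  ∀ x y, G.Rel a b x y → (x.card = p ∧ y.card = p) ∨ (x.card = p + 1 ∧ y.card = p) ∨
    (x.card = p ∧ y.card = p + 1)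

theorem rel_total {p a b : ℕ} (ha : a = 2 * p) (hb : b + 2 * p = 2 * n + 1) (G : Gad (n + 1))
    (x y : Finset (Fin (n + 1))) (hR : G.Rel a b x y) :
    2 * p ≤ x.card + y.card ∧ x.card + y.card ≤ 2 * p + 1 := by
  obtain ⟨c, hc⟩ := hR
  have := good_total G a b c x y hc (G.att (.inl 0))
  omega

theorem tri {p a b : ℕ} (ha : a = 2 * p) (hb : b + 2 * p = 2 * n + 1) (X Y : Gad (n + 1))
    (x y : Finset (Fin (n + 1))) (hR : (comp X Y).Rel a b x y) :
    ∃ z, X.Rel a b x z ∧ Y.Rel a b z y ∧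
      ((x.card = p ∧ z.card = p ∧ y.card = p) ∨ (x.card = p + 1 ∧ z.card = p ∧ y.card = p) ∨
        (x.card = p ∧ z.card = p + 1 ∧ y.card = p) ∨
        (x.card = p ∧ z.card = p ∧ y.card = p + 1)) := by
  have h0 := rel_total ha hb _ x y hR
  obtain ⟨z, h1, h2⟩ := rel_comp X Y a b x y hR
  have h3 := rel_total ha hb _ x z h1
  have h4 := rel_total ha hb _ z y h2
  exact ⟨z, h1, h2, by omega⟩

theorem aligned_comp {p a b : ℕ} (ha : a = 2 * p) (hb : b + 2 * p = 2 * n + 1)
    (X Y : Gad (n + 1)) : Aligned p a b (comp X Y) := by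
  intro x y hR
  obtain ⟨z, _, _, h3⟩ := tri ha hb X Y x y hR
  omega

/-- Two joined vertices with one exchange: transmits one bit. -/
def A2 (n : ℕ) : Gad (n + 1) := (comp (vert (n + 1)) (vert (n + 1))).swap 0 0

theorem conn_A2 (n : ℕ) : (A2 n).Conn :=
  conn_swap _ _ _ (conn_comp _ _ (conn_vert _) (conn_vert _))

theorem A2_bit {p a b : ℕ} (ha : a = 2 * p) (hb : b + 2 * p = 2 * n + 1)
    (x z : Finset (Fin (n + 1))) (hR : (A2 n).Rel a b x z) (hx : x.card = p) (hz : z.card = p) :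
    (0 ∈ x ↔ 0 ∈ z) := by
  have h1 := rel_swap _ _ _ _ _ _ _ hR
  have h2 := aligned_comp ha hb _ _ _ _ h1
  have c1 := card_sw1 0 0 x z
  have c2 := card_sw2 0 0 x z
  by_cases u1 : 0 ∈ x <;> by_cases u2 : 0 ∈ z <;> simp only [u1, u2, if_true, if_false] at c1 c2 ⊢
    <;> omega

theorem card_ge {m : ℕ} (hm : m ≤ n + 1) (y : Finset (Fin (n + 1)))
    (hy : ∀ i : Fin (n + 1), i.val < m → i ∈ y) : m ≤ y.card := by
  have h1 : (Finset.univ : Finset (Fin m)).map (Fin.castLEEmb hm) ⊆ y := by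
    intro i hi
    simp only [Finset.mem_map, Finset.mem_univ, true_and] at hi
    obtain ⟨j, rfl⟩ := hi
    exact hy _ (by simp)
  have := Finset.card_le_card h1
  simpa using this

/-- Analysis of a state of an exchanged gadget whose left set has size `p` and contains `0`. -/
theorem swap_state {p a b : ℕ} (G : Gad (n + 1)) (hG : Aligned p a b G) (j : Fin (n + 1))
    (z y : Finset (Fin (n + 1))) (hR : (G.swap 0 j).Rel a b z y) (hz : z.card = p)
    (h0 : 0 ∈ z) :
    j ∈ y ∧ G.Rel a b (sw1 0 j z y) (sw2 0 j z y) ∧ (sw1 0 j z y).card = p ∧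
      (sw2 0 j z y).card = y.card ∧ 0 ∈ sw1 0 j z y := by
  have h1 := rel_swap _ _ _ _ _ _ _ hR
  have h2 := hG _ _ h1
  have c1 := card_sw1 0 j z y
  have c2 := card_sw2 0 j z y
  have hpos : 0 < z.card := Finset.card_pos.mpr ⟨0, h0⟩
  by_cases u : j ∈ y
  · simp only [u, h0, if_true] at c1 c2
    exact ⟨u, h1, by omega, by omega, (mem_sw1 0 j z y).mpr u⟩
  · simp only [u, h0, if_true, if_false] at c1 c2
    omega

theorem phaseA {p a b : ℕ} (ha : a = 2 * p) (hb : b + 2 * p = 2 * n + 1) (hn : p + 1 ≤ n) :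
    ∀ k, k ≤ p + 1 → ∃ G : Gad (n + 1), G.Conn ∧ Aligned p a b G ∧
      ∀ x y, G.Rel a b x y → x.card = p → y.card = p + 1 → 0 ∈ x →
        ∀ i : Fin (n + 1), 1 ≤ i.val → i.val ≤ k → i ∈ y := by
  intro k
  induction k with
  | zero =>
    intro _
    exact ⟨comp (vert _) (vert _), conn_comp _ _ (conn_vert _) (conn_vert _),
      aligned_comp ha hb _ _, fun x y _ _ _ _ i h1 h2 => by omega⟩
  | succ k ih =>
    intro hk
    obtain ⟨G, hC, hA, hP⟩ := ih (by omega)
    set j : Fin (n + 1) := ⟨k + 1, by omega⟩ with hj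
    refine ⟨comp (A2 n) (G.swap 0 j), conn_comp _ _ (conn_A2 n) (conn_swap _ _ _ hC),
      aligned_comp ha hb _ _, ?_⟩
    intro x y hR hx hy h0 i hi1 hi2
    obtain ⟨z, hX, hY, hs⟩ := tri ha hb _ _ x y hR
    have hz : z.card = p := by omega
    have h0z : 0 ∈ z := (A2_bit ha hb x z hX hx hz).mp h0
    obtain ⟨hjy, hG, s1, s2, h0'⟩ := swap_state G hA j z y hY hz h0z
    by_cases hij : i = j
    · rw [hij]; exact hjy
    · have hik : i.val ≤ k := by
        have : i.val ≠ k + 1 := fun h1 => hij (Fin.ext h1)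
        omega
      have := hP _ _ hG s1 (by omega) h0' i hi1 hik
      exact (mem_sw2_ne 0 j i z y hij).mp this

/-- A gadget transmitting one bit, whose left bit is `0` when the right side is exceptional. -/
def Wire (p a b : ℕ) (N : Gad (n + 1)) : Prop :=
  (∀ x z, N.Rel a b x z → x.card = p → z.card = p → (0 ∈ x ↔ 0 ∈ z)) ∧
  (∀ x z, N.Rel a b x z → x.card = p → z.card = p + 1 → 0 ∉ x)

theorem exists_wire {p a b : ℕ} (ha : a = 2 * p) (hb : b + 2 * p = 2 * n + 1) (hn : p + 1 ≤ n) :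
    ∃ N : Gad (n + 1), N.Conn ∧ Wire p a b N := by
  obtain ⟨G, hC, hA, hP⟩ := phaseA ha hb hn (p + 1) le_rfl
  refine ⟨G.swap 0 0, conn_swap _ _ _ hC, ?_, ?_⟩
  · intro x z hR hx hz
    have h1 := rel_swap _ _ _ _ _ _ _ hR
    have h2 := hA _ _ h1
    have c1 := card_sw1 0 0 x z
    have c2 := card_sw2 0 0 x z
    by_cases u1 : 0 ∈ x <;> by_cases u2 : 0 ∈ z <;>
      simp only [u1, u2, if_true, if_false] at c1 c2 ⊢ <;> omega
  · intro x z hR hx hz h0
    obtain ⟨hjy, hG, s1, s2, h0'⟩ := swap_state G hA 0 x z hR hx h0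
    have h3 := hP _ _ hG s1 (by omega) h0'
    have h4 : p + 2 ≤ z.card := by
      apply card_ge (by omega)
      intro i hi
      by_cases hi0 : i = 0
      · rw [hi0]; exact hjy
      · have h5 : i.val ≠ 0 := fun h6 => hi0 (Fin.ext h6)
        exact (mem_sw2_ne 0 0 i x z hi0).mp (h3 i (by omega) (by omega))
    omega

theorem phaseB {p a b : ℕ} (ha : a = 2 * p) (hb : b + 2 * p = 2 * n + 1)
    (N : Gad (n + 1)) (hNC : N.Conn) (hN : Wire p a b N) :
    ∀ k, k ≤ n + 1 → ∃ G : Gad (n + 1), G.Conn ∧ Aligned p a b G ∧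
      ∀ x y, G.Rel a b x y → x.card = p → 0 ∈ x →
        ∀ i : Fin (n + 1), i.val < k → i ∈ y := by
  intro k
  induction k with
  | zero =>
    intro _
    exact ⟨comp (vert _) (vert _), conn_comp _ _ (conn_vert _) (conn_vert _),
      aligned_comp ha hb _ _, fun x y _ _ _ i h1 => by omega⟩
  | succ k ih =>
    intro hk
    obtain ⟨G, hC, hA, hP⟩ := ih (by omega)
    set j : Fin (n + 1) := ⟨k, by omega⟩ with hj
    refine ⟨comp N (G.swap 0 j), conn_comp _ _ hNC (conn_swap _ _ _ hC),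
      aligned_comp ha hb _ _, ?_⟩
    intro x y hR hx h0 i hi
    obtain ⟨z, hX, hY, hs⟩ := tri ha hb _ _ x y hR
    have hz : z.card = p := by
      rcases hs with hs | hs | hs | hs
      · exact hs.2.1
      · exact hs.2.1
      · exact absurd h0 (hN.2 x z hX hx hs.2.1)
      · exact hs.2.1
    have h0z : 0 ∈ z := (hN.1 x z hX hx hz).mp h0
    obtain ⟨hjy, hG, s1, s2, h0'⟩ := swap_state G hA j z y hY hz h0z
    by_cases hij : i = j
    · rw [hij]; exact hjy
    · have hik : i.val < k := by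
        have : i.val ≠ k := fun h1 => hij (Fin.ext h1)
        omega
      have := hP _ _ hG s1 h0' i hik
      exact (mem_sw2_ne 0 j i z y hij).mp this

/-- All states carry left bit `0` (unless the left side is exceptional) and a token in `F`. -/
def TSat (p a b : ℕ) (G : Gad (n + 1)) (F : Tok (n + 1) → Prop) : Prop :=
  ∀ x y, G.Rel a b x y →
    (x.card = p → y.card = p → 0 ∉ x ∧ F (.e y)) ∧
    (x.card = p → y.card = p + 1 → 0 ∉ x ∧ F (.r y)) ∧
    (x.card = p + 1 → y.card = p → F (.l y))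

theorem sw2_eq_erase {j : Fin (n + 1)} {z y : Finset (Fin (n + 1))} (h0 : 0 ∉ z) :
    sw2 0 j z y = y.erase j := by
  unfold sw2
  simp [h0]

theorem sw2_eq_insert {j : Fin (n + 1)} {z y : Finset (Fin (n + 1))} (h0 : 0 ∈ z) :
    sw2 0 j z y = insert j y := by
  unfold sw2
  simp [h0]

theorem step_sat {p a b : ℕ} (ha : a = 2 * p) (hb : b + 2 * p = 2 * n + 1)
    (N : Gad (n + 1)) (hN : Wire p a b N) (G : Gad (n + 1)) (hA : Aligned p a b G)
    (F : Tok (n + 1) → Prop) (hF : TSat p a b G F) (j : Fin (n + 1)) :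
    TSat p a b (comp N (G.swap 0 j)) (fun t' => ∃ t, F t ∧ Step j t t') := by
  intro x y hR
  obtain ⟨z, hX, hY, hs⟩ := tri ha hb _ _ x y hR
  have h1 := rel_swap _ _ _ _ _ _ _ hY
  have h2 := hA _ _ h1
  have h3 := hF _ _ h1
  have c1 := card_sw1 0 j z y
  have c2 := card_sw2 0 j z y
  have m1 := mem_sw1 0 j z y
  have m2 := mem_sw2 0 j z y
  -- facts about y in the four cases of the two bits
  have y1 : j ∈ y → 0 ∈ z → sw2 0 j z y = y := fun u v => by
    rw [sw2_eq_insert v, Finset.insert_eq_of_mem u]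
  have y2 : j ∉ y → 0 ∉ z → sw2 0 j z y = y := fun u v => by
    rw [sw2_eq_erase v, Finset.erase_eq_of_notMem u]
  have y3 : j ∉ y → 0 ∈ z → y = (sw2 0 j z y).erase j := fun u v => by
    rw [sw2_eq_insert v, Finset.erase_insert u]
  have y4 : j ∈ y → 0 ∉ z → y = insert j (sw2 0 j z y) := fun u v => by
    rw [sw2_eq_erase v, Finset.insert_erase u]
  have M : (z.card = p → y.card = p → 0 ∉ z ∧ j ∉ y ∧ F (.e y)) := by
    intro hz hy
    by_cases u1 : j ∈ y <;> by_cases u2 : 0 ∈ z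
    · simp only [u1, u2, if_true] at c1 c2
      exact absurd (m1.mpr u1) (h3.1 (by omega) (by omega)).1
    · simp only [u1, u2, if_true, if_false] at c1 c2
      omega
    · simp only [u1, u2, if_true, if_false] at c1 c2
      omega
    · simp only [u1, u2, if_false] at c1 c2
      have := (h3.1 (by omega) (by omega)).2
      rw [y2 u1 u2] at this
      exact ⟨u2, u1, this⟩
  refine ⟨?_, ?_, ?_⟩
  · intro hx hy
    have hzc : z.card = p ∨ z.card = p + 1 := by omega
    rcases hzc with hz | hz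
    · obtain ⟨w1, w2, w3⟩ := M hz hy
      exact ⟨fun h0 => w1 ((hN.1 x z hX hx hz).mp h0), .e y, w3, w2, rfl⟩
    · refine ⟨hN.2 x z hX hx hz, ?_⟩
      by_cases u1 : j ∈ y <;> by_cases u2 : 0 ∈ z
      · simp only [u1, u2, if_true] at c1 c2
        have := h3.2.2 (by omega) (by omega)
        rw [y1 u1 u2] at this
        exact ⟨.l y, this, rfl⟩
      · simp only [u1, u2, if_true, if_false] at c1 c2
        omega
      · simp only [u1, u2, if_true, if_false] at c1 c2
        have := (h3.2.1 (by omega) (by omega)).2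
        exact ⟨.r _, this, m2.mpr u2, y3 u1 u2⟩
      · simp only [u1, u2, if_false] at c1 c2
        have := h3.2.2 (by omega) (by omega)
        rw [y2 u1 u2] at this
        exact ⟨.l y, this, rfl⟩
  · intro hx hy
    have hz : z.card = p := by omega
    have hbit := hN.1 x z hX hx hz
    by_cases u1 : j ∈ y <;> by_cases u2 : 0 ∈ z
    · simp only [u1, u2, if_true] at c1 c2
      exact absurd (m1.mpr u1) (h3.2.1 (by omega) (by omega)).1
    · simp only [u1, u2, if_true, if_false] at c1 c2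
      have := h3.2.2 (by omega) (by omega)
      exact ⟨fun h0 => u2 (hbit.mp h0), .l _, this, fun h5 => u2 (m2.mp h5), y4 u1 u2⟩
    · simp only [u1, u2, if_true, if_false] at c1 c2
      omega
    · simp only [u1, u2, if_false] at c1 c2
      have := (h3.2.1 (by omega) (by omega)).2
      rw [y2 u1 u2] at this
      exact ⟨fun h0 => u2 (hbit.mp h0), .r y, this, u1, rfl⟩
  · intro hx hy
    have hz : z.card = p := by omega
    obtain ⟨w1, w2, w3⟩ := M hz hy
    exact ⟨.e y, w3, w2, rfl⟩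

theorem run_sat {p a b : ℕ} (ha : a = 2 * p) (hb : b + 2 * p = 2 * n + 1)
    (N : Gad (n + 1)) (hNC : N.Conn) (hN : Wire p a b N) (w : List (Fin (n + 1))) :
    ∀ (G : Gad (n + 1)) (F : Tok (n + 1) → Prop), G.Conn → Aligned p a b G → TSat p a b G F →
      ∃ G' : Gad (n + 1), G'.Conn ∧ Aligned p a b G' ∧
        TSat p a b G' (fun t' => ∃ t, F t ∧ Run w t t') := by
  induction w with
  | nil =>
    intro G F hC hA hF
    refine ⟨G, hC, hA, ?_⟩
    intro x y hR
    have := hF x y hR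
    exact ⟨fun h1 h2 => ⟨(this.1 h1 h2).1, _, (this.1 h1 h2).2, rfl⟩,
      fun h1 h2 => ⟨(this.2.1 h1 h2).1, _, (this.2.1 h1 h2).2, rfl⟩,
      fun h1 h2 => ⟨_, this.2.2 h1 h2, rfl⟩⟩
  | cons b w ih =>
    intro G F hC hA hF
    obtain ⟨G', hC', hA', hF'⟩ := ih (comp N (G.swap 0 b)) _
      (conn_comp _ _ hNC (conn_swap _ _ _ hC)) (aligned_comp ha hb _ _)
      (step_sat ha hb N hN G hA F hF b)
    refine ⟨G', hC', hA', ?_⟩
    intro x y hR
    have := hF' x y hR
    have conv : ∀ t', (∃ t, (∃ t0, F t0 ∧ Step b t0 t) ∧ Run w t t') →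
        ∃ t, F t ∧ Run (b :: w) t t' := by
      rintro t' ⟨t, ⟨t0, h1, h2⟩, h3⟩
      exact ⟨t0, h1, t, h2, h3⟩
    exact ⟨fun h1 h2 => ⟨(this.1 h1 h2).1, conv _ (this.1 h1 h2).2⟩,
      fun h1 h2 => ⟨(this.2.1 h1 h2).1, conv _ (this.2.1 h1 h2).2⟩,
      fun h1 h2 => conv _ (this.2.2 h1 h2)⟩

/-- A gadget without states. -/
theorem exists_dead {p a b : ℕ} (hp : 1 ≤ p) (ha : a = 2 * p) (hb : b + 2 * p = 2 * n + 1)
    (hn : p + 1 ≤ n) : ∃ G : Gad (n + 1), G.Conn ∧ ∀ x y, ¬ G.Rel a b x y := by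
  obtain ⟨N, hNC, hN⟩ := exists_wire ha hb hn
  obtain ⟨G, hC, hA, hP⟩ := phaseB ha hb N hNC hN (p + 2) (by omega)
  set F : Tok (n + 1) → Prop := fun t => match t with
    | .e S => S.card = p
    | .l S => S.card = p
    | .r S => S.card = p + 1 with hFdef
  have hF : TSat p a b G F := by
    intro x y hR
    have hno : x.card = p → y.card ≤ p + 1 → 0 ∉ x := by
      intro hx hy h0
      have := card_ge (by omega : p + 2 ≤ n + 1) y (hP x y hR hx h0)
      omega
    exact ⟨fun h1 h2 => ⟨hno h1 (by omega), h2⟩, fun h1 h2 => ⟨hno h1 (by omega), h2⟩,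
      fun h1 h2 => h2⟩
  obtain ⟨L, hLsub, hL⟩ := Finset.exists_subset_card_eq
    (s := (Finset.univ : Finset (Fin (n + 1)))) (n := (n + 1 - p) + 1) (by simp; omega)
  obtain ⟨w, _, hkill⟩ := exists_kill (n + 1 - p) L hL
  obtain ⟨G', hC', hA', hF'⟩ := run_sat ha hb N hNC hN w G F hC hA hF
  have hcard : ∀ S : Finset (Fin (n + 1)), (L \ S).card + S.card ≤ n + 1 := by
    intro S
    have h1 : (L \ S).card + S.card = (L \ S ∪ S).card := by
      rw [Finset.card_union_of_disjoint]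
      exact Finset.sdiff_disjoint
    rw [h1]
    exact le_trans (Finset.card_le_univ _) (by simp)
  have hdead : ∀ t', ¬ ∃ t, F t ∧ Run w t t' := by
    rintro t' ⟨t, hFt, hrun⟩
    refine hkill t t' ?_ hrun
    cases t with
    | e S =>
      have h1 : S.card = p := hFt
      have := hcard S
      show (L \ S).card ≤ n + 1 - p
      omega
    | l S =>
      have h1 : S.card = p := hFt
      have := hcard S
      show (L \ S).card ≤ n + 1 - p
      omega
    | r S =>
      have h1 : S.card = p + 1 := hFt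
      have := hcard S
      show (L \ S).card + 1 ≤ n + 1 - p
      omega
  refine ⟨G', hC', ?_⟩
  intro x y hR
  have h1 := hF' x y hR
  rcases hA' x y hR with ⟨u, v⟩ | ⟨u, v⟩ | ⟨u, v⟩
  · exact hdead _ (h1.1 u v).2
  · exact hdead _ (h1.2.2 u v)
  · exact hdead _ (h1.2.1 u v).2

end Pool.Agent.Helper243Arrow
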