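import Mathlib

/-!
Edge-connectivity of spanning subgraphs of finite multigraphs, and the arrow relation.
-/

set_option autoImplicit false

namespace Pool.Agent.Helper243Arrow

/-- A multigraph has vertex type `V`, edge type `E`, and `ends e` is the pair of ends of the edge
`e`. For a set `A` of edges and `k ≥ 1`, `EC ends A k` says that the spanning subgraph `(V, A)` is
`k`-edge-connected: it stays connected after deleting any set `D` of fewer than `k` edges. -/
def EC {V E : Type} (ends : E → V × V) (A : Set E) (k : ℕ) : Prop :=
  ∀ D : Finset E, D.card < k →
    (SimpleGraph.fromRel fun u v => ∃ e ∈ A, e ∉ D ∧ ends e = (u, v)).Connected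

/-- `k ↦ (ks 0, …, ks (r-1))`: the edge set of every `k`-edge-connected finite multigraph can be
partitioned into `r` classes so that the `i`-th class is `ks i`-edge-connected (spanning). -/
def Arrow (k : ℕ) {r : ℕ} (ks : Fin r → ℕ) : Prop :=
  ∀ (V E : Type) [Finite V] [Finite E] (ends : E → V × V), EC ends Set.univ k →
    ∃ f : E → Fin r, ∀ i, EC ends {e | f e = i} (ks i)

end Pool.Agent.Helper243Arrow
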