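import Pool.Agent.Helper243_Arrow.Exact
import Pool.Agent.Helper243_Arrow.Defs

/-!
Closing a gadget with one extra vertex; edge-connectivity by deletion of edges; the arrow relation.
-/

set_option autoImplicit false

namespace Pool.Agent.Helper243Arrow

open Classical

/-- Number of edges of `A` with exactly one end in `X`. -/
noncomputable def ecut {V E : Type} [Fintype E] (ends : E → V × V) (A : Set E) (X : V → Prop) : ℕ :=
  (Finset.univ.filter fun e => e ∈ A ∧ ¬ (X (ends e).1 ↔ X (ends e).2)).card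

theorem ec_cut {V E : Type} [Fintype E] (ends : E → V × V) (A : Set E) (k : ℕ)
    (hE : EC ends A k) (X : V → Prop) (h1 : ∃ v, X v) (h2 : ∃ v, ¬ X v) : k ≤ ecut ends A X := by
  by_contra hlt
  push Not at hlt
  have hc := hE _ hlt
  obtain ⟨u, hu⟩ := h1
  obtain ⟨v, hv⟩ := h2
  have key : ∀ a b, (SimpleGraph.fromRel fun u v => ∃ e ∈ A,
      e ∉ (Finset.univ.filter fun e => e ∈ A ∧ ¬ (X (ends e).1 ↔ X (ends e).2)) ∧
        ends e = (u, v)).Adj a b → (X a ↔ X b) := by
    intro a b hab
    rw [SimpleGraph.fromRel_adj] at hab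
    obtain ⟨_, hab⟩ := hab
    rcases hab with ⟨e, heA, heD, he⟩ | ⟨e, heA, heD, he⟩
    · simp only [Finset.mem_filter, Finset.mem_univ, true_and, not_and, not_not] at heD
      have := heD heA
      rw [he] at this
      exact this
    · simp only [Finset.mem_filter, Finset.mem_univ, true_and, not_and, not_not] at heD
      have := heD heA
      rw [he] at this
      exact this.symm
  obtain ⟨w⟩ := hc.preconnected u v
  have hw : ∀ (a b : V) (p : (SimpleGraph.fromRel fun u v => ∃ e ∈ A,
      e ∉ (Finset.univ.filter fun e => e ∈ A ∧ ¬ (X (ends e).1 ↔ X (ends e).2)) ∧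
        ends e = (u, v)).Walk a b), (X a ↔ X b) := by
    intro a b p
    induction p with
    | nil => exact Iff.rfl
    | cons hadj _ ih => exact (key _ _ hadj).trans ih
  exact hv ((hw u v w).mp hu)

theorem cut_ec {V E : Type} [Fintype E] [Nonempty V] (ends : E → V × V) (A : Set E) (k : ℕ)
    (hcut : ∀ X : V → Prop, (∃ v, X v) → (∃ v, ¬ X v) → k ≤ ecut ends A X) : EC ends A k := by
  intro D hD
  refine ⟨?_⟩
  intro u v
  by_contra hnr
  set H := SimpleGraph.fromRel fun u v => ∃ e ∈ A, e ∉ D ∧ ends e = (u, v) with hH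
  have h1 := hcut (fun w => H.Reachable u w) ⟨u, SimpleGraph.Reachable.refl u⟩ ⟨v, hnr⟩
  have h2 : (Finset.univ.filter fun e => e ∈ A ∧
      ¬ (H.Reachable u (ends e).1 ↔ H.Reachable u (ends e).2)) ⊆ D := by
    intro e he
    simp only [Finset.mem_filter, Finset.mem_univ, true_and] at he
    obtain ⟨heA, hne⟩ := he
    by_contra heD
    apply hne
    by_cases heq : (ends e).1 = (ends e).2
    · rw [heq]
    · have hadj : H.Adj (ends e).1 (ends e).2 := by
        rw [hH, SimpleGraph.fromRel_adj]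
        exact ⟨heq, Or.inl ⟨e, heA, heD, rfl⟩⟩
      exact ⟨fun h3 => h3.trans hadj.reachable, fun h3 => h3.trans hadj.symm.reachable⟩
  have h3 := Finset.card_le_card h2
  have h4 : ecut ends A (fun w => H.Reachable u w) = (Finset.univ.filter fun e => e ∈ A ∧
      ¬ (H.Reachable u (ends e).1 ↔ H.Reachable u (ends e).2)).card := rfl
  omega

variable {h : ℕ}

/-- The edges of the graph closing a gadget. -/
def closeEnds (G : Gad h) : G.E ⊕ (Fin h ⊕ Fin h) → Option G.V × Option G.V
  | .inl e => (some (G.ends e).1, some (G.ends e).2)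
  | .inr d => (some (G.att d), none)

theorem ecut_compl {V E : Type} [Fintype E] (ends : E → V × V) (A : Set E) (X : V → Prop) :
    ecut ends A (fun v => ¬ X v) = ecut ends A X := by
  unfold ecut
  congr 1
  ext e
  simp only [Finset.mem_filter, Finset.mem_univ, true_and]
  tauto

theorem ecut_close (G : Gad h) (c : G.E ⊕ (Fin h ⊕ Fin h) → Bool) (X : Option G.V → Prop)
    (hX : ¬ X none) :
    ecut (closeEnds G) {e | c e = true} X =
      G.cut (bw fun e => c (.inl e)) (bw fun d => c (.inr d)) (fun v => X (some v)) := by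
  unfold ecut Gad.cut
  rw [Finset.card_filter, Fintype.sum_sum_type]
  congr 1
  · apply Finset.sum_congr rfl
    intro e _
    by_cases h1 : (X (some (G.ends e).1) ↔ X (some (G.ends e).2))
    · simp [closeEnds, h1]
    · cases h2 : c (.inl e) <;> simp [closeEnds, h1, h2, bw]
  · apply Finset.sum_congr rfl
    intro d _
    by_cases h1 : X (some (G.att d))
    · cases h2 : c (.inr d) <;> simp [closeEnds, hX, h1, h2, bw]
    · simp [closeEnds, hX, h1]

theorem ecut_close_univ (G : Gad h) (X : Option G.V → Prop) (hX : ¬ X none) :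
    ecut (closeEnds G) Set.univ X = G.cut (fun _ => 1) (fun _ => 1) (fun v => X (some v)) := by
  have h1 := ecut_close G (fun _ => true) X hX
  have h2 : {e : G.E ⊕ (Fin h ⊕ Fin h) | (true : Bool) = true} = Set.univ := by
    ext e
    simp
  rw [h2] at h1
  rw [h1]
  rfl

theorem ec_close (G : Gad h) (hG : G.Conn) : EC (closeEnds G) Set.univ (2 * h) := by
  apply cut_ec
  intro X h1 h2
  by_cases hX : X none
  · rw [← ecut_compl, ecut_close_univ G _ (by simpa using hX)]
    apply hG
    obtain ⟨v, hv⟩ := h2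
    cases v with
    | none => exact absurd hX hv
    | some v => exact ⟨v, hv⟩
  · rw [ecut_close_univ G _ hX]
    apply hG
    obtain ⟨v, hv⟩ := h1
    cases v with
    | none => exact absurd hv hX
    | some v => exact ⟨v, hv⟩

/-- Merging classes. -/
theorem ecut_merge {V E : Type} [Fintype E] (ends : E → V × V) {r : ℕ} (f : E → Fin r)
    (I : Finset (Fin r)) (X : V → Prop) :
    ecut ends {e | f e ∈ I} X = ∑ i ∈ I, ecut ends {e | f e = i} X := by
  unfold ecut
  rw [← Finset.card_biUnion]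
  · congr 1
    ext e
    simp only [Finset.mem_filter, Finset.mem_univ, true_and, Set.mem_ofPred_eq, Finset.mem_biUnion]
    constructor
    · rintro ⟨h1, h2⟩
      exact ⟨f e, h1, rfl, h2⟩
    · rintro ⟨i, hi, h1, h2⟩
      exact ⟨by rw [h1]; exact hi, h2⟩
  · intro i _ j _ hij
    rw [Function.onFun, Finset.disjoint_left]
    intro e he1 he2
    simp only [Finset.mem_filter, Finset.mem_univ, true_and, Set.mem_ofPred_eq] at he1 he2
    exact hij (he1.1.symm.trans he2.1)

theorem no_arrow_of_dead {a b : ℕ} (G : Gad h) (hC : G.Conn)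
    (hdead : ∀ x y, ¬ G.Rel a b x y) {r : ℕ} (ks : Fin r → ℕ) (I : Finset (Fin r))
    (hI : a ≤ ∑ i ∈ I, ks i) (hI' : b ≤ ∑ i ∈ Iᶜ, ks i) : ¬ Arrow (2 * h) ks := by
  intro hA
  obtain ⟨f, hf⟩ := hA (Option G.V) (G.E ⊕ (Fin h ⊕ Fin h)) (closeEnds G) (ec_close G hC)
  set c : G.E ⊕ (Fin h ⊕ Fin h) → Bool := fun e => decide (f e ∈ I) with hc
  have e1 : {e | c e = true} = {e | f e ∈ I} := by
    ext e
    simp [hc]
  have e2 : {e | (!c e) = true} = {e | f e ∈ Iᶜ} := by
    ext e
    simp [hc]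
  set x : Finset (Fin h) := Finset.univ.filter fun i => c (.inr (.inl i)) = true with hx
  set y : Finset (Fin h) := Finset.univ.filter fun i => c (.inr (.inr i)) = true with hy
  have hst : st x y = fun d => c (.inr d) := by
    funext d
    rcases d with i | i
    · cases hh : c (.inr (.inl i)) <;> simp [st, hx, hh]
    · cases hh : c (.inr (.inr i)) <;> simp [st, hy, hh]
  apply hdead x y
  refine ⟨fun e => c (.inl e), ?_⟩
  rw [hst]
  intro P hP
  obtain ⟨Z, hZ⟩ : ∃ Z : Option G.V → Prop, Z = fun v => ∃ u, v = some u ∧ P u := ⟨_, rfl⟩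
  have hX1 : ∃ v, Z v := by
    obtain ⟨v, hv⟩ := hP
    rw [hZ]
    exact ⟨some v, v, rfl, hv⟩
  have hX2 : ¬ Z none := by
    rw [hZ]
    rintro ⟨u, hu, _⟩
    exact absurd hu (by simp)
  have hPe : (fun v => Z (some v)) = P := by
    rw [hZ]
    funext v
    simp
  have k1 := ecut_close G c Z hX2
  have k2 := ecut_close G (fun e => !c e) Z hX2
  rw [e1, hPe, ecut_merge] at k1
  rw [e2, hPe, ecut_merge] at k2
  constructor
  · rw [← k1]
    exact le_trans hI (Finset.sum_le_sum fun i _ => ec_cut _ _ _ (hf i) _ hX1 ⟨none, hX2⟩)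
  · have k3 : G.cut (bw fun e => !c (.inl e)) (bw fun d => !c (.inr d)) P =
        ∑ i ∈ Iᶜ, ecut (closeEnds G) {e | f e = i} Z := k2.symm
    rw [k3]
    exact le_trans hI' (Finset.sum_le_sum fun i _ => ec_cut _ _ _ (hf i) _ hX1 ⟨none, hX2⟩)

/-- A gadget without states in all even cases. -/
theorem exists_dead_all {p q : ℕ} (hp : 1 ≤ p) (hq : 1 ≤ q) :
    ∃ G : Gad (p + q), G.Conn ∧ ∀ x y, ¬ G.Rel (2 * p) (2 * q - 1) x y := by
  rcases Nat.lt_or_ge q 2 with h1 | h1
  · have : q = 1 := by omega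
    subst this
    exact exists_dead_one hp
  · obtain ⟨n, hn⟩ : ∃ n, p + q = n + 1 := ⟨p + q - 1, by omega⟩
    rw [hn]
    exact exists_dead hp rfl (by omega) (by omega)

theorem arrow_mono {k k' : ℕ} (hk : k ≤ k') {r : ℕ} (ks : Fin r → ℕ) (hA : Arrow k ks) :
    Arrow k' ks := by
  intro V E _ _ ends hE
  exact hA V E ends fun D hD => hE D (by omega)

/-- Main lower bound. -/
theorem main_bound (r : ℕ) (ks : Fin r → ℕ) (hr : 2 ≤ r) (hpos : ∀ i, 1 ≤ ks i) (m : ℕ)
    (hm : 2 ≤ m) (hle : 2 * m ≤ ∑ i, ks i + 1) : ¬ Arrow (2 * m) ks := by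
  -- it suffices to find a set of classes that can be split as required
  have main : ∀ (I : Finset (Fin r)) (p q : ℕ), 1 ≤ p → 1 ≤ q → p + q = m →
      2 * p ≤ ∑ i ∈ I, ks i → 2 * q - 1 ≤ ∑ i ∈ Iᶜ, ks i → ¬ Arrow (2 * m) ks := by
    intro I p q hp hq hpq h1 h2
    obtain ⟨G, hC, hdead⟩ := exists_dead_all hp hq
    have := no_arrow_of_dead G hC hdead ks I h1 h2
    rw [hpq] at this
    exact this
  -- the first class against the rest
  set i0 : Fin r := ⟨0, by omega⟩ with hi0
  have hsum : ∑ i, ks i = ks i0 + ∑ i ∈ ({i0} : Finset (Fin r))ᶜ, ks i := by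
    rw [← Finset.sum_add_sum_compl {i0}, Finset.sum_singleton]
  have hrest : 1 ≤ ∑ i ∈ ({i0} : Finset (Fin r))ᶜ, ks i := by
    set i1 : Fin r := ⟨1, by omega⟩ with hi1
    have hmem : i1 ∈ ({i0} : Finset (Fin r))ᶜ := by
      simp [hi0, hi1]
    exact le_trans (hpos i1) (Finset.single_le_sum (f := ks) (fun _ _ => Nat.zero_le _) hmem)
  have hk0 := hpos i0
  set s := ∑ i ∈ ({i0} : Finset (Fin r))ᶜ, ks i with hs
  have hsc : ∑ i ∈ (({i0} : Finset (Fin r))ᶜ)ᶜ, ks i = ks i0 := by
    rw [compl_compl, Finset.sum_singleton]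
  have hs0 : ∑ i ∈ ({i0} : Finset (Fin r)), ks i = ks i0 := Finset.sum_singleton _ _
  by_cases hc1 : ks i0 = 1
  · exact main {i0}ᶜ (m - 1) 1 (by omega) (by omega) (by omega) (by omega) (by omega)
  · by_cases hpar : Even (ks i0) ∨ 2 * m ≤ ks i0 + s
    · by_cases hbig : m ≤ ks i0 / 2
      · exact main {i0} (m - 1) 1 (by omega) (by omega) (by omega) (by omega) (by omega)
      · refine main {i0} (ks i0 / 2) (m - ks i0 / 2) (by omega) (by omega) (by omega) (by omega) ?_
        rcases hpar with hpar | hpar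
        · obtain ⟨t, ht⟩ := hpar
          omega
        · omega
    · push Not at hpar
      obtain ⟨hodd, hlt⟩ := hpar
      rw [Nat.not_even_iff_odd] at hodd
      obtain ⟨t, ht⟩ := hodd
      exact main {i0}ᶜ (s / 2) (m - s / 2) (by omega) (by omega) (by omega) (by omega) (by omega)

end Pool.Agent.Helper243Arrow
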