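import Mathlib

/-!
The arithmetic used for the sequence of gadgets for `2p+2q+1` and the pair `(2p, 2q)`.
-/

set_option autoImplicit false

namespace Pool.Agent.Helper243Arrow

/-- The constraints on the totals in a composition of three gadgets. -/
structure Cst (p X U V Y s t : ℕ) : Prop where
  t2 : 2 * p ≤ X + U + t ∧ X + U + t ≤ 2 * p + 1
  t1 : 2 * p ≤ U + V + s ∧ U + V + s ≤ 2 * p + 1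
  t3 : 2 * p ≤ V + Y + t ∧ V + Y + t ≤ 2 * p + 1
  t0 : 2 * p ≤ X + Y + s ∧ X + Y + s ≤ 2 * p + 1
  n1 : 2 * p ≤ X + V + t + s ∧ X + V + t + s ≤ 2 * p + 2
  n2 : 2 * p ≤ U + Y + t + s ∧ U + Y + t + s ≤ 2 * p + 2
  hs : s ≤ 1
  ht : t ≤ 1

theorem Cst.core0 {p X U V Y s t : ℕ} (C : Cst p X U V Y s t) (hX : p ≤ X) (hU : p ≤ U)
    (hV : p ≤ V) (hY : Y + 1 ≤ p) : X = p ∧ U = p ∧ V = p ∧ Y + 1 = p ∧ s = 1 ∧ t = 1 := by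
  obtain ⟨⟨a1, a2⟩, ⟨b1, b2⟩, ⟨c1, c2⟩, ⟨d1, d2⟩, ⟨e1, e2⟩, ⟨f1, f2⟩, g1, g2⟩ := C
  omega

theorem Cst.core1 {p X U V Y s t : ℕ} (C : Cst p X U V Y s t) (hX : X ≤ p) (hU : U ≤ p)
    (hV : V ≤ p) (hY : p + 1 ≤ Y) : X = p ∧ U = p ∧ V = p ∧ Y = p + 1 ∧ s = 0 ∧ t = 0 := by
  obtain ⟨⟨a1, a2⟩, ⟨b1, b2⟩, ⟨c1, c2⟩, ⟨d1, d2⟩, ⟨e1, e2⟩, ⟨f1, f2⟩, g1, g2⟩ := C
  omega

theorem split3 {p q R a b c : ℕ} {α β : Prop} (hR : R + 2 ≤ p + q)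
    (g2 : (p ≤ a ∧ p ≤ b) ∨ (a + q ≤ R + 1 ∧ b + q ≤ R + 1))
    (g1 : (p ≤ b ∧ p ≤ c) ∨ (b + q ≤ R + 1 ∧ c + q ≤ R + 1))
    (g3 : (p ≤ c ∧ α) ∨ (c + q ≤ R + 1 ∧ β)) :
    (p ≤ a ∧ p ≤ b ∧ p ≤ c ∧ α) ∨ (a + q ≤ R + 1 ∧ b + q ≤ R + 1 ∧ c + q ≤ R + 1 ∧ β) := by
  rcases g2 with ⟨c1, c2⟩ | ⟨c1, c2⟩
  · rcases g1 with ⟨d1, d2⟩ | ⟨d1, d2⟩
    · rcases g3 with ⟨e1, e2⟩ | ⟨e1, e2⟩
      · exact Or.inl ⟨c1, c2, d2, e2⟩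
      · exfalso
        omega
    · exfalso
      omega
  · rcases g1 with ⟨d1, d2⟩ | ⟨d1, d2⟩
    · exfalso
      omega
    · rcases g3 with ⟨e1, e2⟩ | ⟨e1, e2⟩
      · exfalso
        omega
      · exact Or.inr ⟨c1, c2, d2, e2⟩

section
variable {p q k R X U V Y s t x0 x1 x2 x3 u0 u1 u2 u3 v0 v1 v2 v3 y0 y1 y2 y3 : ℕ}

theorem arith_one (hR : k + R + 2 = p + q) (C : Cst p X U V Y s t)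
    (hX : X = x0 + x1 + x2 + x3) (hU : U = u0 + u1 + u2 + u3)
    (bx : x0 ≤ 1 ∧ x1 ≤ k) (bu : u0 ≤ 1 ∧ u1 ≤ k)
    (g2 : (p ≤ x2 + x3 ∧ p ≤ u2 + u3) ∨ (x2 + x3 + q ≤ R + 1 ∧ u2 + u3 + q ≤ R + 1))
    (g1 : (p ≤ u2 + u3 ∧ p ≤ v2 + v3) ∨ (u2 + u3 + q ≤ R + 1 ∧ v2 + v3 + q ≤ R + 1))
    (g3 : (p ≤ v2 + v3 ∧ p ≤ y3 + t) ∨ (v2 + v3 + q ≤ R + 1 ∧ y3 + t + q ≤ R + 1)) :
    (p ≤ x2 + x3 ∧ (p ≤ y3 ∨ (p ≤ y3 + 1 ∧ x0 + x1 = 0))) ∨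
      (x2 + x3 + q ≤ R + 1 ∧ (y3 + q ≤ R ∨ (y3 + q ≤ R + 1 ∧ x0 + x1 = k + 1))) := by
  obtain ⟨a1, a2⟩ := C.t2
  have ht := C.ht
  rcases split3 (by omega) g2 g1 g3 with ⟨c1, c2, c3, c4⟩ | ⟨c1, c2, c3, c4⟩
  · left
    refine ⟨c1, ?_⟩
    by_cases hy : p ≤ y3
    · exact Or.inl hy
    · exact Or.inr ⟨by omega, by omega⟩
  · right
    refine ⟨c1, ?_⟩
    by_cases hy : y3 + q ≤ R
    · exact Or.inl hy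
    · exact Or.inr ⟨by omega, by omega⟩

theorem arith_two (hR : k + R + 2 = p + q) (C : Cst p X U V Y s t)
    (hX : X = x0 + x1 + x2 + x3) (hU : U = u0 + u1 + u2 + u3)
    (hV : V = v0 + v1 + v2 + v3) (hY : Y = y0 + y1 + y2 + y3)
    (bx : x0 ≤ 1 ∧ x1 ≤ k) (bu : u0 ≤ 1 ∧ u1 ≤ k) (bv : v0 ≤ 1 ∧ v1 ≤ k) (by2 : y2 ≤ 1)
    (g2 : (p ≤ x2 + x3 ∧ p ≤ u2 + u3) ∨ (x2 + x3 + q ≤ R + 1 ∧ u2 + u3 + q ≤ R + 1))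
    (g1 : (p ≤ u2 + u3 ∧ p ≤ v2 + v3) ∨ (u2 + u3 + q ≤ R + 1 ∧ v2 + v3 + q ≤ R + 1))
    (g3 : (p ≤ v2 + v3 ∧ (p ≤ y3 ∨ (p ≤ y3 + 1 ∧ y0 + y1 = 0))) ∨
      (v2 + v3 + q ≤ R + 1 ∧ (y3 + q ≤ R ∨ (y3 + q ≤ R + 1 ∧ y0 + y1 = k + 1)))) :
    (p ≤ x2 + x3 ∧ (p ≤ y3 ∨ (p ≤ y3 + 1 ∧ y0 + y1 = 0 ∧ (y2 = 1 ∨ (s = 1 ∧ x0 + x1 = 0))))) ∨
      (x2 + x3 + q ≤ R + 1 ∧ (y3 + q ≤ R ∨
        (y3 + q ≤ R + 1 ∧ y0 + y1 = k + 1 ∧ (y2 = 0 ∨ (s = 0 ∧ x0 + x1 = k + 1))))) := by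
  rcases split3 (by omega) g2 g1 g3 with ⟨c1, c2, c3, c4⟩ | ⟨c1, c2, c3, c4⟩
  · left
    refine ⟨c1, ?_⟩
    by_cases hy : p ≤ y3
    · exact Or.inl hy
    · rcases c4 with c4 | ⟨c4, c5⟩
      · exact absurd c4 hy
      · refine Or.inr ⟨c4, c5, ?_⟩
        by_cases hy2 : y2 = 1
        · exact Or.inl hy2
        · obtain ⟨k1, k2, k3, k4, k5, k6⟩ := C.core0 (by omega) (by omega) (by omega) (by omega)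
          exact Or.inr ⟨k5, by omega⟩
  · right
    refine ⟨c1, ?_⟩
    by_cases hy : y3 + q ≤ R
    · exact Or.inl hy
    · rcases c4 with c4 | ⟨c4, c5⟩
      · exact absurd c4 hy
      · refine Or.inr ⟨c4, c5, ?_⟩
        by_cases hy2 : y2 = 0
        · exact Or.inl hy2
        · obtain ⟨k1, k2, k3, k4, k5, k6⟩ := C.core1 (by omega) (by omega) (by omega) (by omega)
          exact Or.inr ⟨k5, by omega⟩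

theorem arith_three (hR : k + R + 2 = p + q) (C : Cst p X U V Y s t)
    (hX : X = x0 + x1 + x2 + x3) (hU : U = u0 + u1 + u2 + u3)
    (hV : V = v0 + v1 + v2 + v3) (hY : Y = y0 + y1 + y2 + y3)
    (bx : x0 ≤ 1 ∧ x1 ≤ k) (bu : u0 ≤ 1 ∧ u1 ≤ k) (bv : v0 ≤ 1 ∧ v1 ≤ k) (by2 : y2 ≤ 1)
    (g2 : (p ≤ x2 + x3 ∧ p ≤ u2 + u3) ∨ (x2 + x3 + q ≤ R + 1 ∧ u2 + u3 + q ≤ R + 1))
    (g1 : (p ≤ u2 + u3 ∧ p ≤ v2 + v3) ∨ (u2 + u3 + q ≤ R + 1 ∧ v2 + v3 + q ≤ R + 1))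
    (g3 : (p ≤ v2 + v3 ∧ (p ≤ y3 ∨
        (p ≤ y3 + 1 ∧ y0 + y1 = 0 ∧ (t = 1 ∨ (v0 = 1 ∧ v1 + y2 = 0))))) ∨
      (v2 + v3 + q ≤ R + 1 ∧ (y3 + q ≤ R ∨
        (y3 + q ≤ R + 1 ∧ y0 + y1 = k + 1 ∧ (t = 0 ∨ (v0 = 0 ∧ v1 + y2 = k + 1)))))) :
    (p ≤ x2 + x3 ∧ (p ≤ y3 ∨ (p ≤ y3 + 1 ∧ x0 + x1 + (y0 + y1) = 0))) ∨
      (x2 + x3 + q ≤ R + 1 ∧ (y3 + q ≤ R ∨
        (y3 + q ≤ R + 1 ∧ x0 + x1 + (y0 + y1) = 2 * (k + 1)))) := by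
  rcases split3 (by omega) g2 g1 g3 with ⟨c1, c2, c3, c4⟩ | ⟨c1, c2, c3, c4⟩
  · left
    refine ⟨c1, ?_⟩
    by_cases hy : p ≤ y3
    · exact Or.inl hy
    · rcases c4 with c4 | ⟨c4, c5, c6⟩
      · exact absurd c4 hy
      · refine Or.inr ⟨c4, ?_⟩
        rcases c6 with c6 | ⟨c6, c7⟩
        · obtain ⟨a1, a2⟩ := C.t2
          omega
        · obtain ⟨k1, k2, k3, k4, k5, k6⟩ := C.core0 (by omega) (by omega) (by omega) (by omega)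
          omega
  · right
    refine ⟨c1, ?_⟩
    by_cases hy : y3 + q ≤ R
    · exact Or.inl hy
    · rcases c4 with c4 | ⟨c4, c5, c6⟩
      · exact absurd c4 hy
      · refine Or.inr ⟨c4, ?_⟩
        rcases c6 with c6 | ⟨c6, c7⟩
        · obtain ⟨a1, a2⟩ := C.t2
          omega
        · obtain ⟨k1, k2, k3, k4, k5, k6⟩ := C.core1 (by omega) (by omega) (by omega) (by omega)
          omega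

theorem arith_four (hR : k + R + 2 = p + q) (C : Cst p X U V Y s t)
    (hX : X = x0 + x1 + x2 + x3) (hU : U = u0 + u1 + u2 + u3)
    (hV : V = v0 + v1 + v2 + v3) (hY : Y = y0 + y1 + y2 + y3)
    (bx : x0 ≤ 1 ∧ x1 ≤ k) (bu : u0 ≤ 1 ∧ u1 ≤ k) (bv : v0 ≤ 1 ∧ v1 ≤ k)
    (bb : y0 ≤ 1 ∧ y1 ≤ k ∧ y2 ≤ 1)
    (g2 : (p ≤ x2 + x3 ∧ p ≤ u2 + u3) ∨ (x2 + x3 + q ≤ R + 1 ∧ u2 + u3 + q ≤ R + 1))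
    (g1 : (p ≤ u2 + u3 ∧ p ≤ v2 + v3) ∨ (u2 + u3 + q ≤ R + 1 ∧ v2 + v3 + q ≤ R + 1))
    (g3 : (p ≤ v2 + v3 ∧ (p ≤ y3 ∨ (p ≤ y3 + 1 ∧ v1 + (y0 + y1 + y2) = 0))) ∨
      (v2 + v3 + q ≤ R + 1 ∧ (y3 + q ≤ R ∨
        (y3 + q ≤ R + 1 ∧ v1 + (y0 + y1 + y2) = 2 * (k + 1))))) :
    (p ≤ x2 + x3 ∧ (p ≤ y3 ∨ (p ≤ y3 + 1 ∧ x0 + x1 + (y0 + y1 + y2) = 0))) ∨
      (x2 + x3 + q ≤ R + 1 ∧ (y3 + q ≤ R ∨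
        (y3 + q ≤ R + 1 ∧ x0 + x1 + (y0 + y1 + y2) = 2 * (k + 1) + 1))) := by
  rcases split3 (by omega) g2 g1 g3 with ⟨c1, c2, c3, c4⟩ | ⟨c1, c2, c3, c4⟩
  · left
    refine ⟨c1, ?_⟩
    by_cases hy : p ≤ y3
    · exact Or.inl hy
    · rcases c4 with c4 | ⟨c4, c5⟩
      · exact absurd c4 hy
      · refine Or.inr ⟨c4, ?_⟩
        obtain ⟨k1, k2, k3, k4, k5, k6⟩ := C.core0 (by omega) (by omega) (by omega) (by omega)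
        omega
  · right
    refine ⟨c1, ?_⟩
    by_cases hy : y3 + q ≤ R
    · exact Or.inl hy
    · rcases c4 with c4 | ⟨c4, c5⟩
      · exact absurd c4 hy
      · refine Or.inr ⟨c4, ?_⟩
        obtain ⟨k1, k2, k3, k4, k5, k6⟩ := C.core1 (by omega) (by omega) (by omega) (by omega)
        omega

theorem arith_five (hR : k + R + 2 = p + q) (C : Cst p X U V Y s t)
    (hX : X = x0 + x1 + x2 + x3) (hU : U = u0 + u1 + u2 + u3)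
    (hV : V = v0 + v1 + v2 + v3) (hY : Y = y0 + y1 + y2 + y3)
    (bx : x0 ≤ 1 ∧ x1 ≤ k) (bu : u0 ≤ 1 ∧ u1 ≤ k) (bv : v0 ≤ 1 ∧ v1 ≤ k)
    (bb : y0 ≤ 1 ∧ y1 ≤ k ∧ y2 ≤ 1)
    (g2 : (p ≤ x2 + x3 ∧ p ≤ u2 + u3) ∨ (x2 + x3 + q ≤ R + 1 ∧ u2 + u3 + q ≤ R + 1))
    (g1 : (p ≤ u2 + u3 ∧ p ≤ v2 + v3) ∨ (u2 + u3 + q ≤ R + 1 ∧ v2 + v3 + q ≤ R + 1))
    (g3 : (p ≤ v2 + v3 ∧ (p ≤ y3 ∨ (p ≤ y3 + 1 ∧ v1 + (y0 + y1 + y2) + t = 0))) ∨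
      (v2 + v3 + q ≤ R + 1 ∧ (y3 + q ≤ R ∨
        (y3 + q ≤ R + 1 ∧ v1 + (y0 + y1 + y2) + t = 2 * (k + 1) + 1)))) :
    (p ≤ x2 + x3 ∧ p ≤ y3) ∨ (x2 + x3 + q ≤ R + 1 ∧ y3 + q ≤ R) := by
  rcases split3 (by omega) g2 g1 g3 with ⟨c1, c2, c3, c4⟩ | ⟨c1, c2, c3, c4⟩
  · left
    refine ⟨c1, ?_⟩
    by_contra hy
    rcases c4 with c4 | ⟨c4, c5⟩
    · exact absurd c4 hy
    · obtain ⟨k1, k2, k3, k4, k5, k6⟩ := C.core0 (by omega) (by omega) (by omega) (by omega)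
      omega
  · right
    refine ⟨c1, ?_⟩
    by_contra hy
    rcases c4 with c4 | ⟨c4, c5⟩
    · exact absurd c4 hy
    · have ht := C.ht
      obtain ⟨k1, k2, k3, k4, k5, k6⟩ := C.core1 (by omega) (by omega) (by omega) (by omega)
      omega

theorem arith_six (hR : k + R + 2 = p + q)
    (g2 : (p ≤ u2 + u3 ∧ p ≤ x3) ∨ (u2 + u3 + q ≤ R + 1 ∧ x3 + q ≤ R))
    (g1 : (p ≤ u2 + u3 ∧ p ≤ v2 + v3) ∨ (u2 + u3 + q ≤ R + 1 ∧ v2 + v3 + q ≤ R + 1))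
    (g3 : (p ≤ v2 + v3 ∧ p ≤ y3) ∨ (v2 + v3 + q ≤ R + 1 ∧ y3 + q ≤ R)) :
    (p ≤ x3 ∧ p ≤ y3) ∨ (x3 + q ≤ R ∧ y3 + q ≤ R) := by
  rcases g2 with ⟨c1, c2⟩ | ⟨c1, c2⟩
  · rcases g1 with ⟨d1, d2⟩ | ⟨d1, d2⟩
    · rcases g3 with ⟨e1, e2⟩ | ⟨e1, e2⟩
      · exact Or.inl ⟨c2, e2⟩
      · exfalso
        omega
    · exfalso
      omega
  · rcases g1 with ⟨d1, d2⟩ | ⟨d1, d2⟩
    · exfalso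
      omega
    · rcases g3 with ⟨e1, e2⟩ | ⟨e1, e2⟩
      · exfalso
        omega
      · exact Or.inr ⟨c2, e2⟩

end

end Pool.Agent.Helper243Arrow
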