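import Pool.Agent.Helper243_Arrow.EvenArith

/-!
The arithmetic used for the first steps of the sequence of gadgets for `2p+2q+1`.
-/

set_option autoImplicit false

namespace Pool.Agent.Helper243Arrow

/-- Both at least `p` or both at most `p`. -/
def Q0 (p X Y : ℕ) : Prop := (p ≤ X ∧ p ≤ Y) ∨ (X ≤ p ∧ Y ≤ p)

section
variable {p X U V Y s t x0 xR u0 uR v0 vR y0 yR : ℕ}

theorem zero_or_one {a : ℕ} (h : a ≤ 1) : a = 0 ∨ a = 1 := by omega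

theorem arith_G0 (C : Cst p X U V Y s t) : Q0 p X Y := by
  obtain ⟨⟨a1, a2⟩, ⟨b1, b2⟩, ⟨c1, c2⟩, ⟨d1, d2⟩, ⟨e1, e2⟩, ⟨f1, f2⟩, g1, g2⟩ := C
  unfold Q0
  omega

theorem arith_G2 (C : Cst p (x0 + xR) (u0 + uR) (v0 + vR) (y0 + yR) s t)
    (bx : x0 ≤ 1) (bu : u0 ≤ 1) (bv : v0 ≤ 1) (by' : y0 ≤ 1)
    (g2 : Q0 p (xR + t) (x0 + uR)) (g1 : Q0 p (uR + v0) (u0 + vR)) (g3 : Q0 p (vR + t) (v0 + yR)) :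
    Q0 p (x0 + xR) (y0 + yR) ∧ (s = 0 → p + 1 ≤ y0 + yR → x0 = 0) ∧
      (s = 1 → y0 + yR + 1 ≤ p → x0 = 1) := by
  refine ⟨arith_G0 C, ?_⟩
  obtain ⟨⟨a1, a2⟩, ⟨b1, b2⟩, ⟨c1, c2⟩, ⟨d1, d2⟩, ⟨e1, e2⟩, ⟨f1, f2⟩, hs, ht⟩ := C
  unfold Q0 at *
  rcases zero_or_one hs with rfl | rfl <;> rcases zero_or_one ht with rfl | rfl <;>
    rcases zero_or_one bx with rfl | rfl <;> rcases zero_or_one bu with rfl | rfl <;>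
    rcases zero_or_one bv with rfl | rfl <;> rcases zero_or_one by' with rfl | rfl <;>
    omega

theorem arith_G6 (C : Cst p (x0 + xR) (u0 + uR) (v0 + vR) (y0 + yR) s t)
    (bx : x0 ≤ 1) (bu : u0 ≤ 1) (bv : v0 ≤ 1) (by' : y0 ≤ 1)
    (g2 : Q0 p (xR + u0) (x0 + uR) ∧ (t = 0 → p + 1 ≤ x0 + uR → u0 = 0) ∧
      (t = 1 → x0 + uR + 1 ≤ p → u0 = 1))
    (g1 : Q0 p (uR + v0) (u0 + vR) ∧ (s = 0 → p + 1 ≤ u0 + vR → v0 = 0) ∧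
      (s = 1 → u0 + vR + 1 ≤ p → v0 = 1))
    (g3 : Q0 p (vR + y0) (v0 + yR) ∧ (t = 0 → p + 1 ≤ v0 + yR → y0 = 0) ∧
      (t = 1 → v0 + yR + 1 ≤ p → y0 = 1)) :
    Q0 p (x0 + xR) (y0 + yR) ∧
      (s = 0 → (x0 + xR = p → y0 + yR = p → x0 ≤ y0) ∧ (p + 1 ≤ y0 + yR → x0 = 0)) ∧
      (s = 1 → (x0 + xR = p → y0 + yR = p → y0 ≤ x0) ∧ (y0 + yR + 1 ≤ p → x0 = 1)) := by
  refine ⟨arith_G0 C, ?_⟩
  obtain ⟨⟨a1, a2⟩, ⟨b1, b2⟩, ⟨c1, c2⟩, ⟨d1, d2⟩, ⟨e1, e2⟩, ⟨f1, f2⟩, hs, ht⟩ := C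
  unfold Q0 at *
  obtain ⟨h1, h2, h3⟩ := g2
  obtain ⟨h4, h5, h6⟩ := g1
  obtain ⟨h7, h8, h9⟩ := g3
  rcases zero_or_one hs with rfl | rfl <;> rcases zero_or_one ht with rfl | rfl <;>
    rcases zero_or_one bx with rfl | rfl <;> rcases zero_or_one bu with rfl | rfl <;>
    rcases zero_or_one bv with rfl | rfl <;> rcases zero_or_one by' with rfl | rfl <;>
    simp at h2 h3 h5 h6 h8 h9 ⊢ <;> omega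

theorem arith_G10 (C : Cst p (x0 + xR) (u0 + uR) (v0 + vR) (y0 + yR) s t)
    (bx : x0 ≤ 1) (bu : u0 ≤ 1) (bv : v0 ≤ 1) (by' : y0 ≤ 1)
    (g2 : Q0 p (xR + t) (x0 + uR) ∧
      (u0 = 0 → (xR + t = p → x0 + uR = p → t ≤ x0) ∧ (p + 1 ≤ x0 + uR → t = 0)) ∧
      (u0 = 1 → (xR + t = p → x0 + uR = p → x0 ≤ t) ∧ (x0 + uR + 1 ≤ p → t = 1)))
    (g1 : Q0 p (uR + s) (u0 + vR) ∧
      (v0 = 0 → (uR + s = p → u0 + vR = p → s ≤ u0) ∧ (p + 1 ≤ u0 + vR → s = 0)) ∧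
      (v0 = 1 → (uR + s = p → u0 + vR = p → u0 ≤ s) ∧ (u0 + vR + 1 ≤ p → s = 1)))
    (g3 : Q0 p (vR + t) (v0 + yR) ∧
      (y0 = 0 → (vR + t = p → v0 + yR = p → t ≤ v0) ∧ (p + 1 ≤ v0 + yR → t = 0)) ∧
      (y0 = 1 → (vR + t = p → v0 + yR = p → v0 ≤ t) ∧ (v0 + yR + 1 ≤ p → t = 1))) :
    (p ≤ xR ∧ p ≤ yR) ∨ (xR + 1 ≤ p ∧ yR + 1 ≤ p) := by
  obtain ⟨⟨a1, a2⟩, ⟨b1, b2⟩, ⟨c1, c2⟩, ⟨d1, d2⟩, ⟨e1, e2⟩, ⟨f1, f2⟩, hs, ht⟩ := C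
  unfold Q0 at *
  obtain ⟨h1, h2, h3⟩ := g2
  obtain ⟨h4, h5, h6⟩ := g1
  obtain ⟨h7, h8, h9⟩ := g3
  rcases zero_or_one hs with rfl | rfl <;> rcases zero_or_one ht with rfl | rfl <;>
    rcases zero_or_one bx with rfl | rfl <;> rcases zero_or_one bu with rfl | rfl <;>
    rcases zero_or_one bv with rfl | rfl <;> rcases zero_or_one by' with rfl | rfl <;>
    simp at h2 h3 h5 h6 h8 h9 ⊢ <;> omega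

end

end Pool.Agent.Helper243Arrow
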