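import Pool.Agent.Helper243_Arrow.EvenStep
import Pool.Agent.Helper243_Arrow.EvenArith0

/-!
The first step of the sequence of gadgets for `2p+2q+1` and the pair `(2p, 2q)`, and the gadget
without states.
-/

set_option autoImplicit false

namespace Pool.Agent.Helper243Arrow

open Classical

/-- Intermediate property. -/
def GA (p q n : ℕ) : Prop :=
  Has (p + q) (2 * p) (2 * q) ![n, n, 1, 1, 1, 0]
    (fun c => Q0 p (c 2 + c 0) (c 3 + c 1) ∧ (c 4 = 0 → p + 1 ≤ c 3 + c 1 → c 2 = 0) ∧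
      (c 4 = 1 → c 3 + c 1 + 1 ≤ p → c 2 = 1))

/-- Intermediate property. -/
def GB (p q n : ℕ) : Prop :=
  Has (p + q) (2 * p) (2 * q) ![n, n, 1, 1, 1, 0]
    (fun c => Q0 p (c 2 + c 0) (c 3 + c 1) ∧
      (c 4 = 0 → (c 2 + c 0 = p → c 3 + c 1 = p → c 2 ≤ c 3) ∧ (p + 1 ≤ c 3 + c 1 → c 2 = 0)) ∧
      (c 4 = 1 → (c 2 + c 0 = p → c 3 + c 1 = p → c 3 ≤ c 2) ∧ (c 3 + c 1 + 1 ≤ p → c 2 = 1)))

section
variable {p q n : ℕ}

theorem first_one (hn : n + 1 = p + q) (H : PP p q 0 (p + q)) : GA p q n := by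
  obtain ⟨cl, hcl⟩ := exists_cl (h := p + q) ![1, 0, 0, n] (by simp; omega)
  unfold PP at H
  unfold GA
  refine step (by omega) (by omega) cl _ hcl H H H
    ⟨![1, 5, 5, 0], ![5, 5, 5, 1], 0⟩ ⟨![1, 5, 5, 0], ![0, 5, 5, 1], 5⟩
    ⟨![1, 5, 5, 0], ![5, 5, 5, 1], 0⟩ ⟨![2, 5, 5, 0], ![3, 5, 5, 1], 4⟩ ?_ ?_ ?_ ?_ ?_
  · funext j
    fin_cases j <;> simp [Arr.ac, Fin.sum_univ_four] <;> omega
  · funext j
    fin_cases j <;> simp [Arr.ac, Fin.sum_univ_four] <;> omega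
  · funext j
    fin_cases j <;> simp [Arr.ac, Fin.sum_univ_four] <;> omega
  · funext j
    fin_cases j <;> simp [Arr.ac, Fin.sum_univ_four]
  · intro x u v y s t bx bu bv by' bs bt t2 t1 t3 t0 n1 n2 g2 g1 g3
    simp [Fin.forall_fin_succ] at bx bu bv by'
    obtain ⟨x0, x1, x2, x3⟩ := bx
    obtain ⟨u0, u1, u2, u3⟩ := bu
    obtain ⟨v0, v1, v2, v3⟩ := bv
    obtain ⟨y0, y1, y2, y3⟩ := by'
    simp only [x1, x2, u1, u2, v1, v2, y1, y2, add_zero] at t2 t1 t3 t0 n1 n2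
    have C : Cst p _ _ _ _ s t := ⟨t2, t1, t3, t0, n1, n2, bs, bt⟩
    simp [Arr.ac, Fin.sum_univ_four] at g2 g1 g3
    have := arith_G2 C x0 u0 v0 y0 (by unfold Q0; omega) (by unfold Q0; omega)
      (by unfold Q0; omega)
    simpa [Arr.ac, Fin.sum_univ_four] using this

theorem first_two (hn : n + 1 = p + q) (H : GA p q n) : GB p q n := by
  obtain ⟨cl, hcl⟩ := exists_cl (h := p + q) ![1, 0, 0, n] (by simp; omega)
  unfold GA at H
  unfold GB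
  refine step (by omega) (by omega) cl _ hcl H H H
    ⟨![3, 5, 5, 0], ![2, 5, 5, 1], 4⟩ ⟨![3, 5, 5, 0], ![2, 5, 5, 1], 4⟩
    ⟨![3, 5, 5, 0], ![2, 5, 5, 1], 4⟩ ⟨![2, 5, 5, 0], ![3, 5, 5, 1], 4⟩ ?_ ?_ ?_ ?_ ?_
  · funext j
    fin_cases j <;> simp [Arr.ac, Fin.sum_univ_four]
  · funext j
    fin_cases j <;> simp [Arr.ac, Fin.sum_univ_four]
  · funext j
    fin_cases j <;> simp [Arr.ac, Fin.sum_univ_four]
  · funext j
    fin_cases j <;> simp [Arr.ac, Fin.sum_univ_four]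
  · intro x u v y s t bx bu bv by' bs bt t2 t1 t3 t0 n1 n2 g2 g1 g3
    simp [Fin.forall_fin_succ] at bx bu bv by'
    obtain ⟨x0, x1, x2, x3⟩ := bx
    obtain ⟨u0, u1, u2, u3⟩ := bu
    obtain ⟨v0, v1, v2, v3⟩ := bv
    obtain ⟨y0, y1, y2, y3⟩ := by'
    simp only [x1, x2, u1, u2, v1, v2, y1, y2, add_zero] at t2 t1 t3 t0 n1 n2
    have C : Cst p _ _ _ _ s t := ⟨t2, t1, t3, t0, n1, n2, bs, bt⟩
    simp [Arr.ac, Fin.sum_univ_four] at g2 g1 g3
    rw [add_comm (u 0) (x 3)] at g2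
    rw [add_comm (v 0) (u 3)] at g1
    rw [add_comm (y 0) (v 3)] at g3
    have := arith_G6 C x0 u0 v0 y0 g2 g1 g3
    simpa [Arr.ac, Fin.sum_univ_four] using this

theorem first_three (hn : n + 1 = p + q) (H : GB p q n) : PP p q 1 n := by
  obtain ⟨cl, hcl⟩ := exists_cl (h := p + q) ![1, 0, 0, n] (by simp; omega)
  unfold GB at H
  unfold PP
  refine step (by omega) (by omega) cl _ hcl H H H
    ⟨![3, 5, 5, 0], ![4, 5, 5, 1], 2⟩ ⟨![3, 5, 5, 0], ![4, 5, 5, 1], 2⟩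
    ⟨![3, 5, 5, 0], ![4, 5, 5, 1], 2⟩ ⟨![5, 5, 5, 0], ![5, 5, 5, 1], 5⟩ ?_ ?_ ?_ ?_ ?_
  · funext j
    fin_cases j <;> simp [Arr.ac, Fin.sum_univ_four]
  · funext j
    fin_cases j <;> simp [Arr.ac, Fin.sum_univ_four]
  · funext j
    fin_cases j <;> simp [Arr.ac, Fin.sum_univ_four]
  · funext j
    fin_cases j <;> simp [Arr.ac, Fin.sum_univ_four]
  · intro x u v y s t bx bu bv by' bs bt t2 t1 t3 t0 n1 n2 g2 g1 g3
    simp [Fin.forall_fin_succ] at bx bu bv by'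
    obtain ⟨x0, x1, x2, x3⟩ := bx
    obtain ⟨u0, u1, u2, u3⟩ := bu
    obtain ⟨v0, v1, v2, v3⟩ := bv
    obtain ⟨y0, y1, y2, y3⟩ := by'
    simp only [x1, x2, u1, u2, v1, v2, y1, y2, add_zero] at t2 t1 t3 t0 n1 n2
    have C : Cst p _ _ _ _ s t := ⟨t2, t1, t3, t0, n1, n2, bs, bt⟩
    simp [Arr.ac, Fin.sum_univ_four] at g2 g1 g3
    rw [add_comm t (x 3)] at g2
    rw [add_comm s (u 3)] at g1
    rw [add_comm t (v 3)] at g3
    have := arith_G10 C x0 u0 v0 y0 g2 g1 g3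
    simp [Arr.ac, Fin.sum_univ_four]
    omega

theorem pp_one (hp : 1 ≤ p) (hn : n + 1 = p + q) : PP p q 1 n :=
  first_three hn (first_two hn (first_one hn (pp_zero hp)))

theorem pp_all (hp : 1 ≤ p) : ∀ m n : ℕ, 1 ≤ m → m + n = p + q → PP p q m n := by
  intro m
  induction m with
  | zero => intro n h1; omega
  | succ m ih =>
    intro n _ hn
    rcases Nat.eq_zero_or_pos m with h0 | h0
    · subst h0
      exact pp_one hp (by omega)
    · obtain ⟨k, rfl⟩ : ∃ k, m = k + 1 := ⟨m - 1, by omega⟩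
      exact pp_step (by omega) (ih (n + 1) h0 (by omega))

/-- A gadget with `2p+2q+1` dangling edges and no state. -/
theorem exists_dead_odd (hp : 1 ≤ p) (hq : 1 ≤ q) :
    ∃ G : Net (Dg (p + q)), G.Conn ∧ ∀ σ, ¬ G.State (2 * p) (2 * q) σ := by
  obtain ⟨m, n, h1, h2, h3, h4⟩ : ∃ m n, 1 ≤ m ∧ m + n = p + q ∧ n < p ∧ n < q := by
    rcases Nat.le_total p q with h | h
    · exact ⟨q + 1, p - 1, by omega, by omega, by omega, by omega⟩
    · exact ⟨p + 1, q - 1, by omega, by omega, by omega, by omega⟩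
  have H := pp_all (q := q) hp m n h1 h2
  unfold PP at H
  obtain ⟨cl, hcl⟩ := exists_cl (h := p + q) ![n, m, 0, 0] (by simp; omega)
  have hone : (fun _ : Dg (p + q) => 1) = mk3 (fun _ : Fin (p + q) => 1) (fun _ => 1) 1 := by
    funext d
    rcases d with (i | i) | i <;> rfl
  obtain ⟨G, hG, hS⟩ := H ((⟨![0, 5, 5, 5], ![1, 5, 5, 5], 5⟩ : Arr).rho cl) (by
    intro j
    rw [hone, rc_rho, hcl]
    fin_cases j <;> simp [Arr.ac, Fin.sum_univ_four] <;> omega)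
  refine ⟨G, hG, ?_⟩
  intro σ hσ
  have h5 := hS σ hσ
  rw [← mk3_eta σ, bw_mk3, rc_rho] at h5
  have h6 := ce_le cl (fun i => σ (.inl (.inl i))) 0
  rw [hcl] at h6
  simp [Arr.ac, Fin.sum_univ_four] at h5 h6
  rcases h5 with h5 | h5
  · omega
  · omega

end

end Pool.Agent.Helper243Arrow
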