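import Pool.Agent.Helper243_Arrow.Cells
import Pool.Agent.Helper243_Arrow.EvenArith

/-!
The sequence of gadgets for `2p+2q+1` and the pair `(2p, 2q)`.
-/

set_option autoImplicit false

namespace Pool.Agent.Helper243Arrow

open Classical

/-- The main property: roles `0`, `1` of size `n`, role `5` of size `2m+1`, `m + n = p + q`. -/
def PP (p q m n : ℕ) : Prop :=
  Has (p + q) (2 * p) (2 * q) ![n, n, 0, 0, 0, 2 * m + 1]
    (fun c => (p ≤ c 0 ∧ p ≤ c 1) ∨ (c 0 + q ≤ n ∧ c 1 + q ≤ n))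

theorem pp_zero {p q : ℕ} (hp : 1 ≤ p) : PP p q 0 (p + q) := by
  obtain ⟨n, hn⟩ : ∃ n, p + q = n + 1 := ⟨p + q - 1, by omega⟩
  obtain ⟨cl, hcl⟩ := exists_cl (h := p + q) ![1, 0, 0, n] (by simp; omega)
  unfold PP
  refine step (by omega) (by omega) cl _ hcl (has_pt _ _ _ _) (has_pt _ _ _ _) (has_pt _ _ _ _)
    ⟨![0, 0, 0, 0], ![1, 1, 1, 1], 5⟩ ⟨![0, 0, 0, 0], ![1, 1, 1, 1], 5⟩
    ⟨![0, 0, 0, 0], ![1, 1, 1, 1], 5⟩ ⟨![0, 0, 0, 0], ![1, 1, 1, 1], 5⟩ rfl rfl rfl ?_ ?_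
  · funext j
    fin_cases j <;> simp [Arr.ac, Fin.sum_univ_four] <;> omega
  · intro x u v y s t bx bu bv by' bs bt t2 t1 t3 t0 n1 n2 _ _ _
    simp [Fin.forall_fin_succ] at bx bu bv by'
    simp [Arr.ac, Fin.sum_univ_four]
    omega

/-- Intermediate property. -/
def HZ (p q R z o : ℕ) : Prop :=
  Has (p + q) (2 * p) (2 * q) ![R + 1, R, z, 0, 0, o]
    (fun c => (p ≤ c 0 ∧ (p ≤ c 1 ∨ (p ≤ c 1 + 1 ∧ c 2 = 0))) ∨
      (c 0 + q ≤ R + 1 ∧ (c 1 + q ≤ R ∨ (c 1 + q ≤ R + 1 ∧ c 2 = z))))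

/-- Intermediate property. -/
def HT (p q R m : ℕ) : Prop :=
  Has (p + q) (2 * p) (2 * q) ![R + 1, R, m, 1, 1, m]
    (fun c => (p ≤ c 0 ∧ (p ≤ c 1 ∨ (p ≤ c 1 + 1 ∧ c 2 = 0 ∧ (c 3 = 1 ∨ (c 4 = 1 ∧ c 5 = 0))))) ∨
      (c 0 + q ≤ R + 1 ∧ (c 1 + q ≤ R ∨
        (c 1 + q ≤ R + 1 ∧ c 2 = m ∧ (c 3 = 0 ∨ (c 4 = 0 ∧ c 5 = m))))))

/-- Intermediate property. -/
def HH (p q R m : ℕ) : Prop :=
  Has (p + q) (2 * p) (2 * q) ![R + 1, R, 0, 0, 0, 2 * m + 2]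
    (fun c => (p ≤ c 0 ∧ p ≤ c 1) ∨ (c 0 + q ≤ R + 1 ∧ c 1 + q ≤ R))

section
variable {p q k R : ℕ}

theorem step_one (hR : k + R + 2 = p + q) (H : PP p q (k + 1) (R + 1)) :
    HZ p q R (k + 1) (k + 3) := by
  obtain ⟨cl, hcl⟩ := exists_cl (h := p + q) ![1, k, 1, R] (by simp; omega)
  unfold PP at H
  unfold HZ
  refine step (by omega) (by omega) cl _ hcl H H H
    ⟨![5, 5, 0, 0], ![5, 5, 1, 1], 5⟩ ⟨![5, 5, 0, 0], ![5, 5, 1, 1], 5⟩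
    ⟨![5, 5, 0, 0], ![5, 5, 5, 1], 1⟩ ⟨![2, 2, 0, 0], ![5, 5, 5, 1], 5⟩ ?_ ?_ ?_ ?_ ?_
  · funext j
    fin_cases j <;> simp [Arr.ac, Fin.sum_univ_four] <;> omega
  · funext j
    fin_cases j <;> simp [Arr.ac, Fin.sum_univ_four] <;> omega
  · funext j
    fin_cases j <;> simp [Arr.ac, Fin.sum_univ_four] <;> omega
  · funext j
    fin_cases j <;> simp [Arr.ac, Fin.sum_univ_four] <;> omega
  · intro x u v y s t bx bu bv by' bs bt t2 t1 t3 t0 n1 n2 g2 g1 g3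
    have C : Cst p _ _ _ _ s t := ⟨t2, t1, t3, t0, n1, n2, bs, bt⟩
    have := arith_one (x2 := x 2) (x3 := x 3) (u2 := u 2) (u3 := u 3) (v2 := v 2) (v3 := v 3)
      (y3 := y 3) hR C rfl rfl ⟨bx 0, bx 1⟩ ⟨bu 0, bu 1⟩
      (by simpa [Arr.ac, Fin.sum_univ_four] using g2) (by simpa [Arr.ac, Fin.sum_univ_four] using g1)
      (by simpa [Arr.ac, Fin.sum_univ_four] using g3)
    simpa [Arr.ac, Fin.sum_univ_four] using this

theorem step_two (hR : k + R + 2 = p + q) (H : PP p q (k + 1) (R + 1))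
    (H3 : HZ p q R (k + 1) (k + 3)) : HT p q R (k + 1) := by
  obtain ⟨cl, hcl⟩ := exists_cl (h := p + q) ![1, k, 1, R] (by simp; omega)
  unfold PP at H
  unfold HZ at H3
  unfold HT
  refine step (by omega) (by omega) cl _ hcl H H H3
    ⟨![5, 5, 0, 0], ![5, 5, 1, 1], 5⟩ ⟨![5, 5, 0, 0], ![5, 5, 1, 1], 5⟩
    ⟨![5, 5, 0, 0], ![2, 2, 5, 1], 5⟩ ⟨![5, 5, 0, 0], ![2, 2, 3, 1], 4⟩ ?_ ?_ ?_ ?_ ?_
  · funext j
    fin_cases j <;> simp [Arr.ac, Fin.sum_univ_four] <;> omega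
  · funext j
    fin_cases j <;> simp [Arr.ac, Fin.sum_univ_four] <;> omega
  · funext j
    fin_cases j <;> simp [Arr.ac, Fin.sum_univ_four] <;> omega
  · funext j
    fin_cases j <;> simp [Arr.ac, Fin.sum_univ_four] <;> omega
  · intro x u v y s t bx bu bv by' bs bt t2 t1 t3 t0 n1 n2 g2 g1 g3
    have C : Cst p _ _ _ _ s t := ⟨t2, t1, t3, t0, n1, n2, bs, bt⟩
    have := arith_two (x2 := x 2) (x3 := x 3) (u2 := u 2) (u3 := u 3) (v2 := v 2) (v3 := v 3)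
      (y3 := y 3) hR C rfl rfl rfl rfl ⟨bx 0, bx 1⟩ ⟨bu 0, bu 1⟩ ⟨bv 0, bv 1⟩ (by' 2)
      (by simpa [Arr.ac, Fin.sum_univ_four] using g2) (by simpa [Arr.ac, Fin.sum_univ_four] using g1)
      (by simpa [Arr.ac, Fin.sum_univ_four] using g3)
    simpa [Arr.ac, Fin.sum_univ_four] using this

theorem step_three (hR : k + R + 2 = p + q) (H : PP p q (k + 1) (R + 1))
    (H3 : HT p q R (k + 1)) : HZ p q R (2 * (k + 1)) 2 := by
  obtain ⟨cl, hcl⟩ := exists_cl (h := p + q) ![1, k, 1, R] (by simp; omega)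
  unfold PP at H
  unfold HT at H3
  unfold HZ
  refine step (by omega) (by omega) cl _ hcl H H H3
    ⟨![5, 5, 0, 0], ![5, 5, 1, 1], 5⟩ ⟨![5, 5, 0, 0], ![5, 5, 1, 1], 5⟩
    ⟨![4, 5, 0, 0], ![2, 2, 5, 1], 3⟩ ⟨![2, 2, 0, 0], ![2, 2, 5, 1], 5⟩ ?_ ?_ ?_ ?_ ?_
  · funext j
    fin_cases j <;> simp [Arr.ac, Fin.sum_univ_four] <;> omega
  · funext j
    fin_cases j <;> simp [Arr.ac, Fin.sum_univ_four] <;> omega
  · funext j
    fin_cases j <;> simp [Arr.ac, Fin.sum_univ_four] <;> omega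
  · funext j
    fin_cases j <;> simp [Arr.ac, Fin.sum_univ_four] <;> omega
  · intro x u v y s t bx bu bv by' bs bt t2 t1 t3 t0 n1 n2 g2 g1 g3
    have C : Cst p _ _ _ _ s t := ⟨t2, t1, t3, t0, n1, n2, bs, bt⟩
    have := arith_three (x2 := x 2) (x3 := x 3) (u2 := u 2) (u3 := u 3) (v2 := v 2) (v3 := v 3)
      (y3 := y 3) hR C rfl rfl rfl rfl ⟨bx 0, bx 1⟩ ⟨bu 0, bu 1⟩ ⟨bv 0, bv 1⟩ (by' 2)
      (by simpa [Arr.ac, Fin.sum_univ_four] using g2) (by simpa [Arr.ac, Fin.sum_univ_four] using g1)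
      (by simpa [Arr.ac, Fin.sum_univ_four] using g3)
    simpa [Arr.ac, Fin.sum_univ_four] using this

theorem step_four (hR : k + R + 2 = p + q) (H : PP p q (k + 1) (R + 1))
    (H3 : HZ p q R (2 * (k + 1)) 2) : HZ p q R (2 * (k + 1) + 1) 1 := by
  obtain ⟨cl, hcl⟩ := exists_cl (h := p + q) ![1, k, 1, R] (by simp; omega)
  unfold PP at H
  unfold HZ at H3 ⊢
  refine step (by omega) (by omega) cl _ hcl H H H3
    ⟨![5, 5, 0, 0], ![5, 5, 1, 1], 5⟩ ⟨![5, 5, 0, 0], ![5, 5, 1, 1], 5⟩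
    ⟨![5, 2, 0, 0], ![2, 2, 2, 1], 5⟩ ⟨![2, 2, 0, 0], ![2, 2, 2, 1], 5⟩ ?_ ?_ ?_ ?_ ?_
  · funext j
    fin_cases j <;> simp [Arr.ac, Fin.sum_univ_four] <;> omega
  · funext j
    fin_cases j <;> simp [Arr.ac, Fin.sum_univ_four] <;> omega
  · funext j
    fin_cases j <;> simp [Arr.ac, Fin.sum_univ_four] <;> omega
  · funext j
    fin_cases j <;> simp [Arr.ac, Fin.sum_univ_four] <;> omega
  · intro x u v y s t bx bu bv by' bs bt t2 t1 t3 t0 n1 n2 g2 g1 g3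
    have C : Cst p _ _ _ _ s t := ⟨t2, t1, t3, t0, n1, n2, bs, bt⟩
    have := arith_four (x2 := x 2) (x3 := x 3) (u2 := u 2) (u3 := u 3) (v2 := v 2) (v3 := v 3)
      (y3 := y 3) hR C rfl rfl rfl rfl ⟨bx 0, bx 1⟩ ⟨bu 0, bu 1⟩ ⟨bv 0, bv 1⟩
      ⟨by' 0, by' 1, by' 2⟩
      (by simpa [Arr.ac, Fin.sum_univ_four] using g2) (by simpa [Arr.ac, Fin.sum_univ_four] using g1)
      (by simpa [Arr.ac, Fin.sum_univ_four] using g3)
    simpa [Arr.ac, Fin.sum_univ_four] using this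

theorem step_five (hR : k + R + 2 = p + q) (H : PP p q (k + 1) (R + 1))
    (H3 : HZ p q R (2 * (k + 1) + 1) 1) : HH p q R (k + 1) := by
  obtain ⟨cl, hcl⟩ := exists_cl (h := p + q) ![1, k, 1, R] (by simp; omega)
  unfold PP at H
  unfold HZ at H3
  unfold HH
  refine step (by omega) (by omega) cl _ hcl H H H3
    ⟨![5, 5, 0, 0], ![5, 5, 1, 1], 5⟩ ⟨![5, 5, 0, 0], ![5, 5, 1, 1], 5⟩
    ⟨![5, 2, 0, 0], ![2, 2, 2, 1], 2⟩ ⟨![5, 5, 0, 0], ![5, 5, 5, 1], 5⟩ ?_ ?_ ?_ ?_ ?_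
  · funext j
    fin_cases j <;> simp [Arr.ac, Fin.sum_univ_four] <;> omega
  · funext j
    fin_cases j <;> simp [Arr.ac, Fin.sum_univ_four] <;> omega
  · funext j
    fin_cases j <;> simp [Arr.ac, Fin.sum_univ_four] <;> omega
  · funext j
    fin_cases j <;> simp [Arr.ac, Fin.sum_univ_four] <;> omega
  · intro x u v y s t bx bu bv by' bs bt t2 t1 t3 t0 n1 n2 g2 g1 g3
    have C : Cst p _ _ _ _ s t := ⟨t2, t1, t3, t0, n1, n2, bs, bt⟩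
    have := arith_five (x2 := x 2) (x3 := x 3) (u2 := u 2) (u3 := u 3) (v2 := v 2) (v3 := v 3)
      (y3 := y 3) hR C rfl rfl rfl rfl ⟨bx 0, bx 1⟩ ⟨bu 0, bu 1⟩ ⟨bv 0, bv 1⟩
      ⟨by' 0, by' 1, by' 2⟩
      (by simpa [Arr.ac, Fin.sum_univ_four] using g2) (by simpa [Arr.ac, Fin.sum_univ_four] using g1)
      (by simpa [Arr.ac, Fin.sum_univ_four] using g3)
    simpa [Arr.ac, Fin.sum_univ_four] using this

theorem step_six (hR : k + R + 2 = p + q) (H : PP p q (k + 1) (R + 1))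
    (H3 : HH p q R (k + 1)) : PP p q (k + 2) R := by
  obtain ⟨cl, hcl⟩ := exists_cl (h := p + q) ![1, k, 1, R] (by simp; omega)
  unfold PP at H ⊢
  unfold HH at H3
  refine step (by omega) (by omega) cl _ hcl H3 H H3
    ⟨![5, 5, 5, 1], ![5, 5, 0, 0], 5⟩ ⟨![5, 5, 0, 0], ![5, 5, 1, 1], 5⟩
    ⟨![5, 5, 0, 0], ![5, 5, 5, 1], 5⟩ ⟨![5, 5, 5, 0], ![5, 5, 5, 1], 5⟩ ?_ ?_ ?_ ?_ ?_
  · funext j
    fin_cases j <;> simp [Arr.ac, Fin.sum_univ_four] <;> omega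
  · funext j
    fin_cases j <;> simp [Arr.ac, Fin.sum_univ_four] <;> omega
  · funext j
    fin_cases j <;> simp [Arr.ac, Fin.sum_univ_four] <;> omega
  · funext j
    fin_cases j <;> simp [Arr.ac, Fin.sum_univ_four] <;> omega
  · intro x u v y s t bx bu bv by' bs bt t2 t1 t3 t0 n1 n2 g2 g1 g3
    have := arith_six (x3 := x 3) (u2 := u 2) (u3 := u 3) (v2 := v 2) (v3 := v 3)
      (y3 := y 3) hR
      (by simpa [Arr.ac, Fin.sum_univ_four] using g2) (by simpa [Arr.ac, Fin.sum_univ_four] using g1)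
      (by simpa [Arr.ac, Fin.sum_univ_four] using g3)
    simpa [Arr.ac, Fin.sum_univ_four] using this

theorem pp_step (hR : k + R + 2 = p + q) (H : PP p q (k + 1) (R + 1)) : PP p q (k + 2) R :=
  step_six hR H (step_five hR H (step_four hR H (step_three hR H (step_two hR H (step_one hR H)))))

end

end Pool.Agent.Helper243Arrow
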