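import Pool.Agent.Helper243_Arrow.Chain

/-!
A gadget without any state, for `a = 2 n`, `b = 1` (`n ≥ 1`): exact states and the handshake lemma.
-/

set_option autoImplicit false

namespace Pool.Agent.Helper243Arrow

open Classical

variable {h n : ℕ}

/-- Weighted degree of a vertex. -/
noncomputable def Gad.deg (G : Gad h) (w : G.E → ℕ) (s : Fin h ⊕ Fin h → ℕ) (v : G.V) : ℕ :=
  G.cut w s (fun u => u = v)

/-- All vertices have degree `2h`. -/
def Gad.Reg (G : Gad h) : Prop := ∀ v, G.deg (fun _ => 1) (fun _ => 1) v = 2 * h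

theorem elim_left {α β : Type} (v : α) :
    (Sum.elim (fun u => u = v) (fun _ => False) : α ⊕ β → Prop) = fun u => u = Sum.inl v := by
  funext u
  cases u <;> simp

theorem elim_right {α β : Type} (v : β) :
    (Sum.elim (fun _ => False) (fun u => u = v) : α ⊕ β → Prop) = fun u => u = Sum.inr v := by
  funext u
  cases u <;> simp

theorem deg_comp_left (X Y : Gad h) (w : (comp X Y).E → ℕ) (s : Fin h ⊕ Fin h → ℕ) (v : X.V) :
    (comp X Y).deg w s (.inl v) =
      X.deg (fun e => w (.inl e)) (Sum.elim (fun i => s (.inl i)) (fun i => w (.inr (.inr i)))) v := by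
  unfold Gad.deg
  rw [← cut_comp_left, elim_left]
  rfl

theorem deg_comp_right (X Y : Gad h) (w : (comp X Y).E → ℕ) (s : Fin h ⊕ Fin h → ℕ) (v : Y.V) :
    (comp X Y).deg w s (.inr v) =
      Y.deg (fun e => w (.inr (.inl e)))
        (Sum.elim (fun i => w (.inr (.inr i))) (fun i => s (.inr i))) v := by
  unfold Gad.deg
  rw [← cut_comp_right, elim_right]
  rfl

theorem deg_swap (G : Gad h) (i j : Fin h) (w : G.E → ℕ) (s : Fin h ⊕ Fin h → ℕ) (v : G.V) :
    (G.swap i j).deg w s v = G.deg w (fun d => s (Equiv.swap (Sum.inl i) (Sum.inr j) d)) v :=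
  cut_swap G i j w s _

theorem elim_one : (Sum.elim (fun _ => 1) (fun _ => 1) : Fin h ⊕ Fin h → ℕ) = fun _ => 1 := by
  funext d
  cases d <;> rfl

theorem reg_vert (h : ℕ) : (vert h).Reg := by
  intro v
  unfold Gad.deg Gad.cut
  have h1 : ∀ d, ((vert h).att d = v) := fun d => rfl
  have h2 : (∑ e, if (((vert h).ends e).1 = v ↔ ((vert h).ends e).2 = v) then 0 else 1) = 0 :=
    Finset.sum_eq_zero fun e _ => Empty.elim e
  rw [h2]
  simp [h1]
  omega

theorem reg_swap (G : Gad h) (i j : Fin h) (hG : G.Reg) : (G.swap i j).Reg := by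
  intro v
  rw [deg_swap]
  exact hG v

theorem reg_comp (X Y : Gad h) (hX : X.Reg) (hY : Y.Reg) : (comp X Y).Reg := by
  intro v
  rcases v with v | v
  · rw [deg_comp_left, elim_one]
    exact hX v
  · rw [deg_comp_right, elim_one]
    exact hY v

theorem deg_add (G : Gad h) (c : G.E → Bool) (s : Fin h ⊕ Fin h → Bool) (v : G.V) :
    G.deg (bw c) (bw s) v + G.deg (bw fun e => !c e) (bw fun d => !s d) v =
      G.deg (fun _ => 1) (fun _ => 1) v := by
  unfold Gad.deg Gad.cut
  have e1 : ∀ e, bw c e + bw (fun e => !c e) e = 1 := by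
    intro e
    unfold bw
    cases hh : c e <;> simp [hh]
  have e2 : ∀ d, bw s d + bw (fun d => !s d) d = 1 := by
    intro d
    unfold bw
    cases hh : s d <;> simp [hh]
  have k1 : (∑ e, if ((G.ends e).1 = v ↔ (G.ends e).2 = v) then 0 else 1) =
      (∑ e, if ((G.ends e).1 = v ↔ (G.ends e).2 = v) then 0 else bw c e) +
      ∑ e, if ((G.ends e).1 = v ↔ (G.ends e).2 = v) then 0 else bw (fun e => !c e) e := by
    rw [← Finset.sum_add_distrib]
    apply Finset.sum_congr rfl
    intro e _
    split_ifs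
    · rfl
    · exact (e1 e).symm
  have k2 : (∑ d, if G.att d = v then 1 else 0) =
      (∑ d, if G.att d = v then bw s d else 0) +
      ∑ d, if G.att d = v then bw (fun d => !s d) d else 0 := by
    rw [← Finset.sum_add_distrib]
    apply Finset.sum_congr rfl
    intro d _
    split_ifs
    · exact (e2 d).symm
    · rfl
  rw [k1, k2]
  ring

/-- Handshake. -/
theorem sum_deg (G : Gad h) (w : G.E → ℕ) (s : Fin h ⊕ Fin h → ℕ) :
    ∑ v, G.deg w s v = 2 * (∑ e, if (G.ends e).1 = (G.ends e).2 then 0 else w e) + ∑ d, s d := by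
  unfold Gad.deg Gad.cut
  rw [Finset.sum_add_distrib, Finset.sum_comm, Finset.sum_comm (s := Finset.univ) (t := Finset.univ)
    (f := fun v d => if G.att d = v then s d else 0)]
  congr 1
  · rw [Finset.mul_sum]
    apply Finset.sum_congr rfl
    intro e _
    by_cases hl : (G.ends e).1 = (G.ends e).2
    · simp [hl]
    · have hpt : ∀ v, (if ((G.ends e).1 = v ↔ (G.ends e).2 = v) then 0 else w e) =
          (if (G.ends e).1 = v then w e else 0) + (if (G.ends e).2 = v then w e else 0) := by
        intro v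
        by_cases u1 : (G.ends e).1 = v
        · have u2 : (G.ends e).2 ≠ v := fun u2 => hl (u1.trans u2.symm)
          simp [u1, u2]
        · by_cases u2 : (G.ends e).2 = v <;> simp [u1, u2]
      rw [Finset.sum_congr rfl (fun v _ => hpt v), Finset.sum_add_distrib]
      simp [hl]
      ring
  · apply Finset.sum_congr rfl
    intro d _
    simp

theorem sum_deg_comp (X Y : Gad h) (w : (comp X Y).E → ℕ) (s : Fin h ⊕ Fin h → ℕ) :
    ∑ v, (comp X Y).deg w s v =
      (∑ v, X.deg (fun e => w (.inl e))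
        (Sum.elim (fun i => s (.inl i)) (fun i => w (.inr (.inr i)))) v) +
      ∑ v, Y.deg (fun e => w (.inr (.inl e)))
        (Sum.elim (fun i => w (.inr (.inr i))) (fun i => s (.inr i))) v := by
  show ∑ v : X.V ⊕ Y.V, (comp X Y).deg w s v = _
  rw [Fintype.sum_sum_type]
  congr 1
  · exact Finset.sum_congr rfl fun v _ => deg_comp_left X Y w s v
  · exact Finset.sum_congr rfl fun v _ => deg_comp_right X Y w s v

theorem sum_st (x y : Finset (Fin h)) : ∑ d, bw (st x y) d = x.card + y.card := by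
  rw [Fintype.sum_sum_type]
  simp [bw, st]

theorem sum_not_st (x y : Finset (Fin h)) :
    ∑ d, bw (fun d => !st x y d) d + (x.card + y.card) = 2 * h := by
  rw [← sum_st x y, ← Finset.sum_add_distrib]
  have : ∀ d : Fin h ⊕ Fin h, bw (fun d => !st x y d) d + bw (st x y) d = 1 := by
    intro d
    unfold bw
    cases hh : st x y d <;> simp [hh]
  simp [this]
  omega

/-- States in which every vertex has colour degree exactly `m`. -/
def Gad.Ex (G : Gad h) (a b m : ℕ) (x y : Finset (Fin h)) : Prop :=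
  ∃ c, G.Good a b c (st x y) ∧ ∀ v, G.deg (bw c) (bw (st x y)) v = m

theorem mid_weights (X Y : Gad h) (c : (comp X Y).E → Bool) (x y : Finset (Fin h)) :
    (Sum.elim (fun i => bw (st x y) (.inl i)) (fun i => bw c (.inr (.inr i)))) =
        bw (st x (mid X Y c)) ∧
    (Sum.elim (fun i => bw c (.inr (.inr i))) (fun i => bw (st x y) (.inr i))) =
        bw (st (mid X Y c) y) := by
  constructor
  · funext d
    cases d with
    | inl i => rfl
    | inr i =>
      show bw c (.inr (.inr i)) = bw (st x (mid X Y c)) (.inr i)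
      unfold bw
      rw [st_mid_right]
  · funext d
    cases d with
    | inl i =>
      show bw c (.inr (.inr i)) = bw (st (mid X Y c) y) (.inl i)
      unfold bw
      rw [st_mid_left]
    | inr i => rfl

theorem mid_weights_not (X Y : Gad h) (c : (comp X Y).E → Bool) (x y : Finset (Fin h)) :
    (Sum.elim (fun i => bw (fun d => !st x y d) (.inl i))
      (fun i => bw (fun e => !c e) (.inr (.inr i)))) = bw (fun d => !st x (mid X Y c) d) ∧
    (Sum.elim (fun i => bw (fun e => !c e) (.inr (.inr i)))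
      (fun i => bw (fun d => !st x y d) (.inr i))) = bw (fun d => !st (mid X Y c) y d) := by
  constructor
  · funext d
    cases d with
    | inl i => rfl
    | inr i =>
      show bw (fun e => !c e) (.inr (.inr i)) = bw (fun d => !st x (mid X Y c) d) (.inr i)
      unfold bw
      simp only [st_mid_right]
  · funext d
    cases d with
    | inl i =>
      show bw (fun e => !c e) (.inr (.inr i)) = bw (fun d => !st (mid X Y c) y d) (.inl i)
      unfold bw
      simp only [st_mid_left]
    | inr i => rfl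

theorem ex_comp (X Y : Gad h) (a b m : ℕ) (x y : Finset (Fin h))
    (hG : (comp X Y).Ex a b m x y) : ∃ z, X.Ex a b m x z ∧ Y.Ex a b m z y := by
  obtain ⟨c, hc, hd⟩ := hG
  obtain ⟨h1, h2⟩ := good_comp X Y a b c x y hc
  obtain ⟨k1, k2⟩ := mid_weights X Y c x y
  refine ⟨mid X Y c, ⟨_, h1, ?_⟩, ⟨_, h2, ?_⟩⟩
  · intro v
    have := hd (.inl v)
    rw [deg_comp_left, k1] at this
    exact this
  · intro v
    have := hd (.inr v)
    rw [deg_comp_right, k2] at this
    exact this

theorem ex_swap (G : Gad h) (i j : Fin h) (a b m : ℕ) (x y : Finset (Fin h))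
    (hG : (G.swap i j).Ex a b m x y) : G.Ex a b m (sw1 i j x y) (sw2 i j x y) := by
  obtain ⟨c, hc, hd⟩ := hG
  refine ⟨c, good_swap G i j a b c x y hc, ?_⟩
  intro v
  have k1 : (fun d => bw (st x y) (Equiv.swap (Sum.inl i) (Sum.inr j) d)) =
      bw (st (sw1 i j x y) (sw2 i j x y)) := by
    rw [← st_swap]
    rfl
  rw [← k1, ← hd v]
  exact (deg_swap G i j (bw c) (bw (st x y)) v).symm

theorem ex_total {p a b : ℕ} (ha : a = 2 * p) (hb : b + 2 * p = 2 * n + 1) (G : Gad (n + 1))
    (x y : Finset (Fin (n + 1))) (hR : G.Ex a b (2 * p) x y) : x.card + y.card = 2 * p := by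
  obtain ⟨c, hc, hd⟩ := hR
  have h1 := rel_total ha hb G x y ⟨c, hc⟩
  have h2 := sum_deg G (bw c) (bw (st x y))
  rw [Finset.sum_congr rfl (fun v _ => hd v), sum_st] at h2
  rw [Finset.sum_const, smul_eq_mul] at h2
  have h3 : (Finset.univ : Finset G.V).card * (2 * p) = 2 * ((Finset.univ : Finset G.V).card * p) := by
    ring
  omega

theorem ex_comp_card {p a b : ℕ} (ha : a = 2 * p) (hb : b + 2 * p = 2 * n + 1)
    (X Y : Gad (n + 1)) (x y : Finset (Fin (n + 1))) (hR : (comp X Y).Ex a b (2 * p) x y) :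
    ∃ z, X.Ex a b (2 * p) x z ∧ Y.Ex a b (2 * p) z y ∧ x.card = p ∧ z.card = p ∧ y.card = p := by
  obtain ⟨z, h1, h2⟩ := ex_comp X Y a b _ x y hR
  have t1 := ex_total ha hb _ x y hR
  have t2 := ex_total ha hb _ x z h1
  have t3 := ex_total ha hb _ z y h2
  exact ⟨z, h1, h2, by omega, by omega, by omega⟩

theorem A2_bit_ex {p a b : ℕ} (ha : a = 2 * p) (hb : b + 2 * p = 2 * n + 1)
    (x z : Finset (Fin (n + 1))) (hR : (A2 n).Ex a b (2 * p) x z) (hx : x.card = p)
    (hz : z.card = p) : (0 ∈ x ↔ 0 ∈ z) := by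
  have h1 := ex_swap _ _ _ _ _ _ _ _ hR
  obtain ⟨_, _, _, e1, _, e2⟩ := ex_comp_card ha hb _ _ _ _ h1
  have c1 := card_sw1 0 0 x z
  have c2 := card_sw2 0 0 x z
  by_cases u1 : 0 ∈ x <;> by_cases u2 : 0 ∈ z <;> simp only [u1, u2, if_true, if_false] at c1 c2 ⊢
    <;> omega

theorem exact_chain {p a b : ℕ} (ha : a = 2 * p) (hb : b + 2 * p = 2 * n + 1) :
    ∀ k, k ≤ n + 1 → ∃ G : Gad (n + 1), G.Conn ∧ G.Reg ∧
      (∀ x y, G.Ex a b (2 * p) x y → x.card = p ∧ y.card = p) ∧
      ∀ x y, G.Ex a b (2 * p) x y →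
        ∀ i : Fin (n + 1), i.val < k → (0 ∈ x ↔ i ∈ y) := by
  intro k
  induction k with
  | zero =>
    intro _
    refine ⟨comp (vert _) (vert _), conn_comp _ _ (conn_vert _) (conn_vert _),
      reg_comp _ _ (reg_vert _) (reg_vert _), ?_, fun x y _ i h1 => by omega⟩
    intro x y hR
    obtain ⟨_, _, _, e1, _, e2⟩ := ex_comp_card ha hb _ _ _ _ hR
    exact ⟨e1, e2⟩
  | succ k ih =>
    intro hk
    obtain ⟨G, hC, hRg, hA, hP⟩ := ih (by omega)
    set j : Fin (n + 1) := ⟨k, by omega⟩ with hj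
    refine ⟨comp (A2 n) (G.swap 0 j), conn_comp _ _ (conn_A2 n) (conn_swap _ _ _ hC),
      reg_comp _ _ (reg_swap _ _ _ (reg_comp _ _ (reg_vert _) (reg_vert _))) (reg_swap _ _ _ hRg),
      ?_, ?_⟩
    · intro x y hR
      obtain ⟨_, _, _, e1, _, e2⟩ := ex_comp_card ha hb _ _ _ _ hR
      exact ⟨e1, e2⟩
    · intro x y hR i hi
      obtain ⟨z, hX, hY, e1, e2, e3⟩ := ex_comp_card ha hb _ _ _ _ hR
      have hbit := A2_bit_ex ha hb x z hX e1 e2
      have hG := ex_swap _ _ _ _ _ _ _ _ hY
      obtain ⟨s1, s2⟩ := hA _ _ hG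
      have c1 := card_sw1 0 j z y
      have hjz : 0 ∈ z ↔ j ∈ y := by
        by_cases u1 : 0 ∈ z <;> by_cases u2 : j ∈ y <;>
          simp only [u1, u2, if_true, if_false] at c1 ⊢ <;> omega
      by_cases hij : i = j
      · rw [hij, hbit]
        exact hjz
      · have hik : i.val < k := by
          have : i.val ≠ k := fun h1 => hij (Fin.ext h1)
          omega
        have h1 := hP _ _ hG i hik
        have h2 := mem_sw1 0 j z y
        have h3 := mem_sw2_ne 0 j i z y hij
        rw [hbit, hjz, ← h2, h1, h3]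

/-- No exact state. -/
theorem exists_noexact {p a b : ℕ} (hp : 1 ≤ p) (ha : a = 2 * p) (hb : b + 2 * p = 2 * n + 1) :
    ∃ G : Gad (n + 1), G.Conn ∧ G.Reg ∧ ∀ x y, ¬ G.Ex a b (2 * p) x y := by
  obtain ⟨G, hC, hR, hA, hP⟩ := exact_chain ha hb (n + 1) le_rfl
  refine ⟨G, hC, hR, ?_⟩
  intro x y hE
  obtain ⟨hx, hy⟩ := hA x y hE
  have h1 := hP x y hE
  by_cases h0 : 0 ∈ x
  · have : y = Finset.univ := by
      ext i
      simp only [Finset.mem_univ, iff_true]
      exact (h1 i i.isLt).mp h0
    rw [this, Finset.card_univ, Fintype.card_fin] at hy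
    omega
  · have : y = ∅ := by
      ext i
      simp only [Finset.notMem_empty, iff_false]
      exact fun h2 => h0 ((h1 i i.isLt).mpr h2)
    rw [this, Finset.card_empty] at hy
    omega

/-- In every good colouring the second colour falls short of `2` per vertex by at least `i`. -/
def Gad.Short (G : Gad h) (a b i : ℕ) : Prop :=
  ∀ c x y, G.Good a b c (st x y) →
    (∑ v, G.deg (bw fun e => !c e) (bw fun d => !st x y d) v) + i ≤ 2 * Fintype.card G.V

theorem short_comp (X Y : Gad h) (a b i j : ℕ) (hX : X.Short a b i) (hY : Y.Short a b j) :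
    (comp X Y).Short a b (i + j) := by
  intro c x y hG
  obtain ⟨h1, h2⟩ := good_comp X Y a b c x y hG
  obtain ⟨k1, k2⟩ := mid_weights_not X Y c x y
  have e1 := hX _ _ _ h1
  have e2 := hY _ _ _ h2
  have e3 : Fintype.card (comp X Y).V = Fintype.card X.V + Fintype.card Y.V := by
    show Fintype.card (X.V ⊕ Y.V) = _
    exact Fintype.card_sum
  rw [sum_deg_comp, k1, k2, e3]
  have e4 : (∑ v, X.deg (fun e => bw (fun e => !c e) (.inl e))
      (bw fun d => !st x (mid X Y c) d) v) =
      ∑ v, X.deg (bw fun e => !c (.inl e)) (bw fun d => !st x (mid X Y c) d) v := rfl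
  have e5 : (∑ v, Y.deg (fun e => bw (fun e => !c e) (.inr (.inl e)))
      (bw fun d => !st (mid X Y c) y d) v) =
      ∑ v, Y.deg (bw fun e => !c (.inr (.inl e))) (bw fun d => !st (mid X Y c) y d) v := rfl
  rw [e4, e5]
  omega

theorem good_deg (G : Gad h) (a b : ℕ) (c : G.E → Bool) (s : Fin h ⊕ Fin h → Bool)
    (hG : G.Good a b c s) (v : G.V) : a ≤ G.deg (bw c) (bw s) v ∧
      b ≤ G.deg (bw fun e => !c e) (bw fun d => !s d) v :=
  hG (fun u => u = v) ⟨v, rfl⟩

theorem short_one {p : ℕ} (G : Gad (p + 1)) (hR : G.Reg)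
    (hno : ∀ x y, ¬ G.Ex (2 * p) 1 (2 * p) x y) : G.Short (2 * p) 1 1 := by
  intro c x y hG
  have h1 : ¬ ∀ v, G.deg (bw c) (bw (st x y)) v = 2 * p := fun h2 => hno x y ⟨c, hG, h2⟩
  push Not at h1
  obtain ⟨v0, hv0⟩ := h1
  have hle : ∀ v, G.deg (bw fun e => !c e) (bw fun d => !st x y d) v ≤ 2 := by
    intro v
    have := good_deg G _ _ c _ hG v
    have e := deg_add G c (st x y) v
    rw [hR v] at e
    omega
  have hlt : G.deg (bw fun e => !c e) (bw fun d => !st x y d) v0 < 2 := by
    have := good_deg G _ _ c _ hG v0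
    have e := deg_add G c (st x y) v0
    rw [hR v0] at e
    omega
  have : ∑ v, G.deg (bw fun e => !c e) (bw fun d => !st x y d) v < ∑ v : G.V, 2 :=
    Finset.sum_lt_sum (fun v _ => hle v) ⟨v0, Finset.mem_univ _, hlt⟩
  rw [Finset.sum_const, smul_eq_mul, Finset.card_univ] at this
  omega

theorem exists_of_cut (G : Gad h) (c : G.E → Bool) (s : Fin h ⊕ Fin h → Bool) (X : G.V → Prop)
    (hcut : 1 ≤ G.cut (bw c) (bw s) X) :
    (∃ e, c e = true ∧ ¬ (X (G.ends e).1 ↔ X (G.ends e).2)) ∨ (∃ d, s d = true ∧ X (G.att d)) := by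
  by_contra hcon
  push Not at hcon
  have z1 : (∑ e, if (X (G.ends e).1 ↔ X (G.ends e).2) then 0 else bw c e) = 0 := by
    apply Finset.sum_eq_zero
    intro e _
    by_cases hh : (X (G.ends e).1 ↔ X (G.ends e).2)
    · simp [hh]
    · have : c e = false := by
        by_contra h3
        exact hh (hcon.1 e (by simpa using h3))
      simp [bw, this]
  have z2 : (∑ d, if X (G.att d) then bw s d else 0) = 0 := by
    apply Finset.sum_eq_zero
    intro d _
    by_cases hh : X (G.att d)
    · have : s d = false := by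
        by_contra h3
        exact hcon.2 d (by simpa using h3) hh
      simp [bw, this]
    · simp [hh]
  unfold Gad.cut at hcut
  rw [z1, z2] at hcut
  omega

/-- A connected colour class has at least as many edges as the gadget has vertices. -/
theorem tree_count (G : Gad h) (c : G.E → Bool) (s : Fin h ⊕ Fin h → Bool)
    (hG : ∀ X : G.V → Prop, (∃ v, X v) → 1 ≤ G.cut (bw c) (bw s) X) :
    ∀ m, m ≤ Fintype.card G.V → ∃ T : Finset G.V, T.card + m = Fintype.card G.V ∧
      m ≤ (∑ e, if (G.ends e).1 = (G.ends e).2 ∨ (G.ends e).1 ∈ T ∨ (G.ends e).2 ∈ T then 0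
        else bw c e) + ∑ d, if G.att d ∈ T then 0 else bw s d := by
  intro m
  induction m with
  | zero => exact fun _ => ⟨Finset.univ, by simp [Finset.card_univ], by omega⟩
  | succ m ih =>
    intro hm
    obtain ⟨T, hT, hsum⟩ := ih (by omega)
    have hne : T.Nonempty := by
      rw [← Finset.card_pos]
      omega
    obtain ⟨v0, hv0⟩ := hne
    have hcut := hG (fun v => v ∈ T) ⟨v0, hv0⟩
    have hor : (∃ e, c e = true ∧ ¬ ((G.ends e).1 ∈ T ↔ (G.ends e).2 ∈ T)) ∨
        (∃ d, s d = true ∧ G.att d ∈ T) := exists_of_cut G c s _ hcut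
    have main : ∀ u ∈ T, ((∃ e, c e = true ∧ (((G.ends e).1 = u ∧ (G.ends e).2 ∉ T) ∨
        ((G.ends e).2 = u ∧ (G.ends e).1 ∉ T))) ∨ (∃ d, s d = true ∧ G.att d = u)) →
        ∃ T : Finset G.V, T.card + (m + 1) = Fintype.card G.V ∧
        m + 1 ≤ (∑ e, if (G.ends e).1 = (G.ends e).2 ∨ (G.ends e).1 ∈ T ∨ (G.ends e).2 ∈ T then 0
        else bw c e) + ∑ d, if G.att d ∈ T then 0 else bw s d := by
      intro u hu hcase
      refine ⟨T.erase u, ?_, ?_⟩
      · have := Finset.card_erase_add_one hu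
        omega
      · have le1 : ∀ e ∈ (Finset.univ : Finset G.E),
            (if (G.ends e).1 = (G.ends e).2 ∨ (G.ends e).1 ∈ T ∨ (G.ends e).2 ∈ T then 0
              else bw c e) ≤
            if (G.ends e).1 = (G.ends e).2 ∨ (G.ends e).1 ∈ T.erase u ∨ (G.ends e).2 ∈ T.erase u
              then 0 else bw c e := by
          intro e _
          by_cases hh : (G.ends e).1 = (G.ends e).2 ∨ (G.ends e).1 ∈ T ∨ (G.ends e).2 ∈ T
          · simp [hh]
          · have h4 : ¬ ((G.ends e).1 = (G.ends e).2 ∨ (G.ends e).1 ∈ T.erase u ∨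
                (G.ends e).2 ∈ T.erase u) := by
              rintro (h5 | h5 | h5)
              · exact hh (Or.inl h5)
              · exact hh (Or.inr (Or.inl (Finset.mem_of_mem_erase h5)))
              · exact hh (Or.inr (Or.inr (Finset.mem_of_mem_erase h5)))
            rw [if_neg hh, if_neg h4]
        have le2 : ∀ d ∈ (Finset.univ : Finset (Fin h ⊕ Fin h)),
            (if G.att d ∈ T then 0 else bw s d) ≤ if G.att d ∈ T.erase u then 0 else bw s d := by
          intro d _
          by_cases hh : G.att d ∈ T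
          · simp [hh]
          · have h4 : ¬ (G.att d ∈ T.erase u) := fun h5 => hh (Finset.mem_of_mem_erase h5)
            rw [if_neg hh, if_neg h4]
        rcases hcase with ⟨e, he, hends⟩ | ⟨d, hd, hatt⟩
        · have hlt := Finset.sum_lt_sum le1 ⟨e, Finset.mem_univ _, by
            rcases hends with ⟨q1, q2⟩ | ⟨q1, q2⟩
            · have hne : (G.ends e).1 ≠ (G.ends e).2 := fun h5 => q2 (by rw [← h5, q1]; exact hu)
              have h6 : ¬ ((G.ends e).1 = (G.ends e).2 ∨ (G.ends e).1 ∈ T.erase u ∨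
                  (G.ends e).2 ∈ T.erase u) := by
                rintro (h5 | h5 | h5)
                · exact hne h5
                · rw [q1] at h5
                  simp at h5
                · exact q2 (Finset.mem_of_mem_erase h5)
              rw [if_pos (Or.inr (Or.inl (by rw [q1]; exact hu))), if_neg h6]
              simp [bw, he]
            · have hne : (G.ends e).1 ≠ (G.ends e).2 := fun h5 => q2 (by rw [h5, q1]; exact hu)
              have h6 : ¬ ((G.ends e).1 = (G.ends e).2 ∨ (G.ends e).1 ∈ T.erase u ∨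
                  (G.ends e).2 ∈ T.erase u) := by
                rintro (h5 | h5 | h5)
                · exact hne h5
                · exact q2 (Finset.mem_of_mem_erase h5)
                · rw [q1] at h5
                  simp at h5
              rw [if_pos (Or.inr (Or.inr (by rw [q1]; exact hu))), if_neg h6]
              simp [bw, he]⟩
          have hle := Finset.sum_le_sum le2
          omega
        · have hlt := Finset.sum_lt_sum le2 ⟨d, Finset.mem_univ _, by
            have h6 : ¬ (G.att d ∈ T.erase u) := by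
              rw [hatt]
              simp
            rw [if_pos (by rw [hatt]; exact hu), if_neg h6]
            simp [bw, hd]⟩
          have hle := Finset.sum_le_sum le1
          omega
    rcases hor with ⟨e, he, hne⟩ | ⟨d, hd, hatt⟩
    · by_cases h1 : (G.ends e).1 ∈ T
      · have h2 : (G.ends e).2 ∉ T := fun h2 => hne ⟨fun _ => h2, fun _ => h1⟩
        exact main _ h1 (Or.inl ⟨e, he, Or.inl ⟨rfl, h2⟩⟩)
      · have h2 : (G.ends e).2 ∈ T := by
          by_contra h2
          exact hne ⟨fun h3 => absurd h3 h1, fun h3 => absurd h3 h2⟩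
        exact main _ h2 (Or.inl ⟨e, he, Or.inr ⟨rfl, h1⟩⟩)
    · exact main _ hatt (Or.inr ⟨d, hd, rfl⟩)

theorem tree_bound (G : Gad h) (c : G.E → Bool) (s : Fin h ⊕ Fin h → Bool)
    (hG : ∀ X : G.V → Prop, (∃ v, X v) → 1 ≤ G.cut (bw c) (bw s) X) :
    Fintype.card G.V ≤ (∑ e, if (G.ends e).1 = (G.ends e).2 then 0 else bw c e) + ∑ d, bw s d := by
  obtain ⟨T, hT, hsum⟩ := tree_count G c s hG (Fintype.card G.V) le_rfl
  have hT0 : T = ∅ := by
    rw [← Finset.card_eq_zero]
    omega
  subst hT0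
  simpa using hsum

/-- A gadget without states, for `a = 2p` and `b = 1`. -/
theorem exists_dead_one {p : ℕ} (hp : 1 ≤ p) :
    ∃ G : Gad (p + 1), G.Conn ∧ ∀ x y, ¬ G.Rel (2 * p) 1 x y := by
  obtain ⟨G, hC, hR, hno⟩ := exists_noexact (n := p) (b := 1) hp rfl (by ring)
  have hs := short_one G hR hno
  have hs3 : (comp G (comp G G)).Short (2 * p) 1 (1 + (1 + 1)) :=
    short_comp _ _ _ _ _ _ hs (short_comp _ _ _ _ _ _ hs hs)
  refine ⟨comp G (comp G G), conn_comp _ _ hC (conn_comp _ _ hC hC), ?_⟩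
  intro x y hrel
  obtain ⟨c, hc⟩ := hrel
  have h1 := hs3 c x y hc
  have h2 := tree_bound (comp G (comp G G)) (fun e => !c e) (fun d => !st x y d)
    (fun X hX => (hc X hX).2)
  have h3 := sum_deg (comp G (comp G G)) (bw fun e => !c e) (bw fun d => !st x y d)
  have h4 := sum_not_st x y
  have h5 := rel_total (n := p) (p := p) (a := 2 * p) (b := 1) rfl (by ring) _ x y ⟨c, hc⟩
  omega

end Pool.Agent.Helper243Arrow
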