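import Pool.Agent.Helper243_Arrow.Cells

/-!
Gadgets with `2h+1` dangling edges and the pair `(1, 2h-1)`: exact states.
-/

set_option autoImplicit false

namespace Pool.Agent.Helper243Arrow

open Classical

section general
variable {ι : Type} [Fintype ι]

/-- Weighted degree of a vertex. -/
noncomputable def Net.deg (G : Net ι) (w : G.E → ℕ) (s : ι → ℕ) (v : G.V) : ℕ :=
  G.cut w s (fun u => u = v)

/-- All vertices have as degree the number of dangling edges. -/
def Net.Reg (G : Net ι) : Prop := ∀ v, G.deg (fun _ => 1) (fun _ => 1) v = Fintype.card ι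

theorem Net.deg_add (G : Net ι) (c : G.E → Bool) (s : ι → Bool) (v : G.V) :
    G.deg (bw c) (bw s) v + G.deg (bw fun e => !c e) (bw fun d => !s d) v =
      G.deg (fun _ => 1) (fun _ => 1) v := by
  unfold Net.deg Net.cut
  have e1 : ∀ e, bw c e + bw (fun e => !c e) e = 1 := by
    intro e
    unfold bw
    cases hh : c e <;> simp [hh]
  have e2 : ∀ d, bw s d + bw (fun d => !s d) d = 1 := by
    intro d
    unfold bw
    cases hh : s d <;> simp [hh]
  have k1 : (∑ e, if ((G.ends e).1 = v ↔ (G.ends e).2 = v) then 0 else 1) =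
      (∑ e, if ((G.ends e).1 = v ↔ (G.ends e).2 = v) then 0 else bw c e) +
      ∑ e, if ((G.ends e).1 = v ↔ (G.ends e).2 = v) then 0 else bw (fun e => !c e) e := by
    rw [← Finset.sum_add_distrib]
    apply Finset.sum_congr rfl
    intro e _
    split_ifs
    · rfl
    · exact (e1 e).symm
  have k2 : (∑ d, if G.att d = v then 1 else 0) =
      (∑ d, if G.att d = v then bw s d else 0) +
      ∑ d, if G.att d = v then bw (fun d => !s d) d else 0 := by
    rw [← Finset.sum_add_distrib]
    apply Finset.sum_congr rfl
    intro d _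
    split_ifs
    · exact (e2 d).symm
    · rfl
  rw [k1, k2]
  ring

/-- Handshake. -/
theorem Net.sum_deg (G : Net ι) (w : G.E → ℕ) (s : ι → ℕ) :
    ∑ v, G.deg w s v = 2 * (∑ e, if (G.ends e).1 = (G.ends e).2 then 0 else w e) + ∑ d, s d := by
  unfold Net.deg Net.cut
  rw [Finset.sum_add_distrib, Finset.sum_comm, Finset.sum_comm (s := Finset.univ) (t := Finset.univ)
    (f := fun v d => if G.att d = v then s d else 0)]
  congr 1
  · rw [Finset.mul_sum]
    apply Finset.sum_congr rfl
    intro e _
    by_cases hl : (G.ends e).1 = (G.ends e).2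
    · simp [hl]
    · have hpt : ∀ v, (if ((G.ends e).1 = v ↔ (G.ends e).2 = v) then 0 else w e) =
          (if (G.ends e).1 = v then w e else 0) + (if (G.ends e).2 = v then w e else 0) := by
        intro v
        by_cases u1 : (G.ends e).1 = v
        · have u2 : (G.ends e).2 ≠ v := fun u2 => hl (u1.trans u2.symm)
          simp [u1, u2]
        · by_cases u2 : (G.ends e).2 = v <;> simp [u1, u2]
      rw [Finset.sum_congr rfl (fun v _ => hpt v), Finset.sum_add_distrib]
      simp [hl]
      ring
  · apply Finset.sum_congr rfl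
    intro d _
    simp

theorem Net.exists_of_cut (G : Net ι) (c : G.E → Bool) (s : ι → Bool) (X : G.V → Prop)
    (hcut : 1 ≤ G.cut (bw c) (bw s) X) :
    (∃ e, c e = true ∧ ¬ (X (G.ends e).1 ↔ X (G.ends e).2)) ∨ (∃ d, s d = true ∧ X (G.att d)) := by
  by_contra hcon
  push Not at hcon
  have z1 : (∑ e, if (X (G.ends e).1 ↔ X (G.ends e).2) then 0 else bw c e) = 0 := by
    apply Finset.sum_eq_zero
    intro e _
    by_cases hh : (X (G.ends e).1 ↔ X (G.ends e).2)
    · simp [hh]
    · have : c e = false := by
        by_contra h3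
        exact hh (hcon.1 e (by simpa using h3))
      simp [bw, this]
  have z2 : (∑ d, if X (G.att d) then bw s d else 0) = 0 := by
    apply Finset.sum_eq_zero
    intro d _
    by_cases hh : X (G.att d)
    · have : s d = false := by
        by_contra h3
        exact hcon.2 d (by simpa using h3) hh
      simp [bw, this]
    · simp [hh]
  unfold Net.cut at hcut
  rw [z1, z2] at hcut
  omega

/-- A connected colour class has at least as many edges as the gadget has vertices. -/
theorem Net.tree_count (G : Net ι) (c : G.E → Bool) (s : ι → Bool)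
    (hG : ∀ X : G.V → Prop, (∃ v, X v) → 1 ≤ G.cut (bw c) (bw s) X) :
    ∀ m, m ≤ Fintype.card G.V → ∃ T : Finset G.V, T.card + m = Fintype.card G.V ∧
      m ≤ (∑ e, if (G.ends e).1 = (G.ends e).2 ∨ (G.ends e).1 ∈ T ∨ (G.ends e).2 ∈ T then 0
        else bw c e) + ∑ d, if G.att d ∈ T then 0 else bw s d := by
  intro m
  induction m with
  | zero => exact fun _ => ⟨Finset.univ, by simp [Finset.card_univ], by omega⟩
  | succ m ih =>
    intro hm
    obtain ⟨T, hT, hsum⟩ := ih (by omega)
    have hne : T.Nonempty := by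
      rw [← Finset.card_pos]
      omega
    obtain ⟨v0, hv0⟩ := hne
    have hcut := hG (fun v => v ∈ T) ⟨v0, hv0⟩
    have hor : (∃ e, c e = true ∧ ¬ ((G.ends e).1 ∈ T ↔ (G.ends e).2 ∈ T)) ∨
        (∃ d, s d = true ∧ G.att d ∈ T) := Net.exists_of_cut G c s _ hcut
    have main : ∀ u ∈ T, ((∃ e, c e = true ∧ (((G.ends e).1 = u ∧ (G.ends e).2 ∉ T) ∨
        ((G.ends e).2 = u ∧ (G.ends e).1 ∉ T))) ∨ (∃ d, s d = true ∧ G.att d = u)) →
        ∃ T : Finset G.V, T.card + (m + 1) = Fintype.card G.V ∧
        m + 1 ≤ (∑ e, if (G.ends e).1 = (G.ends e).2 ∨ (G.ends e).1 ∈ T ∨ (G.ends e).2 ∈ T then 0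
        else bw c e) + ∑ d, if G.att d ∈ T then 0 else bw s d := by
      intro u hu hcase
      refine ⟨T.erase u, ?_, ?_⟩
      · have := Finset.card_erase_add_one hu
        omega
      · have le1 : ∀ e ∈ (Finset.univ : Finset G.E),
            (if (G.ends e).1 = (G.ends e).2 ∨ (G.ends e).1 ∈ T ∨ (G.ends e).2 ∈ T then 0
              else bw c e) ≤
            if (G.ends e).1 = (G.ends e).2 ∨ (G.ends e).1 ∈ T.erase u ∨ (G.ends e).2 ∈ T.erase u
              then 0 else bw c e := by
          intro e _
          by_cases hh : (G.ends e).1 = (G.ends e).2 ∨ (G.ends e).1 ∈ T ∨ (G.ends e).2 ∈ T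
          · simp [hh]
          · have h4 : ¬ ((G.ends e).1 = (G.ends e).2 ∨ (G.ends e).1 ∈ T.erase u ∨
                (G.ends e).2 ∈ T.erase u) := by
              rintro (h5 | h5 | h5)
              · exact hh (Or.inl h5)
              · exact hh (Or.inr (Or.inl (Finset.mem_of_mem_erase h5)))
              · exact hh (Or.inr (Or.inr (Finset.mem_of_mem_erase h5)))
            rw [if_neg hh, if_neg h4]
        have le2 : ∀ d ∈ (Finset.univ : Finset ι),
            (if G.att d ∈ T then 0 else bw s d) ≤ if G.att d ∈ T.erase u then 0 else bw s d := by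
          intro d _
          by_cases hh : G.att d ∈ T
          · simp [hh]
          · have h4 : ¬ (G.att d ∈ T.erase u) := fun h5 => hh (Finset.mem_of_mem_erase h5)
            rw [if_neg hh, if_neg h4]
        rcases hcase with ⟨e, he, hends⟩ | ⟨d, hd, hatt⟩
        · have hlt := Finset.sum_lt_sum le1 ⟨e, Finset.mem_univ _, by
            rcases hends with ⟨q1, q2⟩ | ⟨q1, q2⟩
            · have hne : (G.ends e).1 ≠ (G.ends e).2 := fun h5 => q2 (by rw [← h5, q1]; exact hu)
              have h6 : ¬ ((G.ends e).1 = (G.ends e).2 ∨ (G.ends e).1 ∈ T.erase u ∨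
                  (G.ends e).2 ∈ T.erase u) := by
                rintro (h5 | h5 | h5)
                · exact hne h5
                · rw [q1] at h5
                  simp at h5
                · exact q2 (Finset.mem_of_mem_erase h5)
              rw [if_pos (Or.inr (Or.inl (by rw [q1]; exact hu))), if_neg h6]
              simp [bw, he]
            · have hne : (G.ends e).1 ≠ (G.ends e).2 := fun h5 => q2 (by rw [h5, q1]; exact hu)
              have h6 : ¬ ((G.ends e).1 = (G.ends e).2 ∨ (G.ends e).1 ∈ T.erase u ∨
                  (G.ends e).2 ∈ T.erase u) := by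
                rintro (h5 | h5 | h5)
                · exact hne h5
                · exact q2 (Finset.mem_of_mem_erase h5)
                · rw [q1] at h5
                  simp at h5
              rw [if_pos (Or.inr (Or.inr (by rw [q1]; exact hu))), if_neg h6]
              simp [bw, he]⟩
          have hle := Finset.sum_le_sum le2
          omega
        · have hlt := Finset.sum_lt_sum le2 ⟨d, Finset.mem_univ _, by
            have h6 : ¬ (G.att d ∈ T.erase u) := by
              rw [hatt]
              simp
            rw [if_pos (by rw [hatt]; exact hu), if_neg h6]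
            simp [bw, hd]⟩
          have hle := Finset.sum_le_sum le1
          omega
    rcases hor with ⟨e, he, hne⟩ | ⟨d, hd, hatt⟩
    · by_cases h1 : (G.ends e).1 ∈ T
      · have h2 : (G.ends e).2 ∉ T := fun h2 => hne ⟨fun _ => h2, fun _ => h1⟩
        exact main _ h1 (Or.inl ⟨e, he, Or.inl ⟨rfl, h2⟩⟩)
      · have h2 : (G.ends e).2 ∈ T := by
          by_contra h2
          exact hne ⟨fun h3 => absurd h3 h1, fun h3 => absurd h3 h2⟩
        exact main _ h2 (Or.inl ⟨e, he, Or.inr ⟨rfl, h1⟩⟩)
    · exact main _ hatt (Or.inr ⟨d, hd, rfl⟩)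

theorem Net.tree_bound (G : Net ι) (c : G.E → Bool) (s : ι → Bool)
    (hG : ∀ X : G.V → Prop, (∃ v, X v) → 1 ≤ G.cut (bw c) (bw s) X) :
    Fintype.card G.V ≤ (∑ e, if (G.ends e).1 = (G.ends e).2 then 0 else bw c e) + ∑ d, bw s d := by
  obtain ⟨T, hT, hsum⟩ := Net.tree_count G c s hG (Fintype.card G.V) le_rfl
  have hT0 : T = ∅ := by
    rw [← Finset.card_eq_zero]
    omega
  subst hT0
  simpa using hsum

end general

end Pool.Agent.Helper243Arrow
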