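import Pool.Agent.Helper243_Arrow.Basic

/-!
States of composed gadgets.
-/

set_option autoImplicit false

namespace Pool.Agent.Helper243Arrow

open Classical

variable {h : ℕ}

theorem good_total (G : Gad h) (a b : ℕ) (c : G.E → Bool) (x y : Finset (Fin h))
    (hG : G.Good a b c (st x y)) (v : G.V) :
    a ≤ x.card + y.card ∧ b + (x.card + y.card) ≤ 2 * h := by
  obtain ⟨h1, h2⟩ := hG (fun _ => True) ⟨v, trivial⟩
  rw [cut_split] at h1 h2
  have e1 : (∑ i : Fin h, bw (st x y) (.inl i)) = x.card := by
    simp [bw, st]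
  have e2 : (∑ i : Fin h, bw (st x y) (.inr i)) = y.card := by
    simp [bw, st]
  have e3 : (∑ i : Fin h, bw (fun d => !st x y d) (.inl i)) + x.card = h := by
    rw [← e1, ← Finset.sum_add_distrib]
    have : ∀ i : Fin h, bw (fun d => !st x y d) (.inl i) + bw (st x y) (.inl i) = 1 := by
      intro i
      unfold bw
      cases hh : st x y (.inl i) <;> simp [hh]
    simp [this]
  have e4 : (∑ i : Fin h, bw (fun d => !st x y d) (.inr i)) + y.card = h := by
    rw [← e2, ← Finset.sum_add_distrib]
    have : ∀ i : Fin h, bw (fun d => !st x y d) (.inr i) + bw (st x y) (.inr i) = 1 := by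
      intro i
      unfold bw
      cases hh : st x y (.inr i) <;> simp [hh]
    simp [this]
  simp only [iff_self, if_true, Finset.sum_const_zero, zero_add] at h1 h2
  omega

/-- The colouring of the joining edges, as a finite set. -/
noncomputable def mid (X Y : Gad h) (c : (comp X Y).E → Bool) : Finset (Fin h) :=
  Finset.univ.filter fun i => c (.inr (.inr i)) = true

theorem st_mid_right (X Y : Gad h) (c : (comp X Y).E → Bool) (x : Finset (Fin h)) (i : Fin h) :
    st x (mid X Y c) (.inr i) = c (.inr (.inr i)) := by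
  cases hc : c (.inr (.inr i)) <;> simp [st, mid, hc]

theorem st_mid_left (X Y : Gad h) (c : (comp X Y).E → Bool) (y : Finset (Fin h)) (i : Fin h) :
    st (mid X Y c) y (.inl i) = c (.inr (.inr i)) := by
  cases hc : c (.inr (.inr i)) <;> simp [st, mid, hc]

theorem good_comp (X Y : Gad h) (a b : ℕ) (c : (comp X Y).E → Bool) (x y : Finset (Fin h))
    (hG : (comp X Y).Good a b c (st x y)) :
    X.Good a b (fun e => c (.inl e)) (st x (mid X Y c)) ∧
      Y.Good a b (fun e => c (.inr (.inl e))) (st (mid X Y c) y) := by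
  constructor
  · intro P hP
    obtain ⟨v, hv⟩ := hP
    have := hG (Sum.elim P (fun _ => False)) ⟨.inl v, hv⟩
    rw [cut_comp_left, cut_comp_left] at this
    have k1 : (Sum.elim (fun i => bw (st x y) (.inl i)) (fun i => bw c (.inr (.inr i)))) =
        bw (st x (mid X Y c)) := by
      funext d
      cases d with
      | inl i => rfl
      | inr i =>
        show bw c (.inr (.inr i)) = bw (st x (mid X Y c)) (.inr i)
        unfold bw
        rw [st_mid_right]
    have k2 : (Sum.elim (fun i => bw (fun d => !st x y d) (.inl i))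
        (fun i => bw (fun e => !c e) (.inr (.inr i)))) = bw (fun d => !st x (mid X Y c) d) := by
      funext d
      cases d with
      | inl i => rfl
      | inr i =>
        show bw (fun e => !c e) (.inr (.inr i)) = bw (fun d => !st x (mid X Y c) d) (.inr i)
        unfold bw
        simp only [st_mid_right]
    rw [k1, k2] at this
    exact this
  · intro Q hQ
    obtain ⟨v, hv⟩ := hQ
    have := hG (Sum.elim (fun _ => False) Q) ⟨.inr v, hv⟩
    rw [cut_comp_right, cut_comp_right] at this
    have k1 : (Sum.elim (fun i => bw c (.inr (.inr i))) (fun i => bw (st x y) (.inr i))) =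
        bw (st (mid X Y c) y) := by
      funext d
      cases d with
      | inl i =>
        show bw c (.inr (.inr i)) = bw (st (mid X Y c) y) (.inl i)
        unfold bw
        rw [st_mid_left]
      | inr i => rfl
    have k2 : (Sum.elim (fun i => bw (fun e => !c e) (.inr (.inr i)))
        (fun i => bw (fun d => !st x y d) (.inr i))) = bw (fun d => !st (mid X Y c) y d) := by
      funext d
      cases d with
      | inl i =>
        show bw (fun e => !c e) (.inr (.inr i)) = bw (fun d => !st (mid X Y c) y d) (.inl i)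
        unfold bw
        simp only [st_mid_left]
      | inr i => rfl
    rw [k1, k2] at this
    exact this

/-- New left set after exchanging left `i` and right `j`. -/
def sw1 (i j : Fin h) (x y : Finset (Fin h)) : Finset (Fin h) :=
  if j ∈ y then insert i x else x.erase i

/-- New right set after exchanging left `i` and right `j`. -/
def sw2 (i j : Fin h) (x y : Finset (Fin h)) : Finset (Fin h) :=
  if i ∈ x then insert j y else y.erase j

theorem mem_sw1 (i j : Fin h) (x y : Finset (Fin h)) : i ∈ sw1 i j x y ↔ j ∈ y := by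
  unfold sw1
  split_ifs with h1 <;> simp [h1]

theorem mem_sw2 (i j : Fin h) (x y : Finset (Fin h)) : j ∈ sw2 i j x y ↔ i ∈ x := by
  unfold sw2
  split_ifs with h1 <;> simp [h1]

theorem mem_sw1_ne (i j k : Fin h) (x y : Finset (Fin h)) (hk : k ≠ i) :
    k ∈ sw1 i j x y ↔ k ∈ x := by
  unfold sw1
  split_ifs with h1 <;> simp [hk]

theorem mem_sw2_ne (i j k : Fin h) (x y : Finset (Fin h)) (hk : k ≠ j) :
    k ∈ sw2 i j x y ↔ k ∈ y := by
  unfold sw2
  split_ifs with h1 <;> simp [hk]

theorem card_sw1 (i j : Fin h) (x y : Finset (Fin h)) :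
    (sw1 i j x y).card + (if i ∈ x then 1 else 0) = x.card + (if j ∈ y then 1 else 0) := by
  unfold sw1
  by_cases h1 : j ∈ y <;> by_cases h2 : i ∈ x
  · simp [h1, h2]
  · simp [h1, h2]
  · have := Finset.card_erase_add_one h2
    simp [h1, h2]
    omega
  · simp [h1, h2]

theorem card_sw2 (i j : Fin h) (x y : Finset (Fin h)) :
    (sw2 i j x y).card + (if j ∈ y then 1 else 0) = y.card + (if i ∈ x then 1 else 0) := by
  unfold sw2
  by_cases h1 : j ∈ y <;> by_cases h2 : i ∈ x
  · simp [h1, h2]
  · have := Finset.card_erase_add_one h1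
    simp [h1, h2]
    omega
  · simp [h1, h2]
  · simp [h1, h2]

theorem st_swap (i j : Fin h) (x y : Finset (Fin h)) :
    (fun d => st x y (Equiv.swap (Sum.inl i) (Sum.inr j) d)) = st (sw1 i j x y) (sw2 i j x y) := by
  funext d
  cases d with
  | inl k =>
    by_cases hk : k = i
    · subst hk
      rw [Equiv.swap_apply_left]
      simp only [st, Sum.elim_inl, Sum.elim_inr, mem_sw1]
    · rw [Equiv.swap_apply_of_ne_of_ne (by simpa using hk) (by simp)]
      simp only [st, Sum.elim_inl, mem_sw1_ne i j k x y hk]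
  | inr k =>
    by_cases hk : k = j
    · subst hk
      rw [Equiv.swap_apply_right]
      simp only [st, Sum.elim_inl, Sum.elim_inr, mem_sw2]
    · rw [Equiv.swap_apply_of_ne_of_ne (by simp) (by simpa using hk)]
      simp only [st, Sum.elim_inr, mem_sw2_ne i j k x y hk]

theorem good_swap (G : Gad h) (i j : Fin h) (a b : ℕ) (c : G.E → Bool) (x y : Finset (Fin h))
    (hG : (G.swap i j).Good a b c (st x y)) :
    G.Good a b c (st (sw1 i j x y) (sw2 i j x y)) := by
  intro P hP
  have := hG P hP
  have e1 := cut_swap G i j (bw c) (bw (st x y)) P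
  have e2 := cut_swap G i j (bw fun e => !c e) (bw (fun d => !st x y d)) P
  have k1 : (fun d => bw (st x y) (Equiv.swap (Sum.inl i) (Sum.inr j) d)) =
      bw (st (sw1 i j x y) (sw2 i j x y)) := by
    rw [← st_swap]
    rfl
  have k2 : (fun d => bw (fun d => !st x y d) (Equiv.swap (Sum.inl i) (Sum.inr j) d)) =
      bw (fun d => !st (sw1 i j x y) (sw2 i j x y) d) := by
    rw [← st_swap]
    rfl
  rw [k1] at e1
  rw [k2] at e2
  exact ⟨le_of_le_of_eq this.1 e1, le_of_le_of_eq this.2 e2⟩

theorem rel_comp (X Y : Gad h) (a b : ℕ) (x y : Finset (Fin h))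
    (hG : (comp X Y).Rel a b x y) : ∃ z, X.Rel a b x z ∧ Y.Rel a b z y := by
  obtain ⟨c, hc⟩ := hG
  obtain ⟨h1, h2⟩ := good_comp X Y a b c x y hc
  exact ⟨mid X Y c, ⟨_, h1⟩, ⟨_, h2⟩⟩

theorem rel_swap (G : Gad h) (i j : Fin h) (a b : ℕ) (x y : Finset (Fin h))
    (hG : (G.swap i j).Rel a b x y) : G.Rel a b (sw1 i j x y) (sw2 i j x y) := by
  obtain ⟨c, hc⟩ := hG
  exact ⟨c, good_swap G i j a b c x y hc⟩

end Pool.Agent.Helper243Arrow
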