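import Pool.Agent.Helper243_Arrow.Close

/-!
Gadgets with an odd number `2h+1` of dangling edges, arranged as `h` left ones, `h` right ones and
one single one, and their composition in threes.
-/

set_option autoImplicit false

namespace Pool.Agent.Helper243Arrow

open Classical

/-- A finite multigraph with dangling edges indexed by `ι`. -/
structure Net (ι : Type) : Type 1 where
  V : Type
  E : Type
  fV : Fintype V
  fE : Fintype E
  ends : E → V × V
  att : ι → V

attribute [instance] Net.fV Net.fE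

variable {ι : Type} [Fintype ι]

/-- Weighted size of the boundary of a vertex set, dangling edges included. -/
noncomputable def Net.cut (G : Net ι) (w : G.E → ℕ) (s : ι → ℕ) (X : G.V → Prop) : ℕ :=
  (∑ e, if (X (G.ends e).1 ↔ X (G.ends e).2) then 0 else w e) +
    ∑ d, if X (G.att d) then s d else 0

/-- Every nonempty vertex set has at least as many boundary edges as there are dangling edges. -/
def Net.Conn (G : Net ι) : Prop :=
  ∀ X : G.V → Prop, (∃ v, X v) → Fintype.card ι ≤ G.cut (fun _ => 1) (fun _ => 1) X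

/-- Every nonempty set has at least `a` boundary edges of colour `true` and at least `b` of colour
`false`. -/
def Net.Good (G : Net ι) (a b : ℕ) (c : G.E → Bool) (s : ι → Bool) : Prop :=
  ∀ X : G.V → Prop, (∃ v, X v) →
    a ≤ G.cut (bw c) (bw s) X ∧ b ≤ G.cut (bw fun e => !c e) (bw fun d => !s d) X

/-- The states of a gadget. -/
def Net.State (G : Net ι) (a b : ℕ) (s : ι → Bool) : Prop :=
  ∃ c, G.Good a b c s

/-- Relabelling of dangling edges. -/
def Net.relab (G : Net ι) (f : ι ≃ ι) : Net ι where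
  V := G.V
  E := G.E
  fV := G.fV
  fE := G.fE
  ends := G.ends
  att := fun d => G.att (f d)

theorem Net.cut_relab (G : Net ι) (f : ι ≃ ι) (w : G.E → ℕ) (s : ι → ℕ) (X : G.V → Prop) :
    (G.relab f).cut w (fun d => s (f d)) X = G.cut w s X := by
  unfold Net.cut
  congr 1
  exact Equiv.sum_comp f (fun d => if X (G.att d) then s d else 0)

theorem Net.conn_relab (G : Net ι) (f : ι ≃ ι) (hG : G.Conn) : (G.relab f).Conn := by
  intro X hX
  have h1 := hG X hX
  exact le_of_le_of_eq h1 (G.cut_relab f (fun _ => 1) (fun _ => 1) X).symm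

theorem Net.state_relab (G : Net ι) (f : ι ≃ ι) (a b : ℕ) (s : ι → Bool)
    (hs : (G.relab f).State a b s) : G.State a b (fun d => s (f.symm d)) := by
  obtain ⟨c, hc⟩ := hs
  refine ⟨c, ?_⟩
  intro X hX
  obtain ⟨h1, h2⟩ := hc X hX
  have e1 : (bw s) = fun d => bw (fun d => s (f.symm d)) (f d) := by
    funext d
    simp [bw]
  have e2 : (bw fun d => !s d) = fun d => bw (fun d => !s (f.symm d)) (f d) := by
    funext d
    simp [bw]
  rw [e1] at h1
  rw [e2] at h2
  exact ⟨le_of_le_of_eq h1 (G.cut_relab f _ _ X), le_of_le_of_eq h2 (G.cut_relab f _ _ X)⟩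

/-- Index type of dangling edges: left, right, single. -/
abbrev Dg (h : ℕ) : Type := (Fin h ⊕ Fin h) ⊕ Unit

variable {h : ℕ}

/-- Assemble a function on dangling edges. -/
def mk3 {α : Type} (x y : Fin h → α) (s : α) : Dg h → α :=
  Sum.elim (Sum.elim x y) (fun _ => s)

/-- Composition of three gadgets. -/
def trio (A B C : Net (Dg h)) : Net (Dg h) where
  V := A.V ⊕ (B.V ⊕ C.V)
  E := (A.E ⊕ (B.E ⊕ C.E)) ⊕ Dg h
  fV := inferInstance
  fE := inferInstance
  ends := fun e => match e with
    | .inl (.inl e) => (.inl (A.ends e).1, .inl (A.ends e).2)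
    | .inl (.inr (.inl e)) => (.inr (.inl (B.ends e).1), .inr (.inl (B.ends e).2))
    | .inl (.inr (.inr e)) => (.inr (.inr (C.ends e).1), .inr (.inr (C.ends e).2))
    | .inr (.inl (.inl i)) => (.inl (A.att (.inl (.inr i))), .inr (.inl (B.att (.inl (.inl i)))))
    | .inr (.inl (.inr i)) =>
      (.inr (.inl (B.att (.inl (.inr i)))), .inr (.inr (C.att (.inl (.inl i)))))
    | .inr (.inr _) => (.inl (A.att (.inr ())), .inr (.inr (C.att (.inr ()))))
  att := fun d => match d with
    | .inl (.inl i) => .inl (A.att (.inl (.inl i)))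
    | .inl (.inr i) => .inr (.inr (C.att (.inl (.inr i))))
    | .inr _ => .inr (.inl (B.att (.inr ())))

theorem Net.cut_dg (G : Net (Dg h)) (w : G.E → ℕ) (x y : Fin h → ℕ) (s : ℕ) (X : G.V → Prop) :
    G.cut w (mk3 x y s) X = (∑ e, if (X (G.ends e).1 ↔ X (G.ends e).2) then 0 else w e) +
      (∑ i, if X (G.att (.inl (.inl i))) then x i else 0) +
      (∑ i, if X (G.att (.inl (.inr i))) then y i else 0) +
      (if X (G.att (.inr ())) then s else 0) := by
  unfold Net.cut mk3
  rw [Fintype.sum_sum_type, Fintype.sum_sum_type]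
  simp
  ring

theorem mk3_eta {α : Type} (s : Dg h → α) :
    mk3 (fun i => s (.inl (.inl i))) (fun i => s (.inl (.inr i))) (s (.inr ())) = s := by
  funext d
  rcases d with (i | i) | i <;> rfl

theorem cut_trio (A B C : Net (Dg h)) (w : (trio A B C).E → ℕ) (x y : Fin h → ℕ) (s : ℕ)
    (P : A.V → Prop) (Q : B.V → Prop) (R : C.V → Prop) :
    (trio A B C).cut w (mk3 x y s) (Sum.elim P (Sum.elim Q R)) =
      (∑ e, if (P (A.ends e).1 ↔ P (A.ends e).2) then 0 else w (.inl (.inl e))) +
      (∑ e, if (Q (B.ends e).1 ↔ Q (B.ends e).2) then 0 else w (.inl (.inr (.inl e)))) +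
      (∑ e, if (R (C.ends e).1 ↔ R (C.ends e).2) then 0 else w (.inl (.inr (.inr e)))) +
      (∑ i, if (P (A.att (.inl (.inr i))) ↔ Q (B.att (.inl (.inl i)))) then 0
        else w (.inr (.inl (.inl i)))) +
      (∑ i, if (Q (B.att (.inl (.inr i))) ↔ R (C.att (.inl (.inl i)))) then 0
        else w (.inr (.inl (.inr i)))) +
      (if (P (A.att (.inr ())) ↔ R (C.att (.inr ()))) then 0 else w (.inr (.inr ()))) +
      (∑ i, if P (A.att (.inl (.inl i))) then x i else 0) +
      (∑ i, if R (C.att (.inl (.inr i))) then y i else 0) +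
      (if Q (B.att (.inr ())) then s else 0) := by
  rw [Net.cut_dg]
  have h1 : (∑ e : (trio A B C).E, if (Sum.elim P (Sum.elim Q R) ((trio A B C).ends e).1 ↔
        Sum.elim P (Sum.elim Q R) ((trio A B C).ends e).2) then 0 else w e) =
      ((∑ e, if (P (A.ends e).1 ↔ P (A.ends e).2) then 0 else w (.inl (.inl e))) +
      ((∑ e, if (Q (B.ends e).1 ↔ Q (B.ends e).2) then 0 else w (.inl (.inr (.inl e)))) +
      (∑ e, if (R (C.ends e).1 ↔ R (C.ends e).2) then 0 else w (.inl (.inr (.inr e)))))) +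
      (((∑ i, if (P (A.att (.inl (.inr i))) ↔ Q (B.att (.inl (.inl i)))) then 0
        else w (.inr (.inl (.inl i)))) +
      (∑ i, if (Q (B.att (.inl (.inr i))) ↔ R (C.att (.inl (.inl i)))) then 0
        else w (.inr (.inl (.inr i))))) +
      (if (P (A.att (.inr ())) ↔ R (C.att (.inr ()))) then 0 else w (.inr (.inr ())))) := by
    show (∑ e : (A.E ⊕ (B.E ⊕ C.E)) ⊕ Dg h, if (Sum.elim P (Sum.elim Q R) ((trio A B C).ends e).1 ↔
        Sum.elim P (Sum.elim Q R) ((trio A B C).ends e).2) then 0 else w e) = _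
    rw [Fintype.sum_sum_type, Fintype.sum_sum_type, Fintype.sum_sum_type, Fintype.sum_sum_type,
      Fintype.sum_sum_type]
    congr 1
  rw [h1]
  have h2 : ∀ i, Sum.elim P (Sum.elim Q R) ((trio A B C).att (.inl (.inl i))) =
      P (A.att (.inl (.inl i))) := fun i => rfl
  have h3 : ∀ i, Sum.elim P (Sum.elim Q R) ((trio A B C).att (.inl (.inr i))) =
      R (C.att (.inl (.inr i))) := fun i => rfl
  have h4 : Sum.elim P (Sum.elim Q R) ((trio A B C).att (.inr ())) = Q (B.att (.inr ())) := rfl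
  simp only [h2, h3, h4]
  ring


theorem cut_trio_a (A B C : Net (Dg h)) (w : (trio A B C).E → ℕ) (x y : Fin h → ℕ) (s : ℕ)
    (P : A.V → Prop) :
    (trio A B C).cut w (mk3 x y s) (Sum.elim P (Sum.elim (fun _ => False) (fun _ => False))) =
      A.cut (fun e => w (.inl (.inl e)))
        (mk3 x (fun i => w (.inr (.inl (.inl i)))) (w (.inr (.inr ())))) P := by
  rw [cut_trio, Net.cut_dg]
  simp only [iff_false, ite_not, if_false, Finset.sum_const_zero, add_zero, iff_self, if_true]
  ring

theorem cut_trio_b (A B C : Net (Dg h)) (w : (trio A B C).E → ℕ) (x y : Fin h → ℕ) (s : ℕ)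
    (Q : B.V → Prop) :
    (trio A B C).cut w (mk3 x y s) (Sum.elim (fun _ => False) (Sum.elim Q (fun _ => False))) =
      B.cut (fun e => w (.inl (.inr (.inl e))))
        (mk3 (fun i => w (.inr (.inl (.inl i)))) (fun i => w (.inr (.inl (.inr i)))) s) Q := by
  rw [cut_trio, Net.cut_dg]
  simp only [iff_false, false_iff, ite_not, if_false, Finset.sum_const_zero, add_zero, zero_add,
    iff_self, if_true]

theorem cut_trio_c (A B C : Net (Dg h)) (w : (trio A B C).E → ℕ) (x y : Fin h → ℕ) (s : ℕ)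
    (R : C.V → Prop) :
    (trio A B C).cut w (mk3 x y s) (Sum.elim (fun _ => False) (Sum.elim (fun _ => False) R)) =
      C.cut (fun e => w (.inl (.inr (.inr e))))
        (mk3 (fun i => w (.inr (.inl (.inr i)))) y (w (.inr (.inr ())))) R := by
  rw [cut_trio, Net.cut_dg]
  simp only [iff_false, false_iff, ite_not, if_false, Finset.sum_const_zero, add_zero, zero_add,
    iff_self, if_true]
  ring

theorem cut_trio_ab (A B C : Net (Dg h)) (w : (trio A B C).E → ℕ) (x y : Fin h → ℕ) (s : ℕ) :
    (trio A B C).cut w (mk3 x y s)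
      (Sum.elim (fun _ => True) (Sum.elim (fun _ => True) (fun _ => False))) =
      (∑ i, w (.inr (.inl (.inr i)))) + w (.inr (.inr ())) + (∑ i, x i) + s := by
  rw [cut_trio]
  simp

theorem cut_trio_bc (A B C : Net (Dg h)) (w : (trio A B C).E → ℕ) (x y : Fin h → ℕ) (s : ℕ) :
    (trio A B C).cut w (mk3 x y s)
      (Sum.elim (fun _ => False) (Sum.elim (fun _ => True) (fun _ => True))) =
      (∑ i, w (.inr (.inl (.inl i)))) + w (.inr (.inr ())) + (∑ i, y i) + s := by
  rw [cut_trio]
  simp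

theorem conn_trio (hh : 1 ≤ h) (A B C : Net (Dg h)) (hA : A.Conn) (hB : B.Conn) (hC : C.Conn) :
    (trio A B C).Conn := by
  intro Z hZ
  obtain ⟨P, Q, R, rfl⟩ : ∃ (P : A.V → Prop) (Q : B.V → Prop) (R : C.V → Prop),
      Z = Sum.elim P (Sum.elim Q R) := by
    refine ⟨fun v => Z (.inl v), fun v => Z (.inr (.inl v)), fun v => Z (.inr (.inr v)), ?_⟩
    funext v
    rcases v with v | v | v <;> rfl
  have hcard : Fintype.card (Dg h) = 2 * h + 1 := by
    simp
    ring
  have hone : (fun _ : Dg h => 1) = mk3 (fun _ : Fin h => 1) (fun _ : Fin h => 1) 1 := by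
    funext d
    rcases d with (i | i) | i <;> rfl
  have kA := hA P
  have kB := hB Q
  have kC := hC R
  rw [hone, Net.cut_dg] at kA kB kC
  rw [hone, cut_trio]
  rw [hcard] at kA kB kC ⊢
  have j1 : (∑ i, if P (A.att (.inl (.inr i))) then 1 else 0) +
      (∑ i, if Q (B.att (.inl (.inl i))) then 1 else 0) ≤
      (∑ i : Fin h, if (P (A.att (.inl (.inr i))) ↔ Q (B.att (.inl (.inl i)))) then 0 else 1) +
        2 * ∑ i : Fin h, (if P (A.att (.inl (.inr i))) ∧ Q (B.att (.inl (.inl i))) then 1 else 0) := by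
    rw [Finset.mul_sum, ← Finset.sum_add_distrib, ← Finset.sum_add_distrib]
    apply Finset.sum_le_sum
    intro i _
    by_cases u1 : P (A.att (.inl (.inr i))) <;> by_cases u2 : Q (B.att (.inl (.inl i))) <;>
      simp [u1, u2]
  have j2 : (∑ i, if Q (B.att (.inl (.inr i))) then 1 else 0) +
      (∑ i, if R (C.att (.inl (.inl i))) then 1 else 0) ≤
      (∑ i : Fin h, if (Q (B.att (.inl (.inr i))) ↔ R (C.att (.inl (.inl i)))) then 0 else 1) +
        2 * ∑ i : Fin h, (if Q (B.att (.inl (.inr i))) ∧ R (C.att (.inl (.inl i))) then 1 else 0) := by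
    rw [Finset.mul_sum, ← Finset.sum_add_distrib, ← Finset.sum_add_distrib]
    apply Finset.sum_le_sum
    intro i _
    by_cases u1 : Q (B.att (.inl (.inr i))) <;> by_cases u2 : R (C.att (.inl (.inl i))) <;>
      simp [u1, u2]
  have j3 : (if P (A.att (.inr ())) then 1 else 0) + (if R (C.att (.inr ())) then 1 else 0) ≤
      (if (P (A.att (.inr ())) ↔ R (C.att (.inr ()))) then 0 else 1) +
        2 * (if P (A.att (.inr ())) ∧ R (C.att (.inr ())) then 1 else 0) := by
    by_cases u1 : P (A.att (.inr ())) <;> by_cases u2 : R (C.att (.inr ())) <;> simp [u1, u2]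
  have m1 : (∑ i : Fin h, (if P (A.att (.inl (.inr i))) ∧ Q (B.att (.inl (.inl i))) then 1 else 0))
      ≤ if (∃ v, P v) ∧ (∃ v, Q v) then h else 0 := by
    split_ifs with hc
    · calc _ ≤ ∑ i : Fin h, 1 := Finset.sum_le_sum fun i _ => by split_ifs <;> omega
        _ = h := by simp
    · apply le_of_eq
      apply Finset.sum_eq_zero
      intro i _
      rw [if_neg]
      exact fun hh => hc ⟨⟨_, hh.1⟩, ⟨_, hh.2⟩⟩
  have m2 : (∑ i : Fin h, (if Q (B.att (.inl (.inr i))) ∧ R (C.att (.inl (.inl i))) then 1 else 0))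
      ≤ if (∃ v, Q v) ∧ (∃ v, R v) then h else 0 := by
    split_ifs with hc
    · calc _ ≤ ∑ i : Fin h, 1 := Finset.sum_le_sum fun i _ => by split_ifs <;> omega
        _ = h := by simp
    · apply le_of_eq
      apply Finset.sum_eq_zero
      intro i _
      rw [if_neg]
      exact fun hh => hc ⟨⟨_, hh.1⟩, ⟨_, hh.2⟩⟩
  have m3 : (if P (A.att (.inr ())) ∧ R (C.att (.inr ())) then 1 else 0)
      ≤ if (∃ v, P v) ∧ (∃ v, R v) then 1 else 0 := by
    by_cases hc : (∃ v, P v) ∧ (∃ v, R v)
    · rw [if_pos hc]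
      split_ifs <;> omega
    · rw [if_neg hc, if_neg]
      exact fun hh => hc ⟨⟨_, hh.1⟩, ⟨_, hh.2⟩⟩
  have hne : (∃ v, P v) ∨ (∃ v, Q v) ∨ (∃ v, R v) := by
    obtain ⟨v, hv⟩ := hZ
    rcases v with v | v | v
    · exact Or.inl ⟨v, hv⟩
    · exact Or.inr (Or.inl ⟨v, hv⟩)
    · exact Or.inr (Or.inr ⟨v, hv⟩)
  by_cases p1 : (∃ v, P v) <;> by_cases p2 : (∃ v, Q v) <;> by_cases p3 : (∃ v, R v)
  all_goals
    simp only [p1, p2, p3, and_self, and_true, true_and, and_false, false_and, if_true, if_false,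
      forall_const] at m1 m2 m3 kA kB kC
    try omega
  exact (hne.elim p1 (fun h1 => h1.elim p2 p3)).elim

/-- A single vertex with `2h+1` dangling edges. -/
def pt (h : ℕ) : Net (Dg h) where
  V := Unit
  E := Empty
  fV := inferInstance
  fE := inferInstance
  ends := fun e => e.elim
  att := fun _ => ()

theorem conn_pt (h : ℕ) : (pt h).Conn := by
  intro X hX
  obtain ⟨v, hv⟩ := hX
  unfold Net.cut
  have : ∀ d, X ((pt h).att d) := fun d => hv
  simp [this]

end Pool.Agent.Helper243Arrow
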